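import Pool.Agent.H42.GR.Rs

/-!
MP_aa6dd4_lc, Q1 in codimension two.
-/

set_option autoImplicit false

namespace Pool.Agent.H42.GR

open Finset Polynomial

variable {F : Type*} [Field F]

theorem pluecker (p q a b : F × F) :
    br q a * br p b - br q b * br p a = br q p * br a b := by
  unfold br; ring

/-- distinct affine coordinates from pairwise independent vectors -/
theorem exists_coord [Fintype F] [DecidableEq F] {n : ℕ} (hn : 2 ≤ n)
    (hq : n ≤ Fintype.card F) {w : Fin n → F × F} (hw : Gen univ w) :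
    ∃ (α : Fin n → F) (u : Fin n → F) (δ : F), Function.Injective α ∧ (∀ v, u v ≠ 0) ∧ δ ≠ 0 ∧
      ∀ a b, (α a - α b) * (u a * u b) = δ * br (w a) (w b) := by
  obtain ⟨p, hp⟩ := exists_dir (univ.image w) (by
    intro b hb
    obtain ⟨a, ha, rfl⟩ := mem_image.1 hb
    exact hw.ne_zero (by rw [card_univ, Fintype.card_fin]; exact hn) ha) (by
    have := card_image_le (s := (univ : Finset (Fin n))) (f := w)
    rw [card_univ, Fintype.card_fin] at this
    omega)
  have hp' : ∀ a, br p (w a) ≠ 0 := fun a => hp _ (mem_image_of_mem _ (mem_univ a))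
  let z : Fin n := ⟨0, by omega⟩
  have hδ : br (w z) p ≠ 0 := by
    rw [br_swap]
    exact neg_ne_zero.2 (hp' z)
  have key : ∀ a b, (br (w z) (w a) / br p (w a) - br (w z) (w b) / br p (w b)) *
      (br p (w a) * br p (w b)) = br (w z) p * br (w a) (w b) := by
    intro a b
    have h1 := hp' a
    have h2 := hp' b
    have h3 := pluecker p (w z) (w a) (w b)
    rw [← h3]
    field_simp
  refine ⟨fun a => br (w z) (w a) / br p (w a), fun a => br p (w a), br (w z) p, ?_, hp', hδ,
    key⟩
  intro a b hab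
  by_contra hne
  have h := key a b
  simp only at hab
  rw [hab, sub_self, zero_mul] at h
  exact (mul_ne_zero hδ (hw a (mem_univ _) b (mem_univ _) hne)) h.symm

/-- the product over the complement of a triple -/
theorem prod_compl {n : ℕ} (α : Fin n → F) {a b c : Fin n} (hab : a ≠ b) (hac : a ≠ c)
    (hbc : b ≠ c) : (∏ u ∈ univ.erase a, (α a - α u)) =
      ((α a - α b) * (α a - α c)) * (ff α (univ \ tset (a, b, c))).eval (α a) := by
  classical
  rw [ff_eval]
  have h1 : (univ.erase a : Finset (Fin n)) = insert b (insert c (univ \ tset (a, b, c))) := by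
    ext v
    simp only [mem_erase, mem_univ, and_true, mem_insert, mem_sdiff, mem_tset, true_and]
    constructor
    · intro h
      by_cases e1 : v = b
      · exact Or.inl e1
      by_cases e2 : v = c
      · exact Or.inr (Or.inl e2)
      exact Or.inr (Or.inr (by push Not; exact ⟨h, e1, e2⟩))
    · rintro (rfl | rfl | h)
      · exact hab.symm
      · exact hac.symm
      · push Not at h; exact h.1
  rw [h1, prod_insert, prod_insert]
  · ring
  · simp [mem_tset]
  · rw [mem_insert]
    push Not
    exact ⟨hbc, by simp [mem_tset]⟩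

theorem tset_rot {V : Type*} [DecidableEq V] (a b c : V) : tset (a, b, c) = tset (b, c, a) := by
  ext v; simp only [mem_tset]; tauto

theorem vec_rel {n : ℕ} {α u : Fin n → F} {δ : F} {w : Fin n → F × F}
    (h : ∀ a b, (α a - α b) * (u a * u b) = δ * br (w a) (w b)) {a b c : Fin n} (hab : a ≠ b)
    (hac : a ≠ c) (hbc : b ≠ c) (v : Fin n) :
    δ * vec (a, b, c) w v * ((∏ x ∈ univ.erase v, (α v - α x)) * u v) =
      ((α a - α b) * (α a - α c) * (α b - α c) * (u a * u b * u c)) *
        (ff α (univ \ tset (a, b, c))).eval (α v) := by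
  by_cases e1 : v = a
  · subst e1
    have h1 : vec (v, b, c) w v = br (w b) (w c) := vec_first_ne hab hac
    rw [h1, prod_compl α hab hac hbc, ← h b c]
    ring
  by_cases e2 : v = b
  · subst e2
    have h1 : vec (a, v, c) w v = br (w c) (w a) := by simp [vec, hab.symm, hbc]
    rw [h1, prod_compl α hbc hab.symm hac.symm, ← h c a, tset_rot a v c]
    ring
  by_cases e3 : v = c
  · subst e3
    have h1 : vec (a, b, v) w v = br (w a) (w b) := by simp [vec, hac.symm, hbc.symm]
    rw [h1, prod_compl α hac.symm hbc.symm hab, ← h a b, tset_rot a b v, tset_rot b v a]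
    ring
  · have h1 : v ∉ tset (a, b, c) := by
      rw [mem_tset]; push Not; exact ⟨e1, e2, e3⟩
    rw [vec_not_mem w h1, ff_eval_zero α (mem_sdiff.2 ⟨mem_univ _, h1⟩)]
    ring

/-- codimension two -/
theorem concl_two [Fintype F] {n k : ℕ} (hk : 1 ≤ k) (hnk : n = k + 2)
    (hq : n ≤ Fintype.card F) {Z : Fin k → Finset (Fin n)} (hZ : Pool.Agent.H95.Cond k Z) :
    RSConcl F n k Z := by
  classical
  obtain ⟨Z', h1, h2, h3⟩ := Pool.Agent.H95.exists_extend (k := k)
    (by rw [Fintype.card_fin]; omega) _ Z hZ rfl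
  have hS : ∀ i, ∃ t : Fin n × Fin n × Fin n, Z' i = univ \ tset t ∧ t.1 ≠ t.2.1 ∧
      t.1 ≠ t.2.2 ∧ t.2.1 ≠ t.2.2 := by
    intro i
    have : (univ \ Z' i).card = 3 := by
      rw [card_univ_sdiff, Fintype.card_fin]
      have := h2 i
      omega
    obtain ⟨a, b, c, hab, hac, hbc, he⟩ := card_eq_three.1 this
    refine ⟨(a, b, c), ?_, hab, hac, hbc⟩
    have : tset (a, b, c) = univ \ Z' i := by rw [he]; rfl
    rw [this]
    simp
  choose S hS1 hS2 hS3 hS4 using hS
  have hHC : HC S univ := by
    intro Ω _ hne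
    have hc := h3 Ω hne
    have hU : US S Ω = univ \ Pool.Agent.H95.inter Z' Ω := by
      ext v
      unfold US
      rw [mem_biUnion, mem_sdiff, Pool.Agent.H95.mem_inter_iff']
      constructor
      · rintro ⟨i, hi, hv⟩
        refine ⟨mem_univ _, fun hcon => ?_⟩
        have := hcon i hi
        rw [hS1 i, mem_sdiff] at this
        exact this.2 hv
      · rintro ⟨_, hv⟩
        push Not at hv
        obtain ⟨i, hi, hv⟩ := hv
        refine ⟨i, hi, ?_⟩
        rw [hS1 i, mem_sdiff] at hv
        push Not at hv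
        exact hv (mem_univ _)
    rw [hU, card_univ_sdiff, Fintype.card_fin]
    omega
  obtain ⟨w, hG, hI⟩ := main (F := F) k (univ : Finset (Fin k)) (univ : Finset (Fin n)) S
    (by simp) (by simp [hnk]) (fun i _ => subset_univ _) hHC (by simpa using hq)
  obtain ⟨α, u, δ, hα, hu, hδ, hrel⟩ := exists_coord (by omega) hq hG
  refine concl_of_indep (by omega) hα h1 h2 ?_
  rw [Fintype.linearIndependent_iff]
  intro μ hμ i
  set κ : Fin k → F := fun i => (α (S i).1 - α (S i).2.1) * (α (S i).1 - α (S i).2.2) *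
    (α (S i).2.1 - α (S i).2.2) * (u (S i).1 * u (S i).2.1 * u (S i).2.2) with hκ
  have hκ0 : ∀ i, κ i ≠ 0 := by
    intro i
    have e1 : α (S i).1 - α (S i).2.1 ≠ 0 := sub_ne_zero.2 fun e => hS2 i (hα e)
    have e2 : α (S i).1 - α (S i).2.2 ≠ 0 := sub_ne_zero.2 fun e => hS3 i (hα e)
    have e3 : α (S i).2.1 - α (S i).2.2 ≠ 0 := sub_ne_zero.2 fun e => hS4 i (hα e)
    exact mul_ne_zero (mul_ne_zero (mul_ne_zero e1 e2) e3)
      (mul_ne_zero (mul_ne_zero (hu _) (hu _)) (hu _))
  have key := hI (fun i => μ i / κ i) (by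
    intro v _
    have h4 : (∑ i, μ i / κ i * vec (S i) w v) *
        (δ * ((∏ x ∈ univ.erase v, (α v - α x)) * u v)) = 0 := by
      rw [sum_mul]
      have h5 : ∀ i ∈ (univ : Finset (Fin k)), μ i / κ i * vec (S i) w v *
          (δ * ((∏ x ∈ univ.erase v, (α v - α x)) * u v)) =
          (μ i • ff α (Z' i)).eval (α v) := by
        intro i _
        have h6 := vec_rel hrel (hS2 i) (hS3 i) (hS4 i) v
        rw [eval_smul, smul_eq_mul, hS1 i]
        have h7 : μ i / κ i * vec (S i) w v *
            (δ * ((∏ x ∈ univ.erase v, (α v - α x)) * u v)) = μ i / κ i *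
            (δ * vec (S i) w v * ((∏ x ∈ univ.erase v, (α v - α x)) * u v)) := by ring
        rw [h7]
        have h8 : δ * vec (S i) w v * ((∏ x ∈ univ.erase v, (α v - α x)) * u v) =
            κ i * (ff α (univ \ tset (S i))).eval (α v) := h6
        rw [h8]
        have := hκ0 i
        field_simp
      rw [sum_congr rfl h5, ← eval_finsetSum, hμ, eval_zero]
    refine (mul_eq_zero.1 h4).resolve_right (mul_ne_zero hδ (mul_ne_zero ?_ (hu v)))
    refine prod_ne_zero_iff.2 fun x hx => ?_
    exact sub_ne_zero.2 fun e => (ne_of_mem_erase hx) (hα e).symm) i (mem_univ _)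
  exact (div_eq_zero_iff.1 key).resolve_right (hκ0 i)

/-- a finite field has at least as many points as needed -/
theorem exists_inj [Fintype F] {n : ℕ} (hq : n ≤ Fintype.card F) :
    ∃ α : Fin n → F, Function.Injective α := by
  obtain ⟨f⟩ := Function.Embedding.nonempty_of_card_le (α := Fin n) (β := F) (by simpa using hq)
  exact ⟨f, f.injective⟩

/-- codimension at most two -/
theorem concl_codim [Fintype F] {n k : ℕ} (hk : 1 ≤ k) (hkn : k ≤ n) (hnk : n ≤ k + 2)
    (hq : n ≤ Fintype.card F) {Z : Fin k → Finset (Fin n)} (hZ : Pool.Agent.H95.Cond k Z) :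
    RSConcl F n k Z := by
  classical
  by_cases h : n = k + 2
  · exact concl_two hk h hq hZ
  · obtain ⟨Z', h1, h2, h3⟩ := Pool.Agent.H95.exists_extend (k := k)
      (by rw [Fintype.card_fin]; omega) _ Z hZ rfl
    obtain ⟨α, hα⟩ := exists_inj hq
    exact concl_of_indep hkn hα h1 h2 (indep_low (by omega) hkn hα h2 h3)

end Pool.Agent.H42.GR
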