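import Pool.Agent.H42.GR.Inv
import Pool.Agent.H42.GR.Two

/-!
MP_aa6dd4_lc, Q1 for every prime power `q >= max (n, n - 1 + [k (k - 1) / n])`.
-/

set_option autoImplicit false

namespace Pool.Agent.H42.GR

open Finset Polynomial

variable {F : Type*} [Field F]

/-- the points of `Z` other than the last one -/
def WW {m k : ℕ} (Z : Fin k → Finset (Fin (m + 1))) (i : Fin k) : Finset (Fin m) :=
  univ.filter fun j => j.castSucc ∈ Z i

/-- one if the last point lies in `Z i` -/
def tt {m k : ℕ} (Z : Fin k → Finset (Fin (m + 1))) (i : Fin k) : ℕ :=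
  if Fin.last m ∈ Z i then 1 else 0

theorem WW_card {m k : ℕ} (Z : Fin k → Finset (Fin (m + 1))) (i : Fin k) :
    (WW Z i).card + tt Z i = (Z i).card := by
  have h1 : (Z i).card = ∑ j : Fin (m + 1), if j ∈ Z i then 1 else 0 := by
    rw [← card_filter]
    congr 1
    ext j; simp
  rw [h1, Fin.sum_univ_castSucc, WW, tt, card_filter]

theorem good_of_cond {m k : ℕ} {Z : Fin k → Finset (Fin (m + 1))} (hc : ∀ i, (Z i).card + 1 = k)
    (hZ : Pool.Agent.H95.Cond k Z) : Pool.Agent.H95.Good k univ (WW Z) (tt Z) := by
  classical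
  refine ⟨fun i _ => ?_, ?_⟩
  · have := WW_card Z i
    have := hc i
    omega
  · intro Ω _ hne A t hA
    have h1 : ∑ i ∈ Ω, (k - tt Z i - (WW Z i).card) = Ω.card := by
      rw [card_eq_sum_ones]
      apply sum_congr rfl
      intro i _
      have := WW_card Z i
      have := hc i
      omega
    rw [h1]
    have h2 := hZ Ω hne
    obtain ⟨i₀, hi₀⟩ := hne
    have ht1 : t ≤ 1 := by
      refine le_trans (hA i₀ hi₀).2 ?_
      unfold tt
      split_ifs <;> omega
    have h3 : A.card + t ≤ (Pool.Agent.H95.inter Z Ω).card := by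
      have hB : A.map Fin.castSuccEmb ⊆ (Pool.Agent.H95.inter Z Ω).erase (Fin.last m) := by
        intro v hv
        rw [mem_map] at hv
        obtain ⟨j, hj, rfl⟩ := hv
        rw [mem_erase, Pool.Agent.H95.mem_inter_iff']
        refine ⟨?_, fun i hi => ?_⟩
        · exact (Fin.castSucc_lt_last j).ne
        · have := (hA i hi).1 hj
          rw [WW, mem_filter] at this
          exact this.2
      have h4 := card_le_card hB
      rw [card_map] at h4
      rcases Nat.eq_zero_or_pos t with h0 | hpos
      · have h5 := card_le_card (erase_subset (Fin.last m) (Pool.Agent.H95.inter Z Ω))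
        omega
      · have hl : Fin.last m ∈ Pool.Agent.H95.inter Z Ω := by
          rw [Pool.Agent.H95.mem_inter_iff']
          intro i hi
          have := (hA i hi).2
          unfold tt at this
          by_contra hcon
          rw [if_neg hcon] at this
          omega
        have h5 := card_erase_add_one hl
        omega
    omega

theorem ff_split {m k : ℕ} (Z : Fin k → Finset (Fin (m + 1))) (x : Fin m → F) (i : Fin k) :
    ff (Fin.snoc (α := fun _ => F) x 0) (Z i) = X ^ tt Z i * gg x (WW Z i) := by
  classical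
  have h1 : ff (Fin.snoc (α := fun _ => F) x 0) (Z i) = ∏ j : Fin (m + 1), if j ∈ Z i then
      (X - C ((Fin.snoc (α := fun _ => F) x 0 : Fin (m + 1) → F) j)) else 1 := by
    unfold ff
    rw [← prod_filter]
    congr 1
    ext j; simp
  rw [h1, Fin.prod_univ_castSucc]
  have h2 : gg x (WW Z i) = ∏ j : Fin m, if j.castSucc ∈ Z i then (X - C (x j)) else 1 := by
    unfold gg WW
    rw [prod_filter]
  rw [h2, mul_comm]
  congr 1
  · rw [Fin.snoc_last, tt]
    split_ifs <;> simp
  · apply prod_congr rfl
    intro j _
    rw [Fin.snoc_castSucc]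

theorem indep_sorted [Fintype F] {m k : ℕ} {Z : Fin k → Finset (Fin (m + 1))}
    (hc : ∀ i, (Z i).card + 1 = k) (hZ : Pool.Agent.H95.Cond k Z)
    (hm : m + 1 ≤ Fintype.card F)
    (hd : ∀ j : Fin m, (univ.filter fun i => j.castSucc ∈ Z i).card + (m - 1 - j) <
      Fintype.card F) :
    ∃ α : Fin (m + 1) → F, Function.Injective α ∧ LinearIndependent F fun i => ff α (Z i) := by
  classical
  have hW : ∀ i, (WW Z i).card + tt Z i + 1 = k := fun i => by rw [WW_card]; exact hc i
  have hP : PY F (WW Z) ≠ 0 := PY_ne_zero hW (good_of_cond hc hZ)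
  obtain ⟨s, hs, hPs⟩ := sel m (PY F (WW Z)) hP (by
    intro j
    have h1 := PY_degree (F := F) (WW Z) j
    have h2 : (univ.filter fun i => j ∈ WW Z i) = univ.filter fun i => j.castSucc ∈ Z i := by
      ext i; simp [WW]
    rw [h2] at h1
    have := hd j
    omega)
  obtain ⟨β, hβ⟩ : ∃ β : F, ∀ z, s z ≠ β := by
    have h1 : (image s univ).card < (univ : Finset F).card := by
      have := card_image_le (s := (univ : Finset (Fin m))) (f := s)
      rw [card_univ, Fintype.card_fin] at this
      rw [card_univ]
      omega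
    obtain ⟨β, _, hβ⟩ := exists_mem_notMem_of_card_lt_card h1
    exact ⟨β, fun z e => hβ (mem_image.2 ⟨z, mem_univ _, e⟩)⟩
  refine ⟨Fin.snoc (α := fun _ => F) (fun z => (s z - β)⁻¹) 0, ?_, ?_⟩
  · intro a b
    refine Fin.lastCases ?_ (fun a => ?_) a <;> refine Fin.lastCases ?_ (fun b => ?_) b
    · intro _; rfl
    · intro h
      rw [Fin.snoc_last, Fin.snoc_castSucc] at h
      exact absurd h.symm (inv_ne_zero (sub_ne_zero.2 (hβ b)))
    · intro h
      rw [Fin.snoc_last, Fin.snoc_castSucc] at h
      exact absurd h (inv_ne_zero (sub_ne_zero.2 (hβ a)))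
    · intro h
      rw [Fin.snoc_castSucc, Fin.snoc_castSucc] at h
      have h1 := inv_injective h
      have h2 : s a = s b := by linear_combination h1
      rw [hs h2]
  · rw [Fintype.linearIndependent_iff]
    intro μ hμ
    let K := AlgebraicClosure F
    let φ := algebraMap F K
    have h1 := PY_map (F := F) (WW Z) (φ.comp (MvPolynomial.eval s))
    have h2 : (φ.comp (MvPolynomial.eval s)) (PY F (WW Z)) ≠ 0 := by
      rw [RingHom.comp_apply]
      exact (map_ne_zero φ).2 hPs
    rw [h1] at h2
    have hdeg : ∀ i, (gg (fun z => (φ.comp (MvPolynomial.eval s)) (MvPolynomial.X z))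
        (WW Z i)).degree < (k : ℕ) := fun i => gg_degree_lt _ (by have := hW i; omega)
    have h3 := (det_ne_iff hdeg).1 h2
    have h4 : (fun z => (φ.comp (MvPolynomial.eval s)) (MvPolynomial.X z)) = fun z => φ (s z) := by
      funext z; simp
    rw [h4] at h3
    have h5 := inv_inf hW (s := fun z => φ (s z)) (β := φ β)
      (fun z e => hβ z (φ.injective e)) h3 (fun i => φ (μ i)) (by
        have h6 := congrArg (Polynomial.map φ) hμ
        rw [Polynomial.map_zero, Polynomial.map_sum] at h6
        rw [← h6]
        apply sum_congr rfl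
        intro i _
        rw [Polynomial.map_smul, ff_split, Polynomial.map_mul, Polynomial.map_pow,
          Polynomial.map_X, gg_map, smul_eq_C_mul]
        simp)
    intro i
    have h6 := congrFun h5 i
    exact (map_eq_zero φ).1 h6

end Pool.Agent.H42.GR
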