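import Mathlib

/-!
MP_aa6dd4_lc, Q1 in codimension two: brackets, the three-term vectors and the choice of a
direction.
-/

set_option autoImplicit false

namespace Pool.Agent.H42.GR

open Finset

variable {F : Type*} [Field F]

/-- the bracket of two vectors of the plane -/
def br (u v : F × F) : F := u.1 * v.2 - u.2 * v.1

theorem br_swap (u v : F × F) : br u v = - br v u := by
  unfold br; ring

theorem br_zero_right (u : F × F) : br u 0 = 0 := by
  simp [br]

theorem br_zero_left (u : F × F) : br 0 u = 0 := by
  simp [br]

theorem br_self (u : F × F) : br u u = 0 := by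
  unfold br; ring

theorem br_lin (s t : F) (p p' v : F × F) : br (s • p + t • p') v = s * br p v + t * br p' v := by
  simp only [br, Prod.fst_add, Prod.snd_add, Prod.smul_fst, Prod.smul_snd, smul_eq_mul]; ring

theorem br_lin' (s t : F) (p p' v : F × F) : br v (s • p + t • p') = s * br v p + t * br v p' := by
  simp only [br, Prod.fst_add, Prod.snd_add, Prod.smul_fst, Prod.smul_snd, smul_eq_mul]; ring

/-- two independent vectors span -/
theorem span_two {p b : F × F} (h : br p b ≠ 0) (x : F × F) :
    ∃ s t : F, x = s • p + t • b := by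
  refine ⟨br x b / br p b, br p x / br p b, ?_⟩
  apply Prod.ext
  · simp only [Prod.fst_add, Prod.smul_fst, smul_eq_mul]
    field_simp
    unfold br; ring
  · simp only [Prod.snd_add, Prod.smul_snd, smul_eq_mul]
    field_simp
    unfold br; ring

theorem br_trans {p p' b : F × F} (hb : b ≠ 0) (h : br p b = 0) (h' : br p' b = 0) :
    br p p' = 0 := by
  unfold br at *
  by_cases h1 : b.1 = 0
  · have h2 : b.2 ≠ 0 := fun h2 => hb (Prod.ext h1 h2)
    rw [h1] at h h'
    have e1 : p.1 = 0 := by
      have : p.1 * b.2 = 0 := by linear_combination h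
      exact (mul_eq_zero.1 this).resolve_right h2
    have e2 : p'.1 = 0 := by
      have : p'.1 * b.2 = 0 := by linear_combination h'
      exact (mul_eq_zero.1 this).resolve_right h2
    rw [e1, e2]; ring
  · have : (p.1 * p'.2 - p.2 * p'.1) * b.1 = 0 := by linear_combination p'.1 * h - p.1 * h'
    exact (mul_eq_zero.1 this).resolve_right h1

/-- the candidates for a direction -/
def cand : Option F → F × F
  | none => (0, 1)
  | some t => (1, t)

theorem cand_inj {x y : Option F} (h : br (cand x) (cand y) = 0) : x = y := by
  cases x <;> cases y <;> simp [br, cand] at h ⊢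
  linear_combination -h

theorem exists_dir [Fintype F] [DecidableEq F] (B : Finset (F × F)) (h0 : ∀ b ∈ B, b ≠ 0)
    (hB : B.card ≤ Fintype.card F) : ∃ p : F × F, ∀ b ∈ B, br p b ≠ 0 := by
  classical
  by_contra hcon
  push Not at hcon
  choose g hg using hcon
  have hlt : B.card < (univ : Finset (Option F)).card := by
    rw [card_univ, Fintype.card_option]; omega
  obtain ⟨x, _, y, _, hne, hxy⟩ := exists_ne_map_eq_of_card_lt_of_maps_to hlt
    (f := fun x => g (cand x)) (fun x _ => (hg (cand x)).1)
  apply hne
  have h1 := (hg (cand x)).2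
  have h2 := (hg (cand y)).2
  rw [← hxy] at h2
  exact cand_inj (br_trans (h0 _ (hg (cand x)).1) h1 h2)

variable {V : Type*} [DecidableEq V]

/-- the set of points of a triple -/
def tset (t : V × V × V) : Finset V := {t.1, t.2.1, t.2.2}

/-- the vector of a triple of points -/
def vec (t : V × V × V) (w : V → F × F) (j : V) : F :=
  (if j = t.1 then br (w t.2.1) (w t.2.2) else 0) +
  (if j = t.2.1 then br (w t.2.2) (w t.1) else 0) +
  (if j = t.2.2 then br (w t.1) (w t.2.1) else 0)

theorem mem_tset {t : V × V × V} {v : V} : v ∈ tset t ↔ v = t.1 ∨ v = t.2.1 ∨ v = t.2.2 := by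
  simp [tset]

theorem tset_card_le (t : V × V × V) : (tset t).card ≤ 3 := by
  unfold tset
  exact card_le_three

theorem vec_congr {t : V × V × V} {w w' : V → F × F} (h : ∀ v ∈ tset t, w v = w' v) (j : V) :
    vec t w j = vec t w' j := by
  have h1 := h t.1 (by simp [mem_tset])
  have h2 := h t.2.1 (by simp [mem_tset])
  have h3 := h t.2.2 (by simp [mem_tset])
  unfold vec
  rw [h1, h2, h3]

theorem vec_not_mem {t : V × V × V} {v : V} (w : V → F × F) (h : v ∉ tset t) :
    vec t w v = 0 := by
  rw [mem_tset] at h
  push Not at h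
  unfold vec
  rw [if_neg h.1, if_neg h.2.1, if_neg h.2.2]
  ring

theorem distinct_of_card {a b c : V} (h : 3 ≤ (tset (a, b, c)).card) : a ≠ b ∧ a ≠ c ∧ b ≠ c := by
  refine ⟨?_, ?_, ?_⟩ <;> rintro rfl
  · have : (tset (a, a, c)).card ≤ 2 := by simpa [tset] using card_le_two (a := a) (b := c)
    omega
  · have : tset (a, b, a) = {a, b} := by
      ext v; simp only [mem_tset, mem_insert, mem_singleton]; tauto
    rw [this] at h
    have := card_le_two (a := a) (b := b)
    omega
  · have : tset (a, b, b) = {a, b} := by
      ext v; simp only [mem_tset, mem_insert, mem_singleton]; tauto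
    rw [this] at h
    have := card_le_two (a := a) (b := b)
    omega

/-- rotate a triple so that a given point comes first -/
theorem rotate {t : V × V × V} {j : V} (hj : j ∈ tset t) :
    ∃ a b : V, tset t = tset (j, a, b) ∧ ∀ (w : V → F × F) (v : V), vec t w v = vec (j, a, b) w v := by
  obtain ⟨x, y, z⟩ := t
  rw [mem_tset] at hj
  rcases hj with h | h | h
  · simp only at h; subst h
    exact ⟨y, z, rfl, fun w v => rfl⟩
  · simp only at h; subst h
    refine ⟨z, x, ?_, fun w v => ?_⟩
    · ext v; simp only [mem_tset]; tauto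
    · simp only [vec]; ring
  · simp only at h; subst h
    refine ⟨x, y, ?_, fun w v => ?_⟩
    · ext v; simp only [mem_tset]; tauto
    · simp only [vec]; ring

end Pool.Agent.H42.GR
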