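import Pool.Agent.H42.GR.Crd

/-!
MP_aa6dd4_lc, Q1: counting of the reduced degrees and the final bound.
-/

set_option autoImplicit false

namespace Pool.Agent.H42.GR

open Finset Polynomial

variable {F : Type*} [Field F]

theorem red_le {n k : ℕ} (hk : 1 ≤ k) {Z : Fin k → Finset (Fin n)}
    (hZ : Pool.Agent.H95.Cond k Z) (v : Fin n) : red Z v ≤ k - 1 :=
  (Nat.sub_le _ _).trans (mult_le hk hZ v)

/-- the reduced degree of a point of degree `t` in the complements -/
theorem red_dual {n k r : ℕ} (hn : n = k + r) {Z : Fin k → Finset (Fin n)}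
    (hc : ∀ i, (Z i).card + 1 = k) (v : Fin n) :
    red Z v = 0 ∨ red Z v + (univ.filter fun i => v ∉ Z i).card + r ≤
      (univ.filter fun i => v ∉ Z i).card * r + 1 := by
  classical
  have h1 : (univ.filter fun i => v ∈ Z i).card + (univ.filter fun i => v ∉ Z i).card = k := by
    have := card_filter_add_card_filter_not (s := (univ : Finset (Fin k))) (fun i => v ∈ Z i)
    rwa [card_univ, Fintype.card_fin] at this
  have h2 : n ≤ 1 + (cov Z v).card + (univ.filter fun i => v ∉ Z i).card * r := by
    have h3 : (univ : Finset (Fin n)) ⊆ ({v} ∪ cov Z v) ∪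
        (univ.filter fun i => v ∉ Z i).biUnion fun i => (univ \ Z i).erase v := by
      intro b _
      by_cases hb : b = v
      · rw [hb]; simp
      by_cases hcv : ∀ i, v ∈ Z i ∨ b ∈ Z i
      · refine mem_union_left _ (mem_union_right _ ?_)
        exact mem_filter.2 ⟨mem_univ _, hb, hcv⟩
      · push Not at hcv
        obtain ⟨i, hi1, hi2⟩ := hcv
        refine mem_union_right _ (mem_biUnion.2 ⟨i, mem_filter.2 ⟨mem_univ _, hi1⟩, ?_⟩)
        exact mem_erase.2 ⟨hb, mem_sdiff.2 ⟨mem_univ _, hi2⟩⟩
    have h4 := card_le_card h3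
    rw [card_univ, Fintype.card_fin] at h4
    have h5 := card_union_le ({v} ∪ cov Z v)
      ((univ.filter fun i => v ∉ Z i).biUnion fun i => (univ \ Z i).erase v)
    have h6 := card_union_le ({v} : Finset (Fin n)) (cov Z v)
    rw [card_singleton] at h6
    have h7 : ((univ.filter fun i => v ∉ Z i).biUnion fun i => (univ \ Z i).erase v).card ≤
        (univ.filter fun i => v ∉ Z i).card * r := by
      apply card_biUnion_le_card_mul
      intro i hi
      have h8 : v ∈ univ \ Z i := mem_sdiff.2 ⟨mem_univ _, (mem_filter.1 hi).2⟩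
      have h9 := card_erase_add_one h8
      rw [card_univ_sdiff, Fintype.card_fin] at h9
      have := hc i
      omega
    omega
  unfold red
  omega

theorem tdeg_sum {n k r : ℕ} (hn : n = k + r) {Z : Fin k → Finset (Fin n)}
    (hc : ∀ i, (Z i).card + 1 = k) :
    ∑ v : Fin n, (univ.filter fun i => v ∉ Z i).card = k * (r + 1) := by
  classical
  have h1 : ∑ v ∈ (univ : Finset (Fin n)), ((univ : Finset (Fin k)).filter fun i => v ∉ Z i).card =
      ∑ i ∈ (univ : Finset (Fin k)), ((univ : Finset (Fin n)).filter fun v => v ∉ Z i).card :=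
    sum_card_bipartiteAbove_eq_sum_card_bipartiteBelow (fun v i => v ∉ Z i)
  rw [h1]
  have h2 : ∀ i ∈ (univ : Finset (Fin k)), ((univ : Finset (Fin n)).filter fun v => v ∉ Z i).card =
      r + 1 := by
    intro i _
    have h3 : ((univ : Finset (Fin n)).filter fun v => v ∉ Z i) = univ \ Z i := by ext v; simp
    rw [h3, card_univ_sdiff, Fintype.card_fin]
    have := hc i
    omega
  rw [sum_congr rfl h2, sum_const, card_univ, Fintype.card_fin, smul_eq_mul]

theorem red_sum {n k r : ℕ} (hk : 1 ≤ k) (hn : n = k + r) {Z : Fin k → Finset (Fin n)}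
    (hc : ∀ i, (Z i).card + 1 = k) (hZ : Pool.Agent.H95.Cond k Z) :
    ∑ v : Fin n, red Z v ≤ (k - 1) * min k (r * (r - 1)) := by
  classical
  rcases le_total k (r * (r - 1)) with hle | hle
  · rw [min_eq_left hle, mul_comm]
    refine le_trans (sum_le_sum fun v _ => Nat.sub_le _ _) ?_
    rw [mult_sum hc]
  · rw [min_eq_right hle]
    have ht : ∀ v : Fin n, 1 ≤ (univ.filter fun i => v ∉ Z i).card := by
      intro v
      have h1 : (univ.filter fun i => v ∈ Z i).card + (univ.filter fun i => v ∉ Z i).card = k := by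
        have := card_filter_add_card_filter_not (s := (univ : Finset (Fin k))) (fun i => v ∈ Z i)
        rwa [card_univ, Fintype.card_fin] at this
      have := mult_le hk hZ v
      omega
    have hv : ∀ v : Fin n, red Z v ≤ ((univ.filter fun i => v ∉ Z i).card - 1) * (r - 1) := by
      intro v
      rcases red_dual hn hc v with h | h
      · rw [h]; exact Nat.zero_le _
      · have h1 := ht v
        obtain ⟨b, hb⟩ := Nat.exists_eq_add_of_le h1
        rw [hb] at h ⊢
        have e1 : 1 + b - 1 = b := by omega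
        rw [e1]
        rcases Nat.eq_zero_or_pos r with h0 | hpos
        · subst h0; omega
        · obtain ⟨c, hc'⟩ := Nat.exists_eq_add_of_le hpos
          subst hc'
          have e3 : 1 + c - 1 = c := by omega
          rw [e3]
          nlinarith
    have hs : ∑ v : Fin n, ((univ.filter fun i => v ∉ Z i).card - 1) + n = k * (r + 1) := by
      rw [← tdeg_sum hn hc]
      have h1 : ∑ v : Fin n, (((univ.filter fun i => v ∉ Z i).card - 1) + 1) =
          ∑ v : Fin n, (univ.filter fun i => v ∉ Z i).card :=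
        sum_congr rfl fun v _ => by have := ht v; omega
      rw [← h1, sum_add_distrib]
      simp
    calc ∑ v : Fin n, red Z v
        ≤ ∑ v : Fin n, ((univ.filter fun i => v ∉ Z i).card - 1) * (r - 1) :=
          sum_le_sum fun v _ => hv v
      _ = (∑ v : Fin n, ((univ.filter fun i => v ∉ Z i).card - 1)) * (r - 1) := by
          rw [sum_mul]
      _ = (k - 1) * (r * (r - 1)) := by
          have h2 : ∑ v : Fin n, ((univ.filter fun i => v ∉ Z i).card - 1) = (k - 1) * r := by
            generalize ∑ v : Fin n, ((univ.filter fun i => v ∉ Z i).card - 1) = s at hs ⊢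
            have h3 : k * (r + 1) = k * r + k := by ring
            have h4 : (k - 1) * r + r = k * r := by
              rw [← Nat.succ_mul]
              congr 1
              omega
            omega
          rw [h2, mul_assoc]

theorem concl_best [Fintype F] {n k : ℕ} (hk : 1 ≤ k) (hkn : k ≤ n)
    (hq : n ≤ Fintype.card F)
    (h : n - 1 + (k - 1) * min k ((n - k) * (n - k - 1)) / n ≤ Fintype.card F)
    {Z : Fin k → Finset (Fin n)} (hZ : Pool.Agent.H95.Cond k Z) : RSConcl F n k Z := by
  classical
  obtain ⟨Z', h1, h2, h3⟩ := Pool.Agent.H95.exists_extend (k := k)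
    (by rw [Fintype.card_fin]; omega) _ Z hZ rfl
  obtain ⟨m, rfl⟩ : ∃ m, n = m + 1 := ⟨n - 1, by omega⟩
  set d : Fin (m + 1) → ℕ := red Z' with hd
  set σ := Tuple.sort d with hσ
  have hmono : Monotone (d ∘ σ) := Tuple.monotone_sort d
  let Zs : Fin k → Finset (Fin (m + 1)) := fun i => (Z' i).map σ.symm.toEmbedding
  have hmem : ∀ i v, v ∈ Zs i ↔ σ v ∈ Z' i := by
    intro i v
    show v ∈ (Z' i).map σ.symm.toEmbedding ↔ _
    rw [mem_map_equiv]
    simp
  have hcs : ∀ i, (Zs i).card + 1 = k := by
    intro i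
    show ((Z' i).map σ.symm.toEmbedding).card + 1 = k
    rw [card_map]
    exact h2 i
  have hZs : Pool.Agent.H95.Cond k Zs := by
    intro Ω hne
    have h4 : Pool.Agent.H95.inter Zs Ω =
        (Pool.Agent.H95.inter Z' Ω).map σ.symm.toEmbedding := by
      ext v
      rw [mem_map_equiv, Pool.Agent.H95.mem_inter_iff', Pool.Agent.H95.mem_inter_iff']
      simp only [hmem]
      simp
    rw [h4, card_map]
    exact h3 Ω hne
  have hredeq : ∀ v, red Zs v = d (σ v) := by
    intro v
    have e1 : (univ.filter fun i => v ∈ Zs i) = univ.filter fun i => σ v ∈ Z' i := by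
      ext i
      simp only [mem_filter, mem_univ, true_and]
      exact hmem i v
    have e2 : (cov Zs v).card = (cov Z' (σ v)).card := by
      have e3 : cov Zs v = (cov Z' (σ v)).map σ.symm.toEmbedding := by
        ext b
        rw [mem_map_equiv]
        unfold cov
        simp only [mem_filter, mem_univ, true_and, hmem, Equiv.symm_symm]
        constructor
        · rintro ⟨g1, g2⟩
          exact ⟨fun e => g1 (σ.injective e), g2⟩
        · rintro ⟨g1, g2⟩
          exact ⟨fun e => g1 (by rw [e]), g2⟩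
      rw [e3, card_map]
    show red Zs v = red Z' (σ v)
    unfold red
    rw [e1, e2]
  have hdeg : ∀ j : Fin m, red Zs j.castSucc + (m - 1 - j) < Fintype.card F := by
    intro j
    rw [hredeq]
    have e2 : d (σ j.castSucc) ≤ k - 1 := red_le hk h3 _
    have e3 : (m + 1 - j) * d (σ j.castSucc) ≤
        (k - 1) * min k ((m + 1 - k) * (m + 1 - k - 1)) := by
      have e4 : ∑ v ∈ Ici j.castSucc, d (σ j.castSucc) ≤ ∑ v ∈ Ici j.castSucc, d (σ v) :=
        sum_le_sum fun v hv => hmono (mem_Ici.1 hv)
      rw [sum_const, smul_eq_mul, Fin.card_Ici, Fin.val_castSucc] at e4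
      refine e4.trans ?_
      calc ∑ v ∈ Ici j.castSucc, d (σ v) ≤ ∑ v, d (σ v) :=
            sum_le_sum_of_subset (subset_univ _)
        _ = ∑ v, d v := Equiv.sum_comp σ d
        _ ≤ _ := red_sum hk (r := m + 1 - k) (by omega) h2 h3
    have hj := j.2
    have e5 := numeric' (t := m + 1 - j) hk hkn hq h (min_le_left _ _) e2 (by omega) (by omega) e3
    omega
  obtain ⟨α, hα, hind⟩ := indep_sorted' hk hcs hZs hq hdeg
  refine concl_of_indep hkn (α := α ∘ σ.symm) (hα.comp σ.symm.injective) h1 h2 ?_
  have h5 : (fun i => ff (α ∘ σ.symm) (Z' i)) = fun i => ff α (Zs i) := by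
    funext i
    show ff (α ∘ σ.symm) (Z' i) = ff α ((Z' i).map σ.symm.toEmbedding)
    unfold ff
    rw [prod_map]
    rfl
  rw [h5]
  exact hind

/-- the bound holds for every `q ≥ n` if `k ≤ 4`, or `n ≤ k + 2`, or `k (k - 1) < 2 n` -/
theorem bound_of {n k q : ℕ} (hkn : k ≤ n) (hq : n ≤ q)
    (h : k ≤ 4 ∨ n ≤ k + 2 ∨ k * (k - 1) < 2 * n ∨
      n - 1 + (k - 1) * min k ((n - k) * (n - k - 1)) / n ≤ q) :
    n - 1 + (k - 1) * min k ((n - k) * (n - k - 1)) / n ≤ q := by
  have key : (k - 1) * min k ((n - k) * (n - k - 1)) < 2 * n →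
      n - 1 + (k - 1) * min k ((n - k) * (n - k - 1)) / n ≤ q := by
    intro h1
    have h2 : (k - 1) * min k ((n - k) * (n - k - 1)) / n < 2 :=
      Nat.div_lt_of_lt_mul (by rwa [mul_comm n 2])
    omega
  have hB : n ≤ k + 2 → (k - 1) * min k ((n - k) * (n - k - 1)) < 2 * n ∨ n = 0 := by
    intro h1
    by_cases h0 : n = 0
    · exact Or.inr h0
    left
    have h2 : (n - k) * (n - k - 1) ≤ 2 := by
      have h3 : n - k ≤ 2 := by omega
      have h4 : n - k - 1 ≤ 1 := by omega
      calc (n - k) * (n - k - 1) ≤ 2 * 1 := Nat.mul_le_mul h3 h4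
        _ = 2 := rfl
    have h3 : (k - 1) * min k ((n - k) * (n - k - 1)) ≤ (k - 1) * 2 :=
      Nat.mul_le_mul_left _ ((min_le_right _ _).trans h2)
    omega
  have hC : k * (k - 1) < 2 * n → (k - 1) * min k ((n - k) * (n - k - 1)) < 2 * n := by
    intro h1
    have h2 : (k - 1) * min k ((n - k) * (n - k - 1)) ≤ (k - 1) * k :=
      Nat.mul_le_mul_left _ (min_le_left _ _)
    rw [mul_comm (k - 1) k] at h2
    omega
  have h0 : n = 0 → n - 1 + (k - 1) * min k ((n - k) * (n - k - 1)) / n ≤ q := by
    intro e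
    subst e
    simp
  rcases h with h | h | h | h
  · by_cases h1 : n ≤ k + 2
    · rcases hB h1 with h2 | h2
      · exact key h2
      · exact h0 h2
    · apply key
      apply hC
      have : k = 0 ∨ k = 1 ∨ k = 2 ∨ k = 3 ∨ k = 4 := by omega
      rcases this with rfl | rfl | rfl | rfl | rfl <;> omega
  · rcases hB h with h2 | h2
    · exact key h2
    · exact h0 h2
  · exact key (hC h)
  · exact h

end Pool.Agent.H42.GR
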