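import Mathlib

/-!
Choice of values in a finite field at which a polynomial does not vanish, one variable after the
other; the values of the variables `j` with `fl j` must be distinct.
-/

set_option autoImplicit false

namespace Pool.Agent.H42.GR

open Finset MvPolynomial

/-- the number of flagged variables after `j` -/
def later {m : ℕ} (fl : Fin m → Bool) (j : Fin m) : ℕ :=
  (univ.filter fun l => j < l ∧ fl l = true).card

theorem later_succ {m : ℕ} (fl : Fin (m + 1) → Bool) (j : Fin m) :
    later (fun l => fl l.succ) j = later fl j.succ := by
  classical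
  unfold later
  have h : (univ.filter fun l : Fin (m + 1) => j.succ < l ∧ fl l = true) =
      (univ.filter fun l : Fin m => j < l ∧ fl l.succ = true).map (Fin.succEmb m) := by
    ext l
    rw [mem_map]
    refine Fin.cases ?_ (fun l => ?_) l
    · simp
    · simp [Fin.succ_lt_succ_iff]
  rw [h, card_map]

theorem selb {F : Type*} [Field F] [Fintype F] [DecidableEq F] : ∀ (m : ℕ)
    (fl : Fin m → Bool) (P : MvPolynomial (Fin m) F), P ≠ 0 →
    (∀ j : Fin m, P.degreeOf j + (if fl j = true then later fl j else 0) < Fintype.card F) →
    ∃ s : Fin m → F, (∀ a b, fl a = true → fl b = true → s a = s b → a = b) ∧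
      eval s P ≠ 0 := by
  intro m
  induction m with
  | zero =>
    intro fl P hP _
    refine ⟨Fin.elim0, fun a => a.elim0, ?_⟩
    rw [eq_C_of_isEmpty P] at hP ⊢
    rw [eval_C]
    intro h
    rw [h, C_0] at hP
    exact hP rfl
  | succ m ih =>
    intro fl P hP hd
    set p := finSuccEquiv F m P with hp
    have hp0 : p ≠ 0 := by
      intro h
      apply hP
      exact (finSuccEquiv F m).injective (by rw [← hp, h, map_zero])
    have hc0 : p.coeff p.natDegree ≠ 0 := by
      rw [Polynomial.coeff_natDegree]
      exact Polynomial.leadingCoeff_ne_zero.2 hp0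
    obtain ⟨s, hs1, hs2⟩ := ih (fun l => fl l.succ) (p.coeff p.natDegree) hc0 (by
      intro j
      have h1 := hd j.succ
      have h2 := degreeOf_coeff_finSuccEquiv P j p.natDegree
      rw [← hp] at h2
      rw [later_succ]
      split_ifs at h1 ⊢ <;> omega)
    set g := Polynomial.map (eval s) p with hg
    have hg0 : g ≠ 0 := by
      intro h
      have := congrArg (fun f => Polynomial.coeff f p.natDegree) h
      simp only [hg, Polynomial.coeff_map, Polynomial.coeff_zero] at this
      exact hs2 this
    have hgd : g.natDegree ≤ P.degreeOf 0 := by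
      rw [← natDegree_finSuccEquiv, ← hp]
      exact Polynomial.natDegree_map_le
    set Bd : Finset F := if fl 0 = true then
      image s (univ.filter fun l : Fin m => fl l.succ = true) else ∅ with hBd
    have hcard : (g.roots.toFinset ∪ Bd).card < (univ : Finset F).card := by
      have h1 := card_union_le g.roots.toFinset Bd
      have h2 : g.roots.toFinset.card ≤ g.natDegree :=
        (Multiset.toFinset_card_le _).trans (Polynomial.card_roots' g)
      have h3 : Bd.card ≤ if fl 0 = true then later fl 0 else 0 := by
        rw [hBd]
        split_ifs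
        · refine (card_image_le).trans ?_
          unfold later
          have h : (univ.filter fun l : Fin (m + 1) => 0 < l ∧ fl l = true) =
              (univ.filter fun l : Fin m => fl l.succ = true).map (Fin.succEmb m) := by
            ext l
            rw [mem_map]
            refine Fin.cases ?_ (fun l => ?_) l
            · simp
            · simp
          rw [h, card_map]
        · simp
      have h4 := hd 0
      rw [card_univ]
      omega
    obtain ⟨y, _, hy⟩ := exists_mem_notMem_of_card_lt_card hcard
    rw [mem_union] at hy
    push Not at hy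
    refine ⟨Fin.cons y s, ?_, ?_⟩
    · intro a b
      refine Fin.cases ?_ (fun a => ?_) a <;> refine Fin.cases ?_ (fun b => ?_) b
      · intro _ _ _; rfl
      · intro h0 hb h
        rw [Fin.cons_zero, Fin.cons_succ] at h
        exfalso
        apply hy.2
        rw [hBd, if_pos h0]
        exact mem_image.2 ⟨b, mem_filter.2 ⟨mem_univ _, hb⟩, h.symm⟩
      · intro ha h0 h
        rw [Fin.cons_zero, Fin.cons_succ] at h
        exfalso
        apply hy.2
        rw [hBd, if_pos h0]
        exact mem_image.2 ⟨a, mem_filter.2 ⟨mem_univ _, ha⟩, h⟩
      · intro ha hb h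
        rw [Fin.cons_succ, Fin.cons_succ] at h
        rw [hs1 a b ha hb h]
    · rw [eval_eq_eval_mv_eval', ← hp, ← hg]
      intro h
      apply hy.1
      rw [Multiset.mem_toFinset, Polynomial.mem_roots hg0]
      exact h

/-- the first `m` variables are flagged -/
def fl₀ (m B : ℕ) : Fin (m + B) → Bool := fun j => decide ((j : ℕ) < m)

theorem later_fl₀ {m B : ℕ} (j : Fin m) : later (fl₀ m B) (Fin.castAdd B j) = m - 1 - j := by
  classical
  unfold later fl₀
  have h : (univ.filter fun l : Fin (m + B) => Fin.castAdd B j < l ∧
      decide ((l : ℕ) < m) = true) = (Ioi j).map (Fin.castAddEmb B) := by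
    ext l
    rw [mem_map, mem_filter]
    constructor
    · rintro ⟨_, h1, h2⟩
      have h2' : (l : ℕ) < m := by simpa using h2
      refine ⟨⟨l, h2'⟩, ?_, ?_⟩
      · rw [mem_Ioi]
        exact h1
      · apply Fin.ext; rfl
    · rintro ⟨l', h1, rfl⟩
      rw [mem_Ioi] at h1
      refine ⟨mem_univ _, ?_, ?_⟩
      · exact h1
      · simp
  rw [h, card_map, Fin.card_Ioi]

end Pool.Agent.H42.GR
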