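import Pool.Agent.H42.GR.All
import Pool.Agent.H42.GR.Selb

/-!
MP_aa6dd4_lc, Q1: rows with prescribed zeros and free factors.
-/

set_option autoImplicit false

namespace Pool.Agent.H42.GR

open Finset Polynomial

/-- zeros at `x z`, `z ∈ W`, and free linear factors indexed by `E` -/
noncomputable def rowp {R : Type*} [CommRing R] {m : ℕ} {I : Type*} (x : Fin m → R)
    (W : Finset (Fin m)) (E : Finset I) (γ δ : I → R) : R[X] :=
  gg x W * ∏ z ∈ E, (C (γ z) * X + C (δ z))

theorem rowp_map {R S : Type*} [CommRing R] [CommRing S] (φ : R →+* S) {m : ℕ} {I : Type*}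
    (x : Fin m → R) (W : Finset (Fin m)) (E : Finset I) (γ δ : I → R) :
    (rowp x W E γ δ).map φ = rowp (fun z => φ (x z)) W E (fun z => φ (γ z)) fun z => φ (δ z) := by
  unfold rowp
  rw [Polynomial.map_mul, gg_map, Polynomial.map_prod]
  simp

theorem rowp_natDegree {R : Type*} [CommRing R] [Nontrivial R] {m : ℕ} {I : Type*} (x : Fin m → R)
    (W : Finset (Fin m)) (E : Finset I) (γ δ : I → R) :
    (rowp x W E γ δ).natDegree ≤ W.card + E.card := by
  unfold rowp
  refine natDegree_mul_le.trans (add_le_add (gg_natDegree x W).le ?_)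
  refine (natDegree_prod_le _ _).trans ?_
  refine (sum_le_sum fun z _ => natDegree_linear_le (a := γ z) (b := δ z)).trans ?_
  simp

theorem rowp_eval {R : Type*} [CommRing R] {m : ℕ} {I : Type*} (x : Fin m → R)
    {W : Finset (Fin m)} (E : Finset I) (γ δ : I → R) {z : Fin m} (hz : z ∈ W) :
    (rowp x W E γ δ).eval (x z) = 0 := by
  unfold rowp
  rw [eval_mul, gg_eval, prod_eq_zero hz (sub_self _), zero_mul]

section deg
variable {F : Type*} [Field F] {N : ℕ}

theorem DB_prod {I : Type*} {j : Fin N} (E : Finset I) (c : I → ℕ)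
    (p : I → (MvPolynomial (Fin N) F)[X]) (h : ∀ z ∈ E, DB j (c z) (p z)) :
    DB j (∑ z ∈ E, c z) (∏ z ∈ E, p z) := by
  classical
  induction E using Finset.induction_on with
  | empty =>
    intro l
    rw [prod_empty, sum_empty, coeff_one]
    split_ifs <;> simp [MvPolynomial.degreeOf_one, MvPolynomial.degreeOf_zero]
  | insert a E ha ih =>
    rw [prod_insert ha, sum_insert ha]
    exact (h a (mem_insert_self _ _)).mul (ih fun z hz => h z (mem_insert_of_mem hz))

theorem DB_free (j a b : Fin N) :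
    DB (F := F) j ((if j = a then 1 else 0) + (if j = b then 1 else 0))
      (C (MvPolynomial.X a) * X + C (MvPolynomial.X b)) := by
  intro l
  rw [coeff_add, coeff_C_mul, coeff_X, coeff_C]
  refine le_trans (MvPolynomial.degreeOf_add_le j _ _) (max_le ?_ ?_)
  · refine le_trans ?_ (Nat.le_add_right _ _)
    split_ifs <;> simp_all [MvPolynomial.degreeOf_X, MvPolynomial.degreeOf_zero]
  · refine le_trans ?_ (Nat.le_add_left _ _)
    by_cases hl : l = 0
    · rw [if_pos hl, MvPolynomial.degreeOf_X]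
    · rw [if_neg hl, MvPolynomial.degreeOf_zero]; exact Nat.zero_le _

theorem det_degree {k : ℕ} (M : Matrix (Fin k) (Fin k) (MvPolynomial (Fin N) F)) (j : Fin N)
    (c : Fin k → ℕ) (h : ∀ i l, (M i l).degreeOf j ≤ c i) : M.det.degreeOf j ≤ ∑ i, c i := by
  classical
  rw [Matrix.det_apply']
  refine le_trans (MvPolynomial.degreeOf_sum_le j _ _) (Finset.sup_le fun σ _ => ?_)
  refine le_trans (MvPolynomial.degreeOf_mul_le j _ _) ?_
  have h1 : MvPolynomial.degreeOf j ((((Equiv.Perm.sign σ : ℤˣ) : ℤ) :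
      MvPolynomial (Fin N) F)) = 0 := by
    rcases Int.units_eq_one_or (Equiv.Perm.sign σ) with h | h <;> rw [h]
    · simp [MvPolynomial.degreeOf_one]
    · simp [MvPolynomial.degreeOf_one, MvPolynomial.degreeOf_neg]
  rw [h1, zero_add]
  refine le_trans (MvPolynomial.degreeOf_prod_le j _ _) ?_
  calc ∑ i, MvPolynomial.degreeOf j (M (σ i) i) ≤ ∑ i, c (σ i) := sum_le_sum fun i _ => h _ _
    _ = ∑ i, c i := Equiv.sum_comp σ c

end deg

section big
variable {F : Type*} [Field F] {m k : ℕ}

/-- the number of free coefficients -/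
def BB (m k : ℕ) : ℕ := Fintype.card (Fin k × Fin (m + 1) × Bool)

/-- numbering of the free coefficients -/
noncomputable def ee (m k : ℕ) : (Fin k × Fin (m + 1) × Bool) ≃ Fin (BB m k) :=
  Fintype.equivFin _

/-- the index of a free coefficient -/
noncomputable def fr (i : Fin k) (z : Fin (m + 1)) (ε : Bool) : Fin (m + BB m k) :=
  Fin.natAdd m (ee m k (i, z, ε))

/-- the determinant with free factors -/
noncomputable def PB (F : Type*) [Field F] {m k : ℕ} (Z Z' : Fin k → Finset (Fin (m + 1))) :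
    MvPolynomial (Fin (m + BB m k)) F :=
  (Matrix.of fun i l : Fin k => (rowp (fun z => (MvPolynomial.X (Fin.castAdd (BB m k) z) :
    MvPolynomial (Fin (m + BB m k)) F)) (WW Z i) (Z' i \ Z i)
    (fun z => MvPolynomial.X (fr i z true)) (fun z => MvPolynomial.X (fr i z false))).coeff l).det

theorem PB_map {S : Type*} [CommRing S] (Z Z' : Fin k → Finset (Fin (m + 1)))
    (φ : MvPolynomial (Fin (m + BB m k)) F →+* S) :
    φ (PB F Z Z') = (Matrix.of fun i l : Fin k => (rowp (fun z =>
      φ (MvPolynomial.X (Fin.castAdd (BB m k) z))) (WW Z i) (Z' i \ Z i)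
      (fun z => φ (MvPolynomial.X (fr i z true)))
      (fun z => φ (MvPolynomial.X (fr i z false)))).coeff l).det := by
  unfold PB
  rw [RingHom.map_det]
  congr 1
  ext i l
  simp only [Matrix.of_apply, RingHom.mapMatrix_apply, Matrix.map_apply]
  rw [← coeff_map, rowp_map]

/-- the specialisation of the free factors -/
noncomputable def vv (F : Type*) [Field F] (m k : ℕ) :
    Fin (m + BB m k) → MvPolynomial (Fin m) F :=
  Fin.addCases (fun z => MvPolynomial.X z) (fun b =>
    if ((ee m k).symm b).2.2 = true then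
      Fin.lastCases (motive := fun _ => MvPolynomial (Fin m) F) 0 (fun _ => 1)
        ((ee m k).symm b).2.1
    else Fin.lastCases (motive := fun _ => MvPolynomial (Fin m) F) 1
      (fun z => - MvPolynomial.X z) ((ee m k).symm b).2.1)

theorem spec_row (Z Z' : Fin k → Finset (Fin (m + 1))) (hZZ : ∀ i, Z i ⊆ Z' i) (i : Fin k) :
    rowp (fun z => (MvPolynomial.X z : MvPolynomial (Fin m) F)) (WW Z i) (Z' i \ Z i)
      (fun z => Fin.lastCases (motive := fun _ => MvPolynomial (Fin m) F) 0 (fun _ => 1) z)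
      (fun z => Fin.lastCases (motive := fun _ => MvPolynomial (Fin m) F) 1
        (fun z => - MvPolynomial.X z) z) =
    gg (fun z => (MvPolynomial.X z : MvPolynomial (Fin m) F)) (WW Z' i) := by
  classical
  unfold rowp
  have hsub : WW Z i ⊆ WW Z' i := by
    intro z hz
    rw [WW, mem_filter] at hz ⊢
    exact ⟨mem_univ _, hZZ i hz.2⟩
  have h1 : gg (fun z => (MvPolynomial.X z : MvPolynomial (Fin m) F)) (WW Z' i) =
      gg (fun z => (MvPolynomial.X z : MvPolynomial (Fin m) F)) (WW Z i) *
        ∏ z ∈ WW Z' i \ WW Z i, (X - C (MvPolynomial.X z : MvPolynomial (Fin m) F)) := by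
    unfold gg
    rw [mul_comm, prod_sdiff hsub]
  rw [h1]
  congr 1
  have h2 : ∀ g : Fin (m + 1) → (MvPolynomial (Fin m) F)[X], ∏ z ∈ Z' i \ Z i, g z =
      ∏ z : Fin (m + 1), if z ∈ Z' i \ Z i then g z else 1 := by
    intro g
    rw [← prod_filter]
    congr 1
    ext z; simp
  have h3 : ∏ z ∈ WW Z' i \ WW Z i, (X - C (MvPolynomial.X z : MvPolynomial (Fin m) F)) =
      ∏ z : Fin m, if z ∈ WW Z' i \ WW Z i then
        (X - C (MvPolynomial.X z : MvPolynomial (Fin m) F)) else 1 := by
    rw [← prod_filter]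
    congr 1
    ext z; simp
  rw [h2, h3, Fin.prod_univ_castSucc]
  simp only [Fin.lastCases_last, Fin.lastCases_castSucc, map_zero, zero_mul, zero_add, map_one,
    ite_self, mul_one, one_mul, map_neg]
  apply prod_congr rfl
  intro z _
  have h4 : (z.castSucc ∈ Z' i \ Z i) ↔ (z ∈ WW Z' i \ WW Z i) := by
    rw [mem_sdiff, mem_sdiff, WW, WW, mem_filter, mem_filter]
    simp
  by_cases h5 : z ∈ WW Z' i \ WW Z i
  · rw [if_pos (h4.2 h5), if_pos h5, sub_eq_add_neg]
  · rw [if_neg (fun h => h5 (h4.1 h)), if_neg h5]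

theorem PB_ne_zero (Z Z' : Fin k → Finset (Fin (m + 1))) (hZZ : ∀ i, Z i ⊆ Z' i)
    (hP : PY F (WW Z') ≠ 0) : PB F Z Z' ≠ 0 := by
  intro h0
  apply hP
  have h1 := PB_map (F := F) Z Z' (MvPolynomial.aeval (R := F) (vv F m k) :
    MvPolynomial (Fin (m + BB m k)) F →ₐ[F] MvPolynomial (Fin m) F).toRingHom
  rw [h0, map_zero] at h1
  unfold PY
  rw [h1]
  congr 1
  ext i l
  rw [Matrix.of_apply, Matrix.of_apply, ← spec_row Z Z' hZZ i]
  congr 3
  · funext z
    simp [vv]
  · funext z
    simp [vv, fr]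
  · funext z
    simp [vv, fr]

theorem PB_degree_pt (Z Z' : Fin k → Finset (Fin (m + 1))) (j : Fin m) :
    (PB F Z Z').degreeOf (Fin.castAdd (BB m k) j) ≤
      (univ.filter fun i => j.castSucc ∈ Z i).card := by
  classical
  unfold PB
  refine (det_degree _ _ (fun i => if j.castSucc ∈ Z i then 1 else 0) ?_).trans ?_
  · intro i l
    rw [Matrix.of_apply]
    have h1 : DB (F := F) (Fin.castAdd (BB m k) j) (∑ z ∈ WW Z i,
        if Fin.castAdd (BB m k) j = Fin.castAdd (BB m k) z then 1 else 0)
        (gg (fun z => (MvPolynomial.X (Fin.castAdd (BB m k) z) :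
          MvPolynomial (Fin (m + BB m k)) F)) (WW Z i)) :=
      DB_prod _ _ _ fun z _ => DB_lin _ _
    have h2 : DB (F := F) (Fin.castAdd (BB m k) j) (∑ z ∈ Z' i \ Z i,
        ((if Fin.castAdd (BB m k) j = fr i z true then 1 else 0) +
          (if Fin.castAdd (BB m k) j = fr i z false then 1 else 0)))
        (∏ z ∈ Z' i \ Z i, (C (MvPolynomial.X (fr i z true) :
          MvPolynomial (Fin (m + BB m k)) F) * X + C (MvPolynomial.X (fr i z false)))) :=
      DB_prod _ _ _ fun z _ => DB_free _ _ _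
    refine ((h1.mul h2) l).trans ?_
    have h3 : ∀ z ε, Fin.castAdd (BB m k) j ≠ fr i z ε := by
      intro z ε h
      have := congrArg Fin.val h
      simp only [fr, Fin.val_castAdd, Fin.val_natAdd] at this
      omega
    have h4 : (∑ z ∈ WW Z i, if Fin.castAdd (BB m k) j = Fin.castAdd (BB m k) z then 1 else 0) =
        if j ∈ WW Z i then 1 else 0 := by
      have : ∀ z : Fin m, (Fin.castAdd (BB m k) j = Fin.castAdd (BB m k) z) ↔ j = z := by
        intro z; exact Fin.castAdd_inj
      simp only [this]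
      rw [sum_ite_eq]
    rw [h4]
    simp only [if_neg (h3 _ _), add_zero, sum_const_zero]
    unfold WW
    simp
  · rw [card_filter]

theorem PB_degree_fr (Z Z' : Fin k → Finset (Fin (m + 1))) (b : Fin (BB m k)) :
    (PB F Z Z').degreeOf (Fin.natAdd m b) ≤ 1 := by
  classical
  unfold PB
  refine (det_degree _ _ (fun i => ∑ z : Fin (m + 1), ∑ ε : Bool,
    if b = ee m k (i, z, ε) then 1 else 0) ?_).trans ?_
  · intro i l
    rw [Matrix.of_apply]
    have h1 : DB (F := F) (Fin.natAdd m b) (∑ z ∈ WW Z i,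
        if Fin.natAdd m b = Fin.castAdd (BB m k) z then 1 else 0)
        (gg (fun z => (MvPolynomial.X (Fin.castAdd (BB m k) z) :
          MvPolynomial (Fin (m + BB m k)) F)) (WW Z i)) :=
      DB_prod _ _ _ fun z _ => DB_lin _ _
    have h2 : DB (F := F) (Fin.natAdd m b) (∑ z ∈ Z' i \ Z i,
        ((if Fin.natAdd m b = fr i z true then 1 else 0) +
          (if Fin.natAdd m b = fr i z false then 1 else 0)))
        (∏ z ∈ Z' i \ Z i, (C (MvPolynomial.X (fr i z true) :
          MvPolynomial (Fin (m + BB m k)) F) * X + C (MvPolynomial.X (fr i z false)))) :=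
      DB_prod _ _ _ fun z _ => DB_free _ _ _
    refine ((h1.mul h2) l).trans ?_
    have h3 : ∀ z : Fin m, Fin.natAdd m b ≠ Fin.castAdd (BB m k) z := by
      intro z h
      have := congrArg Fin.val h
      simp only [Fin.val_castAdd, Fin.val_natAdd] at this
      omega
    simp only [if_neg (h3 _), sum_const_zero, zero_add]
    have h4 : ∀ z ε, (Fin.natAdd m b = fr i z ε) ↔ b = ee m k (i, z, ε) := by
      intro z ε
      unfold fr
      exact Fin.natAdd_inj _
    simp only [h4]
    refine (sum_le_sum_of_subset (subset_univ _)).trans (sum_le_sum fun z _ => ?_)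
    rw [Fintype.sum_bool]
  · have h5 : ∑ i : Fin k, ∑ z : Fin (m + 1), ∑ ε : Bool,
        (if b = ee m k (i, z, ε) then 1 else 0) = ∑ t : Fin k × Fin (m + 1) × Bool,
        (if b = ee m k t then 1 else 0) := by
      rw [Fintype.sum_prod_type]
      apply sum_congr rfl
      intro i _
      rw [Fintype.sum_prod_type]
    rw [h5, Equiv.sum_comp (ee m k) (fun b' => if b = b' then 1 else 0)]
    simp

end big

end Pool.Agent.H42.GR
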