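import Pool.Agent.H42.GR.Tri

/-!
MP_aa6dd4_lc, Q1: the bound `n - 1 + (r - 1) ^ 2`, `r = n - k`, and the local condition with the
complements of the sets.
-/

set_option autoImplicit false

namespace Pool.Agent.H42.GR

open Finset Polynomial

variable {F : Type*} [Field F]

theorem codeg_add {n k : ℕ} (Z : Fin k → Finset (Fin n)) (v : Fin n) :
    (univ.filter fun i => v ∈ Z i).card + (univ.filter fun i => v ∉ Z i).card = k := by
  have := card_filter_add_card_filter_not (s := (univ : Finset (Fin k))) (fun i => v ∈ Z i)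
  rwa [card_univ, Fintype.card_fin] at this

theorem red_cod {n k r : ℕ} (hk : 1 ≤ k) (hn : n = k + r) {Z : Fin k → Finset (Fin n)}
    (hc : ∀ i, (Z i).card + 1 = k) (hZ : Pool.Agent.H95.Cond k Z) (v : Fin n) :
    red Z v ≤ ((univ.filter fun i => v ∉ Z i).card - 1) * (r - 1) := by
  have ht : 1 ≤ (univ.filter fun i => v ∉ Z i).card := by
    have h1 := codeg_add Z v
    have := mult_le hk hZ v
    omega
  rcases red_dual hn hc v with h | h
  · rw [h]; exact Nat.zero_le _
  · obtain ⟨b, hb⟩ := Nat.exists_eq_add_of_le ht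
    rw [hb] at h ⊢
    have e1 : 1 + b - 1 = b := by omega
    rw [e1]
    rcases Nat.eq_zero_or_pos r with h0 | hpos
    · subst h0; omega
    · obtain ⟨c, hc'⟩ := Nat.exists_eq_add_of_le hpos
      subst hc'
      have e3 : 1 + c - 1 = c := by omega
      rw [e3]
      nlinarith

/-- the points are ordered by `σ`; the reduced degree of the `t`-th point is at most `q - n + t` -/
theorem concl_red [Fintype F] {n k : ℕ} (hk : 1 ≤ k) (hkn : k ≤ n)
    (hq : n ≤ Fintype.card F) {Z Z' : Fin k → Finset (Fin n)} (h1 : ∀ i, Z i ⊆ Z' i)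
    (h2 : ∀ i, (Z' i).card + 1 = k) (h3 : Pool.Agent.H95.Cond k Z') (σ : Equiv.Perm (Fin n))
    (h : ∀ t : Fin n, (t : ℕ) + 1 < n →
      red Z' (σ t) ≤ Fintype.card F - n + ((t : ℕ) + 1)) : RSConcl F n k Z := by
  classical
  obtain ⟨m, rfl⟩ : ∃ m, n = m + 1 := ⟨n - 1, by omega⟩
  let Zs : Fin k → Finset (Fin (m + 1)) := fun i => (Z' i).map σ.symm.toEmbedding
  have hmem : ∀ i v, v ∈ Zs i ↔ σ v ∈ Z' i := by
    intro i v
    show v ∈ (Z' i).map σ.symm.toEmbedding ↔ _
    rw [mem_map_equiv]
    simp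
  have hcs : ∀ i, (Zs i).card + 1 = k := by
    intro i
    show ((Z' i).map σ.symm.toEmbedding).card + 1 = k
    rw [card_map]
    exact h2 i
  have hZs : Pool.Agent.H95.Cond k Zs := by
    intro Ω hne
    have h4 : Pool.Agent.H95.inter Zs Ω =
        (Pool.Agent.H95.inter Z' Ω).map σ.symm.toEmbedding := by
      ext v
      rw [mem_map_equiv, Pool.Agent.H95.mem_inter_iff', Pool.Agent.H95.mem_inter_iff']
      simp only [hmem]
      simp
    rw [h4, card_map]
    exact h3 Ω hne
  have hredeq : ∀ v, red Zs v = red Z' (σ v) := by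
    intro v
    have e1 : (univ.filter fun i => v ∈ Zs i) = univ.filter fun i => σ v ∈ Z' i := by
      ext i
      simp only [mem_filter, mem_univ, true_and]
      exact hmem i v
    have e2 : (cov Zs v).card = (cov Z' (σ v)).card := by
      have e3 : cov Zs v = (cov Z' (σ v)).map σ.symm.toEmbedding := by
        ext b
        rw [mem_map_equiv]
        unfold cov
        simp only [mem_filter, mem_univ, true_and, hmem, Equiv.symm_symm]
        constructor
        · rintro ⟨g1, g2⟩
          exact ⟨fun e => g1 (σ.injective e), g2⟩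
        · rintro ⟨g1, g2⟩
          exact ⟨fun e => g1 (by rw [e]), g2⟩
      rw [e3, card_map]
    unfold red
    rw [e1, e2]
  have hdeg : ∀ j : Fin m, red Zs j.castSucc + (m - 1 - j) < Fintype.card F := by
    intro j
    rw [hredeq]
    have hj := j.2
    have e2 := h j.castSucc (by rw [Fin.val_castSucc]; omega)
    rw [Fin.val_castSucc] at e2
    omega
  obtain ⟨α, hα, hind⟩ := indep_sorted' hk hcs hZs hq hdeg
  refine concl_of_indep hkn (α := α ∘ σ.symm) (hα.comp σ.symm.injective) h1 h2 ?_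
  have h5 : (fun i => ff (α ∘ σ.symm) (Z' i)) = fun i => ff α (Zs i) := by
    funext i
    show ff (α ∘ σ.symm) (Z' i) = ff α ((Z' i).map σ.symm.toEmbedding)
    unfold ff
    rw [prod_map]
    rfl
  rw [h5]
  exact hind

/-- the local condition with the number of sets that do not contain the point -/
theorem concl_order_cod [Fintype F] {n k : ℕ} (hk : 1 ≤ k) (hkn : k ≤ n)
    (hq : n ≤ Fintype.card F) {Z : Fin k → Finset (Fin n)} (σ : Equiv.Perm (Fin n))
    (h : ∀ t : Fin n, (t : ℕ) + 1 < n →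
      (n - k - 1) * (k - 1 - (univ.filter fun i => σ t ∈ Z i).card) ≤
        Fintype.card F - n + ((t : ℕ) + 1))
    (hZ : Pool.Agent.H95.Cond k Z) : RSConcl F n k Z := by
  classical
  obtain ⟨Z', h1, h2, h3⟩ := Pool.Agent.H95.exists_extend (k := k)
    (by rw [Fintype.card_fin]; omega) _ Z hZ rfl
  refine concl_red hk hkn hq h1 h2 h3 σ ?_
  intro t ht
  refine le_trans (red_cod hk (r := n - k) (by omega) h2 h3 (σ t)) (le_trans ?_ (h t ht))
  rw [mul_comm]
  apply Nat.mul_le_mul_left
  have e1 := codeg_add Z' (σ t)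
  have e2 : (univ.filter fun i => σ t ∈ Z i).card ≤ (univ.filter fun i => σ t ∈ Z' i).card := by
    apply card_le_card
    intro i hi
    exact mem_filter.2 ⟨mem_univ _, h1 i (mem_filter.1 hi).2⟩
  omega

/-- the bound `n - 1 + (r - 1) ^ 2` -/
theorem concl_cod [Fintype F] {n k : ℕ} (hk : 1 ≤ k) (hkn : k ≤ n)
    (hq : n ≤ Fintype.card F) (h : n - 1 + (n - k - 1) ^ 2 ≤ Fintype.card F)
    {Z : Fin k → Finset (Fin n)} (hZ : Pool.Agent.H95.Cond k Z) : RSConcl F n k Z := by
  classical
  obtain ⟨Z', h1, h2, h3⟩ := Pool.Agent.H95.exists_extend (k := k)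
    (by rw [Fintype.card_fin]; omega) _ Z hZ rfl
  obtain ⟨r, hr⟩ : ∃ r, n = k + r := ⟨n - k, by omega⟩
  have hrr : n - k - 1 = r - 1 := by omega
  rw [hrr] at h
  set d : Fin n → ℕ := red Z' with hd
  set σ := Tuple.sort d with hσ
  have hmono : Monotone (d ∘ σ) := Tuple.monotone_sort d
  refine concl_red hk hkn hq h1 h2 h3 σ ?_
  intro t ht
  show d (σ t) ≤ _
  have hge : ∀ u ∈ Ici t, d (σ t) ≤ d (σ u) := fun u hu => hmono (mem_Ici.1 hu)
  have hcard : (Ici t).card = n - t := Fin.card_Ici t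
  have hdk : d (σ t) ≤ k - 1 := red_le hk h3 _
  have htn := t.2
  rcases Nat.eq_zero_or_pos r with h0 | hpos
  · -- no codimension: the reduced degree is zero
    have e1 := red_cod hk hr h2 h3 (σ t)
    rw [h0] at e1
    have e2 : d (σ t) ≤ 0 := by simpa using e1
    omega
  obtain ⟨a, rfl⟩ : ∃ a, r = 1 + a := ⟨r - 1, by omega⟩
  have ea : 1 + a - 1 = a := by omega
  rw [ea] at h
  by_cases htr : (t : ℕ) + 1 ≤ 1 + a
  · -- at least `r` points have at most `r` sets in the complements
    have key : d (σ t) ≤ a ^ 2 := by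
      by_contra hcon
      push Not at hcon
      have e1 : ∀ u ∈ Ici t, 1 + a + 1 ≤ (univ.filter fun i => σ u ∉ Z' i).card := by
        intro u hu
        have e2 := hge u hu
        have e3 := red_cod hk hr h2 h3 (σ u)
        rw [ea] at e3
        have e4 : a ^ 2 < ((univ.filter fun i => σ u ∉ Z' i).card - 1) * a := by
          refine lt_of_lt_of_le hcon (e2.trans e3)
        by_contra e5
        push Not at e5
        have e6 : (univ.filter fun i => σ u ∉ Z' i).card - 1 ≤ a := by omega
        have e7 := Nat.mul_le_mul_right a e6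
        rw [pow_two] at e4
        omega
      have e2 : ∑ u ∈ Ici t, (1 + a + 1) ≤
          ∑ u ∈ Ici t, (univ.filter fun i => σ u ∉ Z' i).card := sum_le_sum e1
      have e3 : ∑ u ∈ Ici t, (univ.filter fun i => σ u ∉ Z' i).card ≤
          ∑ u, (univ.filter fun i => σ u ∉ Z' i).card :=
        sum_le_sum_of_subset (subset_univ _)
      have e4 : ∑ u, (univ.filter fun i => σ u ∉ Z' i).card =
          ∑ u, (univ.filter fun i => u ∉ Z' i).card :=
        Equiv.sum_comp σ fun u => (univ.filter fun i => u ∉ Z' i).card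
      rw [sum_const, smul_eq_mul, hcard] at e2
      rw [tdeg_sum hr h2] at e4
      have e5 : k + 1 ≤ n - t := by omega
      have e6 := Nat.mul_le_mul_right (1 + a + 1) e5
      have e7 : (k + 1) * (1 + a + 1) = k * (1 + a + 1) + (1 + a + 1) := by ring
      omega
    omega
  · -- the sum of all reduced degrees
    push Not at htr
    have e1 : ∑ u ∈ Ici t, d (σ t) ≤ ∑ u ∈ Ici t, d (σ u) := sum_le_sum hge
    have e2 : ∑ u ∈ Ici t, d (σ u) ≤ ∑ u, d (σ u) := sum_le_sum_of_subset (subset_univ _)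
    have e3 : ∑ u, d (σ u) = ∑ u, d u := Equiv.sum_comp σ d
    have e4 := red_sum hk hr h2 h3
    rw [ea] at e4
    rw [sum_const, smul_eq_mul, hcard] at e1
    have e5 : (k - 1) * min k ((1 + a) * a) ≤ (k - 1) * ((1 + a) * a) :=
      Nat.mul_le_mul_left _ (min_le_right _ _)
    have e6 : (n - t) * d (σ t) ≤ (k - 1) * ((1 + a) * a) := by
      calc (n - t) * d (σ t) ≤ ∑ u, d (σ u) := e1.trans e2
        _ = ∑ u, d u := e3
        _ ≤ _ := e4.trans e5
    obtain ⟨b, rfl⟩ := Nat.exists_eq_add_of_le hk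
    have eb : 1 + b - 1 = b := by omega
    rw [eb] at e6 hdk
    set D := d (σ t) with hD
    generalize hy : n - (t : ℕ) = y at e6
    have hyb : y ≤ 1 + b := by omega
    have e7 : (1 + a) * a = a ^ 2 + a := by ring
    rw [e7] at e6
    by_contra hcon
    push Not at hcon
    -- `D ≥ r ^ 2 - r + 2 + k - y`
    have e8 : a ^ 2 + a + 2 + (1 + b) ≤ D + y := by omega
    obtain ⟨w, hw⟩ := Nat.exists_eq_add_of_le hyb
    have e9 : a ^ 2 + a + 2 + w ≤ D := by omega
    have e10 : a ^ 2 + a + 3 ≤ y := by omega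
    have e11 : b = y + w - 1 := by omega
    obtain ⟨c, hc⟩ := Nat.exists_eq_add_of_le e10
    have e12 : b = a ^ 2 + a + 2 + c + w := by omega
    rw [hc, e12] at e6
    have e13 : (a ^ 2 + a + 3 + c) * (a ^ 2 + a + 2 + w) ≤
        (a ^ 2 + a + 3 + c) * D := Nat.mul_le_mul_left _ e9
    have e14 := e13.trans e6
    generalize a ^ 2 + a = R at e14
    have e15 : (R + 3 + c) * (R + 2 + w) =
        (R + 2 + c + w) * R + (3 * R + 6 + 3 * w + 2 * c + c * w) := by ring
    rw [e15] at e14
    omega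

end Pool.Agent.H42.GR
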