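import Pool.Agent.H42.GR.Inv

/-!
MP_aa6dd4_lc, Q1: the determinant is divisible by the differences of the points of every pair
that meets all the sets `Z i`.
-/

set_option autoImplicit false

namespace Pool.Agent.H42.GR

open Finset MvPolynomial

variable {F : Type*} [Field F] {m : ℕ}

/-- substitution of the variable `b` for the variable `a` -/
noncomputable def sb (F : Type*) [Field F] {m : ℕ} (a b : Fin m) :
    MvPolynomial (Fin m) F →ₐ[F] MvPolynomial (Fin m) F :=
  aeval (fun i => if i = a then X b else X i)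

theorem sb_X (a b i : Fin m) : sb F a b (X i) = if i = a then X b else X i := by
  simp [sb]

theorem dvd_sub_sb (a b : Fin m) (p : MvPolynomial (Fin m) F) :
    (X a - X b : MvPolynomial (Fin m) F) ∣ p - sb F a b p := by
  induction p using MvPolynomial.induction_on with
  | C c => simp [sb]
  | add p q hp hq =>
    have : p + q - sb F a b (p + q) = (p - sb F a b p) + (q - sb F a b q) := by
      rw [map_add]; ring
    rw [this]; exact dvd_add hp hq
  | mul_X p i hp =>
    by_cases h : i = a
    · subst h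
      have : p * X i - sb F i b (p * X i) = (p - sb F i b p) * X i + sb F i b p * (X i - X b) := by
        rw [map_mul, sb_X, if_pos rfl]; ring
      rw [this]
      exact dvd_add (Dvd.dvd.mul_right hp _) (Dvd.intro_left _ rfl)
    · rw [map_mul, sb_X, if_neg h, ← sub_mul]
      exact Dvd.dvd.mul_right hp _

theorem dvd_of_sb {a b : Fin m} {p : MvPolynomial (Fin m) F} (h : sb F a b p = 0) :
    (X a - X b : MvPolynomial (Fin m) F) ∣ p := by
  have := dvd_sub_sb a b p
  rwa [h, sub_zero] at this

theorem X_sub_ne {a b : Fin m} (h : a ≠ b) : (X a - X b : MvPolynomial (Fin m) F) ≠ 0 :=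
  sub_ne_zero.2 fun e => h (X_injective e)

theorem sb_diff_ne {a b c d : Fin m} (hab : a < b) (hcd : c < d) (hne : (c, d) ≠ (a, b)) :
    sb F a b (X c - X d) ≠ 0 := by
  rw [map_sub, sb_X, sb_X]
  by_cases h1 : c = a
  · subst h1
    have h2 : d ≠ c := hcd.ne'
    rw [if_pos rfl, if_neg h2]
    apply X_sub_ne
    rintro rfl
    exact hne rfl
  · rw [if_neg h1]
    by_cases h2 : d = a
    · subst h2
      rw [if_pos rfl]
      exact X_sub_ne (hcd.trans hab).ne
    · rw [if_neg h2]
      exact X_sub_ne hcd.ne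

/-- division by all the differences -/
theorem divide {P : MvPolynomial (Fin m) F} (T : Finset (Fin m × Fin m))
    (hT : ∀ x ∈ T, x.1 < x.2) (hP : ∀ x ∈ T, sb F x.1 x.2 P = 0) :
    ∃ P₀ : MvPolynomial (Fin m) F, P = P₀ * ∏ x ∈ T, (X x.1 - X x.2) := by
  classical
  induction T using Finset.induction_on with
  | empty => exact ⟨P, by simp⟩
  | insert a T ha ih =>
    obtain ⟨P₁, h1⟩ := ih (fun x hx => hT x (mem_insert_of_mem hx))
      (fun x hx => hP x (mem_insert_of_mem hx))
    have h2 := hP a (mem_insert_self _ _)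
    rw [h1, map_mul, map_prod] at h2
    have h3 : ∏ x ∈ T, sb F a.1 a.2 (X x.1 - X x.2) ≠ 0 := by
      refine prod_ne_zero_iff.2 fun x hx => ?_
      apply sb_diff_ne (hT a (mem_insert_self _ _)) (hT x (mem_insert_of_mem hx))
      intro e
      have e' : x = a := Prod.ext (congrArg Prod.fst e) (congrArg Prod.snd e)
      exact ha (e' ▸ hx)
    obtain ⟨P₀, h4⟩ := dvd_of_sb ((mul_eq_zero.1 h2).resolve_right h3)
    refine ⟨P₀, ?_⟩
    rw [prod_insert ha, h1, h4]
    ring

/-- the determinant vanishes when two points that meet all the sets coincide -/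
theorem sb_PY {k : ℕ} (hk : 1 ≤ k) {W : Fin k → Finset (Fin m)} (hW : ∀ i, (W i).card < k)
    {a b : Fin m} (h : ∀ i, a ∈ W i ∨ b ∈ W i) : sb F a b (PY F W) = 0 := by
  have h1 := PY_map (F := F) (K := FractionRing (MvPolynomial (Fin m) F)) W
    ((algebraMap (MvPolynomial (Fin m) F) (FractionRing (MvPolynomial (Fin m) F))).comp
      (sb F a b).toRingHom)
  have hinj : Function.Injective (algebraMap (MvPolynomial (Fin m) F)
      (FractionRing (MvPolynomial (Fin m) F))) := IsFractionRing.injective _ _
  apply hinj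
  rw [map_zero]
  have h2 : (algebraMap (MvPolynomial (Fin m) F) (FractionRing (MvPolynomial (Fin m) F)))
      (sb F a b (PY F W)) = ((algebraMap (MvPolynomial (Fin m) F)
        (FractionRing (MvPolynomial (Fin m) F))).comp (sb F a b).toRingHom) (PY F W) := rfl
  rw [h2, h1]
  set x : Fin m → FractionRing (MvPolynomial (Fin m) F) := fun z =>
    ((algebraMap (MvPolynomial (Fin m) F) (FractionRing (MvPolynomial (Fin m) F))).comp
      (sb F a b).toRingHom) (X z) with hx
  have hxab : x a = x b := by
    simp only [hx, RingHom.comp_apply, AlgHom.toRingHom_eq_coe, RingHom.coe_coe, sb_X]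
    simp
  rw [← Matrix.exists_mulVec_eq_zero_iff]
  refine ⟨fun l => x a ^ (l : ℕ), ?_, ?_⟩
  · intro h0
    have := congrFun h0 ⟨0, hk⟩
    simp at this
  · funext i
    have hroot : (gg x (W i)).eval (x a) = 0 := by
      rw [gg_eval]
      rcases h i with hi | hi
      · exact prod_eq_zero hi (sub_self _)
      · rw [hxab]; exact prod_eq_zero hi (sub_self _)
    rw [Polynomial.eval_eq_sum_range' (n := k) (by rw [gg_natDegree]; exact hW i)] at hroot
    simp only [Matrix.mulVec, dotProduct, Matrix.of_apply, Pi.zero_apply]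
    rw [← hroot]
    exact Fin.sum_univ_eq_sum_range (fun l => (gg x (W i)).coeff l * x a ^ l) k

/-! ### degrees -/

/-- the ordered pairs of points that meet all the sets -/
noncomputable def TT {k : ℕ} (W : Fin k → Finset (Fin m)) : Finset (Fin m × Fin m) := by
  classical
  exact univ.filter fun x => x.1 < x.2 ∧ ∀ i, x.1 ∈ W i ∨ x.2 ∈ W i

/-- the points that meet all the sets together with `j` -/
noncomputable def Nb {k : ℕ} (W : Fin k → Finset (Fin m)) (j : Fin m) : Finset (Fin m) := by
  classical
  exact univ.filter fun b => b ≠ j ∧ ∀ i, j ∈ W i ∨ b ∈ W i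

theorem degreeOf_diff {j c d : Fin m} (hcd : c ≠ d) (h : j = c ∨ j = d) :
    1 ≤ (X c - X d : MvPolynomial (Fin m) F).degreeOf j := by
  classical
  by_contra hlt
  have h0 : (X c - X d : MvPolynomial (Fin m) F).degreeOf j = 0 := by omega
  have h1 : (X c : MvPolynomial (Fin m) F).degreeOf j ≤ max
      ((X c - X d : MvPolynomial (Fin m) F).degreeOf j) ((X d : MvPolynomial (Fin m) F).degreeOf j) := by
    have := degreeOf_add_le j (X c - X d : MvPolynomial (Fin m) F) (X d)
    rwa [sub_add_cancel] at this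
  have h2 : (X d : MvPolynomial (Fin m) F).degreeOf j ≤ max
      ((X c : MvPolynomial (Fin m) F).degreeOf j) ((X c - X d : MvPolynomial (Fin m) F).degreeOf j) := by
    have := degreeOf_sub_le j (X c : MvPolynomial (Fin m) F) (X c - X d)
    rwa [sub_sub_cancel] at this
  rw [h0, degreeOf_X, degreeOf_X] at h1 h2
  rcases h with rfl | rfl
  · rw [if_pos rfl, if_neg hcd] at h1
    simp at h1
  · rw [if_pos rfl, if_neg hcd.symm] at h2
    simp at h2

/-- the quotient has small degrees -/
theorem quotient {k : ℕ} (hk : 1 ≤ k) {W : Fin k → Finset (Fin m)} (hW : ∀ i, (W i).card < k)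
    (hP : PY F W ≠ 0) : ∃ P₀ : MvPolynomial (Fin m) F, P₀ ≠ 0 ∧
      (∀ s : Fin m → F, Function.Injective s → eval s P₀ ≠ 0 → eval s (PY F W) ≠ 0) ∧
      ∀ j, P₀.degreeOf j + (Nb W j).card ≤ (PY F W).degreeOf j := by
  classical
  obtain ⟨P₀, h0⟩ := divide (F := F) (P := PY F W) (TT W) (fun x hx => (mem_filter.1 hx).2.1)
    (fun x hx => sb_PY (F := F) hk hW (mem_filter.1 hx).2.2)
  have hP0 : P₀ ≠ 0 := by
    rintro rfl
    rw [zero_mul] at h0
    exact hP h0
  have hne : ∀ x ∈ TT W, (X x.1 - X x.2 : MvPolynomial (Fin m) F) ≠ 0 := fun x hx =>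
    X_sub_ne (mem_filter.1 hx).2.1.ne
  refine ⟨P₀, hP0, ?_, ?_⟩
  · intro s hs h1
    rw [h0, map_mul, map_prod]
    refine mul_ne_zero h1 (prod_ne_zero_iff.2 fun x hx => ?_)
    rw [map_sub, eval_X, eval_X, sub_ne_zero]
    exact fun e => (mem_filter.1 hx).2.1.ne (hs e)
  · intro j
    have h1 : (PY F W).degreeOf j = P₀.degreeOf j +
        ∑ x ∈ TT W, (X x.1 - X x.2 : MvPolynomial (Fin m) F).degreeOf j := by
      conv_lhs => rw [h0]
      rw [degreeOf_mul_eq hP0 (prod_ne_zero_iff.2 hne), degreeOf_prod_eq _ _ hne]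
    rw [h1]
    apply Nat.add_le_add_left
    -- the pair of `j` and `b`
    let f : Fin m → Fin m × Fin m := fun b => if j < b then (j, b) else (b, j)
    have hf : ∀ b ∈ Nb W j, f b ∈ (TT W).filter fun x => j = x.1 ∨ j = x.2 := by
      intro b hb
      obtain ⟨-, hb1, hb2⟩ := mem_filter.1 hb
      rw [mem_filter]
      by_cases h2 : j < b
      · simp only [f, if_pos h2]
        exact ⟨mem_filter.2 ⟨mem_univ _, h2, hb2⟩, Or.inl trivial⟩
      · simp only [f, if_neg h2]
        refine ⟨mem_filter.2 ⟨mem_univ _, lt_of_le_of_ne (not_lt.1 h2) hb1, fun i => ?_⟩,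
          Or.inr trivial⟩
        exact (hb2 i).symm
    have hinj : Set.InjOn f (Nb W j) := by
      intro b hb b' hb' h2
      have hb1 := (mem_filter.1 (mem_coe.1 hb)).2.1
      have hb1' := (mem_filter.1 (mem_coe.1 hb')).2.1
      simp only [f] at h2
      split_ifs at h2 <;> rw [Prod.mk.injEq] at h2
      · exact h2.2
      · exact absurd h2.2 hb1
      · exact absurd h2.1 hb1
      · exact h2.1
    have h3 := card_le_card_of_injOn f hf hinj
    refine h3.trans ?_
    rw [card_eq_sum_ones, sum_filter]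
    apply sum_le_sum
    intro x hx
    split_ifs with h4
    · exact degreeOf_diff (mem_filter.1 hx).2.1.ne h4
    · exact Nat.zero_le _

/-- one degree less if a point meets all the sets together with the point at infinity -/
theorem PY_degree' {k : ℕ} (hk : 1 ≤ k) {W : Fin k → Finset (Fin m)} {τ : Fin k → ℕ}
    (hW : ∀ i, (W i).card + τ i + 1 = k) {j : Fin m} (h : ∀ i, j ∈ W i ∨ τ i ≠ 0) :
    (PY F W).degreeOf j + 1 ≤ (univ.filter fun i => j ∈ W i).card ∨ PY F W = 0 := by
  classical
  by_cases hP : PY F W = 0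
  · exact Or.inr hP
  left
  obtain ⟨l, rfl⟩ := Nat.exists_eq_add_of_le' hk
  have hpos : 1 ≤ (univ.filter fun i => j ∈ W i).card := by
    by_contra hcon
    apply hP
    unfold PY
    apply Matrix.det_eq_zero_of_column_eq_zero (Fin.last l)
    intro i
    rw [Matrix.of_apply]
    have hj : j ∉ W i := by
      intro hj
      apply hcon
      exact card_pos.2 ⟨i, mem_filter.2 ⟨mem_univ _, hj⟩⟩
    apply Polynomial.coeff_eq_zero_of_natDegree_lt
    rw [gg_natDegree, Fin.val_last]
    have h1 := hW i
    have h2 := (h i).resolve_left hj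
    omega
  suffices (PY F W).degreeOf j ≤ (univ.filter fun i => j ∈ W i).card - 1 by omega
  unfold PY
  rw [Matrix.det_apply']
  refine le_trans (degreeOf_sum_le j _ _) (Finset.sup_le fun σ _ => ?_)
  refine le_trans (degreeOf_mul_le j _ _) ?_
  have h1 : degreeOf j ((((Equiv.Perm.sign σ : ℤˣ) : ℤ) : MvPolynomial (Fin m) F)) = 0 := by
    rcases Int.units_eq_one_or (Equiv.Perm.sign σ) with h | h <;> rw [h]
    · simp [degreeOf_one]
    · simp [degreeOf_one, degreeOf_neg]
  rw [h1, zero_add]
  by_cases hz : τ (σ (Fin.last l)) ≠ 0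
  · have h2 : ∏ i, Matrix.of (fun i l' : Fin (l + 1) => (gg (fun z =>
        (X z : MvPolynomial (Fin m) F)) (W i)).coeff l') (σ i) i = 0 := by
      apply prod_eq_zero (mem_univ (Fin.last l))
      rw [Matrix.of_apply]
      apply Polynomial.coeff_eq_zero_of_natDegree_lt
      rw [gg_natDegree, Fin.val_last]
      have := hW (σ (Fin.last l))
      omega
    rw [h2, degreeOf_zero]
    exact Nat.zero_le _
  · push Not at hz
    have hj : j ∈ W (σ (Fin.last l)) := (h (σ (Fin.last l))).resolve_right (by rw [hz]; simp)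
    refine le_trans (degreeOf_prod_le j _ _) ?_
    rw [← add_sum_erase _ _ (mem_univ (Fin.last l))]
    have h2 : degreeOf j (Matrix.of (fun i l' : Fin (l + 1) => (gg (fun z =>
        (X z : MvPolynomial (Fin m) F)) (W i)).coeff l') (σ (Fin.last l)) (Fin.last l)) = 0 := by
      rw [Matrix.of_apply]
      have h3 : (gg (fun z => (X z : MvPolynomial (Fin m) F)) (W (σ (Fin.last l)))).coeff
          ((Fin.last l : Fin (l + 1)) : ℕ) = 1 := by
        have h4 : (gg (fun z => (X z : MvPolynomial (Fin m) F)) (W (σ (Fin.last l)))).natDegree =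
            ((Fin.last l : Fin (l + 1)) : ℕ) := by
          rw [gg_natDegree, Fin.val_last]
          have := hW (σ (Fin.last l))
          omega
        rw [← h4]
        exact (gg_monic _ _).coeff_natDegree
      rw [h3, degreeOf_one]
    rw [h2, zero_add]
    have h5 : ∑ i ∈ univ.erase (Fin.last l), degreeOf j (Matrix.of (fun i l' : Fin (l + 1) =>
        (gg (fun z => (X z : MvPolynomial (Fin m) F)) (W i)).coeff l') (σ i) i) ≤
        ∑ i ∈ univ.erase (Fin.last l), (if j ∈ W (σ i) then 1 else 0) :=
      sum_le_sum fun i _ => DB_gg j (W (σ i)) i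
    refine h5.trans ?_
    have h6 : ∑ i, (if j ∈ W (σ i) then 1 else 0) = (univ.filter fun i => j ∈ W i).card := by
      rw [Equiv.sum_comp σ (fun i => if j ∈ W i then 1 else 0), card_filter]
    rw [← add_sum_erase _ _ (mem_univ (Fin.last l)), if_pos hj] at h6
    omega

end Pool.Agent.H42.GR
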