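import Pool.Agent.H42.GR.Fin
import Pool.Agent.H42.GR.Fac

/-!
MP_aa6dd4_lc, Q1 for every prime power
`q >= max (n, n - 1 + [(k - 1) min (k, r (r - 1)) / n])`, `r = n - k`.
-/

set_option autoImplicit false

namespace Pool.Agent.H42.GR

open Finset Polynomial

variable {F : Type*} [Field F]

/-- the points that meet all the sets together with `v` -/
def cov {n k : ℕ} (Z : Fin k → Finset (Fin n)) (v : Fin n) : Finset (Fin n) :=
  univ.filter fun b => b ≠ v ∧ ∀ i, v ∈ Z i ∨ b ∈ Z i

/-- the reduced degree of a point -/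
def red {n k : ℕ} (Z : Fin k → Finset (Fin n)) (v : Fin n) : ℕ :=
  (univ.filter fun i => v ∈ Z i).card - (cov Z v).card

theorem indep_sorted' [Fintype F] {m k : ℕ} (hk : 1 ≤ k) {Z : Fin k → Finset (Fin (m + 1))}
    (hc : ∀ i, (Z i).card + 1 = k) (hZ : Pool.Agent.H95.Cond k Z)
    (hm : m + 1 ≤ Fintype.card F)
    (hd : ∀ j : Fin m, red Z j.castSucc + (m - 1 - j) < Fintype.card F) :
    ∃ α : Fin (m + 1) → F, Function.Injective α ∧ LinearIndependent F fun i => ff α (Z i) := by
  classical
  have hW : ∀ i, (WW Z i).card + tt Z i + 1 = k := fun i => by rw [WW_card]; exact hc i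
  have hP : PY F (WW Z) ≠ 0 := PY_ne_zero hW (good_of_cond hc hZ)
  obtain ⟨P₀, hP0, hev, hq⟩ := quotient (F := F) hk (fun i => by have := hW i; omega) hP
  have hred : ∀ j : Fin m, P₀.degreeOf j ≤ red Z j.castSucc := by
    intro j
    have e1 : (univ.filter fun i => j ∈ WW Z i) = univ.filter fun i => j.castSucc ∈ Z i := by
      ext i; simp [WW]
    have h1 := PY_degree (F := F) (WW Z) j
    have h2 := hq j
    rw [e1] at h1
    -- the points of `cov` other than the last one
    have h3 : ((cov Z j.castSucc).erase (Fin.last m)).card ≤ (Nb (WW Z) j).card := by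
      have h4 : (cov Z j.castSucc).erase (Fin.last m) ⊆ (Nb (WW Z) j).map Fin.castSuccEmb := by
        intro b hb
        rw [mem_erase] at hb
        obtain ⟨hbl, hb⟩ := hb
        obtain ⟨-, hb1, hb2⟩ := mem_filter.1 hb
        obtain ⟨b', rfl⟩ := Fin.exists_castSucc_eq.2 hbl
        rw [mem_map]
        refine ⟨b', ?_, rfl⟩
        unfold Nb
        rw [mem_filter]
        refine ⟨mem_univ _, fun e => hb1 (by rw [e]), fun i => ?_⟩
        simpa [WW] using hb2 i
      have h5 := card_le_card h4
      rwa [card_map] at h5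
    unfold red
    by_cases hl : Fin.last m ∈ cov Z j.castSucc
    · have h4 := card_erase_add_one hl
      have h5 := (PY_degree' (F := F) hk hW (j := j) (by
        intro i
        have := (mem_filter.1 hl).2.2 i
        rcases this with h | h
        · left; simpa [WW] using h
        · right; unfold tt; rw [if_pos h]; exact one_ne_zero)).resolve_right hP
      rw [e1] at h5
      omega
    · rw [erase_eq_of_notMem hl] at h3
      omega
  obtain ⟨s, hs, hP0s⟩ := sel m P₀ hP0 (by
    intro j
    have h1 := hred j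
    have := hd j
    omega)
  have hPs := hev s hs hP0s
  obtain ⟨β, hβ⟩ : ∃ β : F, ∀ z, s z ≠ β := by
    have h1 : (image s univ).card < (univ : Finset F).card := by
      have := card_image_le (s := (univ : Finset (Fin m))) (f := s)
      rw [card_univ, Fintype.card_fin] at this
      rw [card_univ]
      omega
    obtain ⟨β, _, hβ⟩ := exists_mem_notMem_of_card_lt_card h1
    exact ⟨β, fun z e => hβ (mem_image.2 ⟨z, mem_univ _, e⟩)⟩
  refine ⟨Fin.snoc (α := fun _ => F) (fun z => (s z - β)⁻¹) 0, ?_, ?_⟩
  · intro a b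
    refine Fin.lastCases ?_ (fun a => ?_) a <;> refine Fin.lastCases ?_ (fun b => ?_) b
    · intro _; rfl
    · intro h
      rw [Fin.snoc_last, Fin.snoc_castSucc] at h
      exact absurd h.symm (inv_ne_zero (sub_ne_zero.2 (hβ b)))
    · intro h
      rw [Fin.snoc_last, Fin.snoc_castSucc] at h
      exact absurd h (inv_ne_zero (sub_ne_zero.2 (hβ a)))
    · intro h
      rw [Fin.snoc_castSucc, Fin.snoc_castSucc] at h
      have h1 := inv_injective h
      have h2 : s a = s b := by linear_combination h1
      rw [hs h2]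
  · rw [Fintype.linearIndependent_iff]
    intro μ hμ
    let K := AlgebraicClosure F
    let φ := algebraMap F K
    have h1 := PY_map (F := F) (WW Z) (φ.comp (MvPolynomial.eval s))
    have h2 : (φ.comp (MvPolynomial.eval s)) (PY F (WW Z)) ≠ 0 := by
      rw [RingHom.comp_apply]
      exact (map_ne_zero φ).2 hPs
    rw [h1] at h2
    have hdeg : ∀ i, (gg (fun z => (φ.comp (MvPolynomial.eval s)) (MvPolynomial.X z))
        (WW Z i)).degree < (k : ℕ) := fun i => gg_degree_lt _ (by have := hW i; omega)
    have h3 := (det_ne_iff hdeg).1 h2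
    have h4 : (fun z => (φ.comp (MvPolynomial.eval s)) (MvPolynomial.X z)) = fun z => φ (s z) := by
      funext z; simp
    rw [h4] at h3
    have h5 := inv_inf hW (s := fun z => φ (s z)) (β := φ β)
      (fun z e => hβ z (φ.injective e)) h3 (fun i => φ (μ i)) (by
        have h6 := congrArg (Polynomial.map φ) hμ
        rw [Polynomial.map_zero, Polynomial.map_sum] at h6
        rw [← h6]
        apply sum_congr rfl
        intro i _
        rw [Polynomial.map_smul, ff_split, Polynomial.map_mul, Polynomial.map_pow,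
          Polynomial.map_X, gg_map, smul_eq_C_mul]
        simp)
    intro i
    have h6 := congrFun h5 i
    exact (map_eq_zero φ).1 h6

/-- the arithmetic of the bound -/
theorem numeric' {n k q t d t₀ : ℕ} (hk : 1 ≤ k) (hkn : k ≤ n) (hq : n ≤ q)
    (h : n - 1 + (k - 1) * t₀ / n ≤ q) (ht₀ : t₀ ≤ k)
    (hd : d ≤ k - 1) (ht : 1 ≤ t) (htn : t ≤ n) (htd : t * d ≤ (k - 1) * t₀) :
    d + t ≤ q + 1 := by
  obtain ⟨r, rfl⟩ := Nat.exists_eq_add_of_le hkn
  obtain ⟨a, rfl⟩ := Nat.exists_eq_add_of_le hk
  have e0 : 1 + a - 1 = a := by omega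
  rw [e0] at h hd htd
  set D := a * t₀ / (1 + a + r) with hD
  have h3 : a * t₀ < (1 + a + r) * (D + 1) := by
    have := Nat.lt_mul_div_succ (a * t₀) (b := 1 + a + r) (by omega)
    rwa [← hD] at this
  have h4 : D * (1 + a + r) ≤ a * t₀ := Nat.div_mul_le_self _ _
  by_cases htt : t ≤ t₀
  · by_cases hr : t₀ ≤ r + 2
    · omega
    · have h5 : t₀ - 1 - r ≤ D := by
        rw [hD, Nat.le_div_iff_mul_le (by omega)]
        obtain ⟨b, hb⟩ := Nat.exists_eq_add_of_le (not_le.1 hr).le
        have e1 : t₀ - 1 - r = b + 1 := by omega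
        rw [e1]
        have e2 : t₀ = r + 2 + b := hb
        subst e2
        obtain ⟨c, hc⟩ := Nat.exists_eq_add_of_le ht₀
        have e3 : a = r + 1 + b + c := by omega
        subst e3
        nlinarith
      omega
  · push Not at htt
    by_contra hcon
    push Not at hcon
    have h5 : D + 1 ≤ t := by
      by_contra h6
      push Not at h6
      have h7 : t₀ + 1 ≤ D := by omega
      have h8 : (t₀ + 1) * (1 + a + r) ≤ D * (1 + a + r) := Nat.mul_le_mul_right _ h7
      nlinarith
    obtain ⟨c, hc⟩ := Nat.exists_eq_add_of_le htn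
    obtain ⟨b, hb⟩ := Nat.exists_eq_add_of_le h5
    have h6 : c + D + 1 ≤ d := by omega
    have h7 : t * (c + D + 1) ≤ t * d := Nat.mul_le_mul_left _ h6
    rw [hc] at h3
    rw [hb] at h3 h7 htd
    nlinarith

end Pool.Agent.H42.GR
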