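import Pool.Agent.H42.GR.All

/-!
MP_aa6dd4_lc, Q1: sorting of the points and the final statement.
-/

set_option autoImplicit false

namespace Pool.Agent.H42.GR

open Finset Polynomial

variable {F : Type*} [Field F]

theorem two_k {n k q : ℕ} (hk : 1 ≤ k) (hkn : k ≤ n) (h : n - 1 + k * (k - 1) / n ≤ q) :
    2 * k - 2 ≤ q := by
  refine le_trans ?_ h
  obtain ⟨a, rfl⟩ := Nat.exists_eq_add_of_le hk
  obtain ⟨s, rfl⟩ := Nat.exists_eq_add_of_le hkn
  have e1 : 1 + a - 1 = a := by omega
  rw [e1]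
  by_cases hs : a ≤ s
  · generalize (1 + a) * a / (1 + a + s) = X
    omega
  · obtain ⟨r, hr⟩ := Nat.exists_eq_add_of_le (not_le.1 hs).le
    have h1 : a - s ≤ (1 + a) * a / (1 + a + s) := by
      rw [Nat.le_div_iff_mul_le (by omega)]
      subst hr
      have : s + r - s = r := by omega
      rw [this]
      nlinarith
    generalize (1 + a) * a / (1 + a + s) = X at h1 ⊢
    omega

theorem numeric {n k q t d : ℕ} (hk : 1 ≤ k) (hkn : k ≤ n) (h : n - 1 + k * (k - 1) / n ≤ q)
    (hd : d ≤ k - 1) (ht : 1 ≤ t) (htn : t ≤ n) (htd : t * d ≤ k * (k - 1)) :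
    d + t ≤ q + 1 := by
  have h2 := two_k hk hkn h
  by_cases htk : t ≤ k
  · omega
  · push Not at htk
    set D := k * (k - 1) / n with hD
    have h3 : k * (k - 1) < n * (D + 1) := by
      have := Nat.lt_mul_div_succ (k * (k - 1)) (b := n) (by omega)
      rwa [← hD] at this
    have h4 : D * n ≤ k * (k - 1) := Nat.div_mul_le_self _ _
    by_contra hcon
    push Not at hcon
    have h5 : D + 1 ≤ t := by
      by_contra h6
      push Not at h6
      have h7 : k + 1 ≤ D := by omega
      have h8 : (k + 1) * k ≤ D * n := Nat.mul_le_mul h7 hkn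
      have h9 : k * (k - 1) < (k + 1) * k := by
        have : k * (k - 1) ≤ k * k := Nat.mul_le_mul_left _ (by omega)
        nlinarith
      omega
    obtain ⟨a, ha⟩ := Nat.exists_eq_add_of_le htn
    obtain ⟨b, hb⟩ := Nat.exists_eq_add_of_le h5
    have h6 : a + D + 1 ≤ d := by omega
    have h7 : t * (a + D + 1) ≤ t * d := Nat.mul_le_mul_left _ h6
    rw [ha] at h3
    rw [hb] at h3 h7 htd
    nlinarith

theorem mult_le {n k : ℕ} (hk : 1 ≤ k) {Z : Fin k → Finset (Fin n)}
    (hZ : Pool.Agent.H95.Cond k Z) (v : Fin n) : (univ.filter fun i => v ∈ Z i).card ≤ k - 1 := by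
  classical
  rcases (univ.filter fun i => v ∈ Z i).eq_empty_or_nonempty with he | hne
  · rw [he]; simp
  · have h1 := hZ _ hne
    have h2 : v ∈ Pool.Agent.H95.inter Z (univ.filter fun i => v ∈ Z i) := by
      rw [Pool.Agent.H95.mem_inter_iff']
      intro i hi
      exact (mem_filter.1 hi).2
    have h3 := card_pos.2 ⟨v, h2⟩
    omega

theorem mult_sum {n k : ℕ} {Z : Fin k → Finset (Fin n)} (hc : ∀ i, (Z i).card + 1 = k) :
    ∑ v : Fin n, (univ.filter fun i => v ∈ Z i).card = k * (k - 1) := by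
  classical
  have h1 : ∑ v ∈ (univ : Finset (Fin n)), ((univ : Finset (Fin k)).filter fun i => v ∈ Z i).card =
      ∑ i ∈ (univ : Finset (Fin k)), ((univ : Finset (Fin n)).filter fun v => v ∈ Z i).card :=
    sum_card_bipartiteAbove_eq_sum_card_bipartiteBelow (fun v i => v ∈ Z i)
  rw [h1]
  have h2 : ∀ i ∈ (univ : Finset (Fin k)), ((univ : Finset (Fin n)).filter fun v => v ∈ Z i).card =
      k - 1 := by
    intro i _
    have h3 : ((univ : Finset (Fin n)).filter fun v => v ∈ Z i) = Z i := by ext v; simp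
    rw [h3]
    have := hc i
    omega
  rw [sum_congr rfl h2, sum_const, card_univ, Fintype.card_fin, smul_eq_mul]

theorem concl_general [Fintype F] {n k : ℕ} (hk : 1 ≤ k) (hkn : k ≤ n)
    (hq : n ≤ Fintype.card F) (h : n - 1 + k * (k - 1) / n ≤ Fintype.card F)
    {Z : Fin k → Finset (Fin n)} (hZ : Pool.Agent.H95.Cond k Z) : RSConcl F n k Z := by
  classical
  obtain ⟨Z', h1, h2, h3⟩ := Pool.Agent.H95.exists_extend (k := k)
    (by rw [Fintype.card_fin]; omega) _ Z hZ rfl
  obtain ⟨m, rfl⟩ : ∃ m, n = m + 1 := ⟨n - 1, by omega⟩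
  set d : Fin (m + 1) → ℕ := fun v => (univ.filter fun i => v ∈ Z' i).card with hd
  set σ := Tuple.sort d with hσ
  have hmono : Monotone (d ∘ σ) := Tuple.monotone_sort d
  let Zs : Fin k → Finset (Fin (m + 1)) := fun i => (Z' i).map σ.symm.toEmbedding
  have hmem : ∀ i v, v ∈ Zs i ↔ σ v ∈ Z' i := by
    intro i v
    show v ∈ (Z' i).map σ.symm.toEmbedding ↔ _
    rw [mem_map_equiv]
    simp
  have hcs : ∀ i, (Zs i).card + 1 = k := by
    intro i
    show ((Z' i).map σ.symm.toEmbedding).card + 1 = k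
    rw [card_map]
    exact h2 i
  have hZs : Pool.Agent.H95.Cond k Zs := by
    intro Ω hne
    have h4 : Pool.Agent.H95.inter Zs Ω =
        (Pool.Agent.H95.inter Z' Ω).map σ.symm.toEmbedding := by
      ext v
      rw [mem_map_equiv, Pool.Agent.H95.mem_inter_iff', Pool.Agent.H95.mem_inter_iff']
      simp only [hmem]
      simp
    rw [h4, card_map]
    exact h3 Ω hne
  have hdeg : ∀ j : Fin m, (univ.filter fun i => j.castSucc ∈ Zs i).card + (m - 1 - j) <
      Fintype.card F := by
    intro j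
    have e1 : (univ.filter fun i => j.castSucc ∈ Zs i).card = d (σ j.castSucc) := by
      rw [hd]
      congr 1
      ext i
      simp only [mem_filter, mem_univ, true_and]
      exact hmem i _
    rw [e1]
    have e2 : d (σ j.castSucc) ≤ k - 1 := mult_le hk h3 _
    have e3 : (m + 1 - j) * d (σ j.castSucc) ≤ k * (k - 1) := by
      have e4 : ∑ v ∈ Ici j.castSucc, d (σ j.castSucc) ≤ ∑ v ∈ Ici j.castSucc, d (σ v) :=
        sum_le_sum fun v hv => hmono (mem_Ici.1 hv)
      rw [sum_const, smul_eq_mul, Fin.card_Ici, Fin.val_castSucc] at e4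
      refine e4.trans ?_
      calc ∑ v ∈ Ici j.castSucc, d (σ v) ≤ ∑ v, d (σ v) :=
            sum_le_sum_of_subset (subset_univ _)
        _ = ∑ v, d v := Equiv.sum_comp σ d
        _ = k * (k - 1) := mult_sum h2
    have hj := j.2
    have e5 := numeric (t := m + 1 - j) hk hkn h e2 (by omega) (by omega) e3
    omega
  obtain ⟨α, hα, hind⟩ := indep_sorted hcs hZs hq hdeg
  refine concl_of_indep hkn (α := α ∘ σ.symm) (hα.comp σ.symm.injective) h1 h2 ?_
  have h5 : (fun i => ff (α ∘ σ.symm) (Z' i)) = fun i => ff α (Zs i) := by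
    funext i
    show ff (α ∘ σ.symm) (Z' i) = ff α ((Z' i).map σ.symm.toEmbedding)
    unfold ff
    rw [prod_map]
    rfl
  rw [h5]
  exact hind

end Pool.Agent.H42.GR
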