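import Mathlib

/-!
Choice of distinct values in a finite field at which a polynomial does not vanish, one variable
after the other.
-/

set_option autoImplicit false

namespace Pool.Agent.H42.GR

open Finset MvPolynomial

theorem sel {F : Type*} [Field F] [Fintype F] [DecidableEq F] : ∀ (m : ℕ)
    (P : MvPolynomial (Fin m) F), P ≠ 0 →
    (∀ j : Fin m, P.degreeOf j + (m - 1 - j) < Fintype.card F) →
    ∃ s : Fin m → F, Function.Injective s ∧ eval s P ≠ 0 := by
  intro m
  induction m with
  | zero =>
    intro P hP _
    refine ⟨Fin.elim0, fun a => a.elim0, ?_⟩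
    rw [eq_C_of_isEmpty P] at hP ⊢
    rw [eval_C]
    intro h
    rw [h, C_0] at hP
    exact hP rfl
  | succ m ih =>
    intro P hP hd
    set p := finSuccEquiv F m P with hp
    have hp0 : p ≠ 0 := by
      intro h
      apply hP
      exact (finSuccEquiv F m).injective (by rw [← hp, h, map_zero])
    have hc0 : p.coeff p.natDegree ≠ 0 := by
      rw [Polynomial.coeff_natDegree]
      exact Polynomial.leadingCoeff_ne_zero.2 hp0
    obtain ⟨s, hs1, hs2⟩ := ih (p.coeff p.natDegree) hc0 (by
      intro j
      have h1 := hd j.succ
      have h2 := degreeOf_coeff_finSuccEquiv P j p.natDegree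
      rw [← hp] at h2
      rw [Fin.val_succ] at h1
      omega)
    set g := Polynomial.map (eval s) p with hg
    have hg0 : g ≠ 0 := by
      intro h
      have := congrArg (fun f => Polynomial.coeff f p.natDegree) h
      simp only [hg, Polynomial.coeff_map, Polynomial.coeff_zero] at this
      exact hs2 this
    have hgd : g.natDegree ≤ P.degreeOf 0 := by
      rw [← natDegree_finSuccEquiv, ← hp]
      exact Polynomial.natDegree_map_le
    have hcard : (g.roots.toFinset ∪ image s univ).card < (univ : Finset F).card := by
      have h1 := card_union_le g.roots.toFinset (image s univ)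
      have h2 : g.roots.toFinset.card ≤ g.natDegree :=
        (Multiset.toFinset_card_le _).trans (Polynomial.card_roots' g)
      have h3 : (image s univ).card ≤ m := by
        have := card_image_le (s := (univ : Finset (Fin m))) (f := s)
        rwa [card_univ, Fintype.card_fin] at this
      have h4 := hd 0
      rw [card_univ]
      simp only [Fin.val_zero] at h4
      omega
    obtain ⟨y, _, hy⟩ := exists_mem_notMem_of_card_lt_card hcard
    rw [mem_union] at hy
    push Not at hy
    refine ⟨Fin.cons y s, ?_, ?_⟩
    · rw [Fin.cons_injective_iff]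
      refine ⟨?_, hs1⟩
      rintro ⟨i, hi⟩
      exact hy.2 (mem_image.2 ⟨i, mem_univ _, hi⟩)
    · rw [eval_eq_eval_mv_eval', ← hp, ← hg]
      intro h
      apply hy.1
      rw [Multiset.mem_toFinset, Polynomial.mem_roots hg0]
      exact h

end Pool.Agent.H42.GR
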