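import Pool.Agent.H42.GR.Rs
import Pool.Agent.H42.GR.Sel
import Pool.Agent.H95.Generic

/-!
MP_aa6dd4_lc, Q1: the determinant of the generic configuration with one point at infinity.
-/

set_option autoImplicit false

namespace Pool.Agent.H42.GR

open Finset Polynomial

section det
variable {R : Type*} [CommRing R] [IsDomain R]

theorem coeff_sum_zero {k : ℕ} {f : Fin k → R[X]} (hf : ∀ i, (f i).degree < (k : ℕ))
    (μ : Fin k → R) : (∑ i, C (μ i) * f i = 0) ↔
      Matrix.vecMul μ (Matrix.of fun i l : Fin k => (f i).coeff l) = 0 := by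
  constructor
  · intro h
    funext l
    have := congrArg (fun g => g.coeff (l : ℕ)) h
    simp only [finsetSum_coeff, coeff_C_mul, coeff_zero] at this
    simpa [Matrix.vecMul, dotProduct] using this
  · intro h
    ext l
    rw [finsetSum_coeff, coeff_zero]
    simp only [coeff_C_mul]
    by_cases hl : l < k
    · have := congrFun h ⟨l, hl⟩
      simpa [Matrix.vecMul, dotProduct] using this
    · apply sum_eq_zero
      intro i _
      rw [coeff_eq_zero_of_degree_lt (lt_of_lt_of_le (hf i) (by exact_mod_cast not_lt.1 hl)),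
        mul_zero]

theorem det_ne_iff {k : ℕ} {f : Fin k → R[X]} (hf : ∀ i, (f i).degree < (k : ℕ)) :
    (Matrix.of fun i l : Fin k => (f i).coeff l).det ≠ 0 ↔
      ∀ μ : Fin k → R, ∑ i, C (μ i) * f i = 0 → μ = 0 := by
  constructor
  · intro hd μ hμ
    exact Matrix.eq_zero_of_vecMul_eq_zero hd ((coeff_sum_zero hf μ).1 hμ)
  · intro h hd
    obtain ⟨v, hv, hv0⟩ := Matrix.exists_vecMul_eq_zero_iff.2 hd
    exact hv (h v ((coeff_sum_zero hf v).2 hv0))

end det

/-- the product of the linear factors, over any commutative ring -/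
noncomputable def gg {R : Type*} [CommRing R] {m : ℕ} (x : Fin m → R) (W : Finset (Fin m)) :
    R[X] := ∏ z ∈ W, (X - C (x z))

theorem gg_monic {R : Type*} [CommRing R] {m : ℕ} (x : Fin m → R) (W : Finset (Fin m)) :
    (gg x W).Monic := monic_prod_of_monic _ _ fun z _ => monic_X_sub_C (x z)

theorem gg_natDegree {R : Type*} [CommRing R] [Nontrivial R] {m : ℕ} (x : Fin m → R)
    (W : Finset (Fin m)) : (gg x W).natDegree = W.card := by
  unfold gg
  rw [natDegree_prod_of_monic _ _ fun z _ => monic_X_sub_C (x z)]
  simp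

theorem gg_map {R S : Type*} [CommRing R] [CommRing S] (φ : R →+* S) {m : ℕ} (x : Fin m → R)
    (W : Finset (Fin m)) : (gg x W).map φ = gg (fun z => φ (x z)) W := by
  unfold gg
  rw [Polynomial.map_prod]
  simp

theorem gg_degree_lt {R : Type*} [CommRing R] [Nontrivial R] {m k : ℕ} (x : Fin m → R)
    {W : Finset (Fin m)} (h : W.card < k) : (gg x W).degree < (k : ℕ) := by
  rw [degree_eq_natDegree (gg_monic x W).ne_zero, gg_natDegree]
  exact_mod_cast h

/-- the generic configuration with one point at zero -/
theorem generic_zero {K : Type*} [Field K] [Infinite K] {m k : ℕ} {W : Fin k → Finset (Fin m)}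
    {τ : Fin k → ℕ} (hW : ∀ i, (W i).card + τ i + 1 = k)
    (hG : Pool.Agent.H95.Good k univ W τ) :
    ∃ x : Fin m → K, (∀ z, x z ≠ 0) ∧
      ∀ μ : Fin k → K, ∑ i, C (μ i) * (X ^ τ i * gg x (W i)) = 0 → μ = 0 := by
  classical
  set R := MvPolynomial (Fin m) K with hR
  let x₀ : Fin m → R := fun z => MvPolynomial.X z
  let H : Fin k → R[X] := fun i => X ^ τ i * gg x₀ (W i)
  have hmon : ∀ i, (H i).Monic := fun i => (monic_X_pow _).mul (gg_monic x₀ (W i))
  have hnat : ∀ i, (H i).natDegree = k - 1 := by
    intro i
    show (X ^ τ i * gg x₀ (W i)).natDegree = k - 1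
    rw [(monic_X_pow _).natDegree_mul (gg_monic x₀ (W i)), natDegree_X_pow, gg_natDegree]
    have := hW i
    omega
  have hdeg : ∀ i, (H i).degree < (k : ℕ) := by
    intro i
    rw [degree_eq_natDegree (hmon i).ne_zero, hnat i]
    have := hW i
    exact_mod_cast (by omega : k - 1 < k)
  have hdet : (Matrix.of fun i l : Fin k => (H i).coeff l).det ≠ 0 := by
    rw [det_ne_iff hdeg]
    intro v hv
    have hsol : Pool.Agent.H95.Sol k id univ W τ (fun i l => v i * (H i).coeff l) := by
      refine ⟨?_, ?_, ?_⟩
      · intro i _ l hl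
        rcases hl with hl | hl
        · have : (H i).coeff l = 0 := by
            show (X ^ τ i * gg x₀ (W i)).coeff l = 0
            rw [coeff_X_pow_mul', if_neg (by omega)]
          rw [this, mul_zero]
        · rw [coeff_eq_zero_of_degree_lt (lt_of_lt_of_le (hdeg i) (by exact_mod_cast hl)),
            mul_zero]
      · intro i _ z hz
        have h1 : (H i).eval (x₀ z) = 0 := by
          show (X ^ τ i * gg x₀ (W i)).eval (x₀ z) = 0
          rw [eval_mul]
          unfold gg
          rw [eval_prod, prod_eq_zero hz (by simp), mul_zero]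
        rw [eval_eq_sum_range' (n := k) (by rw [hnat i]; have := hW i; omega)] at h1
        have h2 : ∑ l ∈ range k, v i * (H i).coeff l * MvPolynomial.X z ^ (id l) =
            v i * ∑ l ∈ range k, (H i).coeff l * x₀ z ^ l := by
          rw [mul_sum]
          apply sum_congr rfl
          intro l _
          simp only [id, x₀]
          ring
        rw [h2, h1, mul_zero]
      · intro l
        have := congrArg (fun g => g.coeff l) hv
        simpa only [finsetSum_coeff, coeff_C_mul, coeff_zero] using this
    have h0 := Pool.Agent.H95.generic_independence (F := K) strictMono_id _ univ W τ le_rfl hG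
      _ hsol
    funext i
    have h1 := h0 i (mem_univ _) (k - 1)
    have h2 : (H i).coeff (k - 1) = 1 := by
      rw [← hnat i]; exact (hmon i).coeff_natDegree
    rw [h2, mul_one] at h1
    exact h1
  have hQ : (Matrix.of fun i l : Fin k => (H i).coeff l).det * ∏ z : Fin m, MvPolynomial.X z ≠ 0 :=
    mul_ne_zero hdet (prod_ne_zero_iff.2 fun z _ => MvPolynomial.X_ne_zero z)
  obtain ⟨x, hx⟩ : ∃ x : Fin m → K, MvPolynomial.eval x
      ((Matrix.of fun i l : Fin k => (H i).coeff l).det * ∏ z : Fin m, MvPolynomial.X z) ≠ 0 := by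
    by_contra hcon
    push Not at hcon
    exact hQ (MvPolynomial.funext fun x => by rw [hcon x, map_zero])
  rw [map_mul, map_prod] at hx
  have hx1 := left_ne_zero_of_mul hx
  have hx2 := right_ne_zero_of_mul hx
  refine ⟨x, fun z => ?_, ?_⟩
  · have := prod_ne_zero_iff.1 hx2 z (mem_univ _)
    simpa using this
  · have hdeg' : ∀ i, (X ^ τ i * gg x (W i) : K[X]).degree < (k : ℕ) := by
      intro i
      have hm : (X ^ τ i * gg x (W i) : K[X]).Monic := (monic_X_pow _).mul (gg_monic x (W i))
      rw [degree_eq_natDegree hm.ne_zero, (monic_X_pow _).natDegree_mul (gg_monic x (W i)),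
        natDegree_X_pow, gg_natDegree]
      have := hW i
      exact_mod_cast (by omega : τ i + (W i).card < k)
    rw [← det_ne_iff hdeg']
    rw [RingHom.map_det] at hx1
    convert hx1 using 2
    ext i l
    simp only [Matrix.of_apply, RingHom.mapMatrix_apply, Matrix.map_apply]
    rw [← coeff_map]
    congr 1
    show X ^ τ i * gg x (W i) = (X ^ τ i * gg x₀ (W i)).map (MvPolynomial.eval x)
    rw [Polynomial.map_mul, gg_map]
    simp [x₀]

end Pool.Agent.H42.GR
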