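import Pool.Agent.H42.GR.Bas

/-!
MP_aa6dd4_lc, Q1 in codimension two: the combinatorial reduction (a point lies in at most two
triples, and two triples through a point can be replaced by one).
-/

set_option autoImplicit false

namespace Pool.Agent.H42.GR

open Finset

variable {V I : Type*} [DecidableEq V] [DecidableEq I]

set_option linter.unusedSectionVars false

/-- the union of the triples of `Ω` -/
def US (S : I → V × V × V) (Ω : Finset I) : Finset V := Ω.biUnion fun i => tset (S i)

/-- every nonempty set of triples of `J` covers at least two points more than its size -/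
def HC (S : I → V × V × V) (J : Finset I) : Prop :=
  ∀ Ω : Finset I, Ω ⊆ J → Ω.Nonempty → Ω.card + 2 ≤ (US S Ω).card

theorem US_union (S : I → V × V × V) (Ω Ω' : Finset I) :
    US S (Ω ∪ Ω') = US S Ω ∪ US S Ω' := by
  unfold US
  exact union_biUnion

theorem US_mono (S : I → V × V × V) {Ω Ω' : Finset I} (h : Ω ⊆ Ω') : US S Ω ⊆ US S Ω' :=
  biUnion_subset_biUnion_of_subset_left _ h

theorem US_insert (S : I → V × V × V) (i : I) (Ω : Finset I) :
    US S (insert i Ω) = tset (S i) ∪ US S Ω := by
  unfold US
  exact biUnion_insert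

theorem HC.mono {S : I → V × V × V} {J J' : Finset I} (h : HC S J) (hJ : J' ⊆ J) : HC S J' :=
  fun Ω hΩ hne => h Ω (hΩ.trans hJ) hne

theorem HC.three {S : I → V × V × V} {J : Finset I} (h : HC S J) {i : I} (hi : i ∈ J) :
    3 ≤ (tset (S i)).card := by
  have := h {i} (by simpa using hi) (singleton_nonempty i)
  simpa [US] using this

/-- two tight sets whose unions share two points have a tight union -/
theorem tight_union {S : I → V × V × V} {J : Finset I} (h : HC S J) {Ω Ω' : Finset I}
    (hJ : Ω ⊆ J) (hJ' : Ω' ⊆ J) (hne : Ω.Nonempty) (ht : (US S Ω).card = Ω.card + 2)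
    (ht' : (US S Ω').card = Ω'.card + 2) {a b : V} (hab : a ≠ b) (ha : a ∈ US S Ω)
    (hb : b ∈ US S Ω) (ha' : a ∈ US S Ω') (hb' : b ∈ US S Ω') :
    (US S (Ω ∪ Ω')).card = (Ω ∪ Ω').card + 2 := by
  have h1 := h (Ω ∪ Ω') (union_subset hJ hJ') (hne.mono subset_union_left)
  have h2 := card_union_add_card_inter Ω Ω'
  have h3 := card_union_add_card_inter (US S Ω) (US S Ω')
  rw [← US_union] at h3
  rcases (Ω ∩ Ω').eq_empty_or_nonempty with he | hi
  · rw [he, card_empty] at h2
    have h4 : 2 ≤ (US S Ω ∩ US S Ω').card := by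
      have : ({a, b} : Finset V) ⊆ US S Ω ∩ US S Ω' := by
        intro v hv
        rw [mem_insert, mem_singleton] at hv
        rcases hv with rfl | rfl
        · exact mem_inter.2 ⟨ha, ha'⟩
        · exact mem_inter.2 ⟨hb, hb'⟩
      have h5 := card_le_card this
      rwa [card_pair hab] at h5
    omega
  · have h4 := h (Ω ∩ Ω') (inter_subset_left.trans hJ) hi
    have h5 : US S (Ω ∩ Ω') ⊆ US S Ω ∩ US S Ω' :=
      subset_inter (US_mono S inter_subset_left) (US_mono S inter_subset_right)
    have h6 := card_le_card h5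
    omega

/-- a point in one or two triples -/
theorem exists_low {S : I → V × V × V} {J : Finset I} {A : Finset V} (h : HC S J)
    (hA : ∀ i ∈ J, tset (S i) ⊆ A) (hc : J.card + 2 = A.card) (hne : J.Nonempty) :
    ∃ j ∈ A, 1 ≤ (J.filter fun i => j ∈ tset (S i)).card ∧
      (J.filter fun i => j ∈ tset (S i)).card ≤ 2 := by
  by_contra hcon
  push Not at hcon
  have hU : US S J = A := by
    apply eq_of_subset_of_card_le
    · intro v hv
      obtain ⟨i, hi, hv⟩ := mem_biUnion.1 hv
      exact hA i hi hv
    · have := h J (Subset.refl _) hne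
      omega
  have h3 : ∀ j ∈ A, 3 ≤ (J.filter fun i => j ∈ tset (S i)).card := by
    intro j hj
    have h1 : 1 ≤ (J.filter fun i => j ∈ tset (S i)).card := by
      rw [← hU] at hj
      obtain ⟨i, hi, hv⟩ := mem_biUnion.1 hj
      exact card_pos.2 ⟨i, mem_filter.2 ⟨hi, hv⟩⟩
    exact hcon j hj h1
  have h4 : ∑ j ∈ A, (J.filter fun i => j ∈ tset (S i)).card =
      ∑ i ∈ J, (A.filter fun j => j ∈ tset (S i)).card :=
    sum_card_bipartiteAbove_eq_sum_card_bipartiteBelow (fun j i => j ∈ tset (S i))
  have h5 : ∑ i ∈ J, (A.filter fun j => j ∈ tset (S i)).card ≤ ∑ i ∈ J, 3 := by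
    apply sum_le_sum
    intro i _
    refine le_trans (card_le_card ?_) (tset_card_le (S i))
    intro v hv
    exact (mem_filter.1 hv).2
  have h6 : ∑ j ∈ A, 3 ≤ ∑ j ∈ A, (J.filter fun i => j ∈ tset (S i)).card := sum_le_sum h3
  rw [sum_const, smul_eq_mul] at h5 h6
  omega

/-- two triples through a point of degree two can be replaced by one -/
theorem replace {S : I → V × V × V} {J : Finset I} (h : HC S J) {i₁ i₂ : I} (h1 : i₁ ∈ J)
    (h2 : i₂ ∈ J) (hne : i₁ ≠ i₂) {j a b c d : V} (hS1 : tset (S i₁) = tset (j, a, b))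
    (hS2 : tset (S i₂) = tset (j, c, d)) :
    ∃ x, (x = c ∨ x = d) ∧ HC (Function.update S i₁ (a, b, x)) (J.erase i₂) := by
  have c1 : 3 ≤ (tset (j, a, b)).card := hS1 ▸ h.three h1
  obtain ⟨hja, hjb, hab⟩ := distinct_of_card c1
  set R := (J.erase i₂).erase i₁ with hR
  have hRJ : R ⊆ J := (erase_subset _ _).trans (erase_subset _ _)
  have hR1 : i₁ ∉ R := notMem_erase _ _
  have hR2 : i₂ ∉ R := fun hh => (notMem_erase i₂ J) (mem_of_mem_erase hh)
  -- no tight set contains the four points
  have four : ∀ Ω : Finset I, Ω ⊆ R → (US S Ω).card = Ω.card + 2 → a ∈ US S Ω → b ∈ US S Ω →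
      c ∈ US S Ω → d ∈ US S Ω → False := by
    intro Ω hΩ ht ha hb hc hd
    have hi2 : i₂ ∉ Ω := fun hh => hR2 (hΩ hh)
    have hi1 : i₁ ∉ insert i₂ Ω := by
      rw [mem_insert]; push Not
      exact ⟨hne, fun hh => hR1 (hΩ hh)⟩
    have h3 := h (insert i₁ (insert i₂ Ω)) (by
      intro i hi
      rw [mem_insert, mem_insert] at hi
      rcases hi with rfl | rfl | hi
      · exact h1
      · exact h2
      · exact hRJ (hΩ hi)) (insert_nonempty _ _)
    rw [card_insert_of_notMem hi1, card_insert_of_notMem hi2] at h3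
    have h4 : US S (insert i₁ (insert i₂ Ω)) ⊆ insert j (US S Ω) := by
      rw [US_insert, US_insert, hS1, hS2]
      intro v hv
      rw [mem_union, mem_union, mem_tset, mem_tset] at hv
      rw [mem_insert]
      simp only at hv
      rcases hv with (rfl | rfl | rfl) | (rfl | rfl | rfl) | hv
      · exact Or.inl rfl
      · exact Or.inr ha
      · exact Or.inr hb
      · exact Or.inl rfl
      · exact Or.inr hc
      · exact Or.inr hd
      · exact Or.inr hv
    have h5 := card_le_card h4
    have h6 := card_insert_le j (US S Ω)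
    omega
  -- a good point exists
  have good : ∃ x, (x = c ∨ x = d) ∧ x ≠ a ∧ x ≠ b ∧ ∀ Ω : Finset I, Ω ⊆ R → Ω.Nonempty →
      (US S Ω).card = Ω.card + 2 → a ∈ US S Ω → b ∈ US S Ω → x ∈ US S Ω → False := by
    by_contra hcon
    push Not at hcon
    have hx : ∀ x, (x = c ∨ x = d) → (x = a ∨ x = b) ∨ ∃ Ω : Finset I, Ω ⊆ R ∧ Ω.Nonempty ∧
        (US S Ω).card = Ω.card + 2 ∧ a ∈ US S Ω ∧ b ∈ US S Ω ∧ x ∈ US S Ω := by
      intro x hx
      by_cases e1 : x = a
      · exact Or.inl (Or.inl e1)
      by_cases e2 : x = b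
      · exact Or.inl (Or.inr e2)
      obtain ⟨Ω, g1, g2, g3, g4, g5, g6⟩ := hcon x hx e1 e2
      exact Or.inr ⟨Ω, g1, g2, g3, g4, g5, g6.1⟩
    rcases hx c (Or.inl rfl) with hc | ⟨Ω, g1, g2, g3, g4, g5, g6⟩
    · rcases hx d (Or.inr rfl) with hd | ⟨Ω', k1, k2, k3, k4, k5, k6⟩
      · -- both in `{a, b}`
        have h3 := h {i₁, i₂} (by
          intro i hi
          rw [mem_insert, mem_singleton] at hi
          rcases hi with rfl | rfl
          · exact h1
          · exact h2) (insert_nonempty _ _)
        rw [card_pair hne] at h3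
        have h4 : US S {i₁, i₂} ⊆ tset (j, a, b) := by
          intro v hv
          obtain ⟨i, hi, hv'⟩ := mem_biUnion.1 hv
          rw [mem_insert, mem_singleton] at hi
          rcases hi with rfl | rfl
          · rwa [hS1] at hv'
          · rw [hS2, mem_tset] at hv'
            rw [mem_tset]
            simp only at hv' ⊢
            rcases hv' with rfl | rfl | rfl
            · exact Or.inl rfl
            · exact Or.inr hc
            · exact Or.inr hd
        have h5 := card_le_card h4
        have h6 := tset_card_le (j, a, b)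
        omega
      · refine four Ω' k1 k3 k4 k5 ?_ k6
        rcases hc with rfl | rfl
        · exact k4
        · exact k5
    · rcases hx d (Or.inr rfl) with hd | ⟨Ω', k1, k2, k3, k4, k5, k6⟩
      · refine four Ω g1 g3 g4 g5 g6 ?_
        rcases hd with rfl | rfl
        · exact g4
        · exact g5
      · have ht := tight_union (h.mono hRJ) g1 k1 g2 g3 k3 hab g4 g5 k4 k5
        refine four (Ω ∪ Ω') (union_subset g1 k1) ht ?_ ?_ ?_ ?_ <;> rw [US_union]
        · exact mem_union_left _ g4
        · exact mem_union_left _ g5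
        · exact mem_union_left _ g6
        · exact mem_union_right _ k6
  obtain ⟨x, hxcd, hxa, hxb, hx⟩ := good
  refine ⟨x, hxcd, ?_⟩
  intro Ω hΩ hne'
  by_cases hi : i₁ ∈ Ω
  · have e1 : US (Function.update S i₁ (a, b, x)) Ω = tset (a, b, x) ∪ US S (Ω.erase i₁) := by
      conv_lhs => rw [← insert_erase hi]
      rw [US_insert, Function.update_self]
      congr 1
      unfold US
      apply biUnion_congr rfl
      intro i hi'
      rw [Function.update_of_ne (ne_of_mem_erase hi')]
    rw [e1]
    have hsub : Ω.erase i₁ ⊆ R := by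
      intro i hi'
      rw [hR]
      exact mem_erase.2 ⟨ne_of_mem_erase hi', hΩ (mem_of_mem_erase hi')⟩
    have hc0 := card_erase_add_one hi
    have hT : (tset (a, b, x)).card = 3 := by
      unfold tset
      rw [card_eq_three]
      exact ⟨a, b, x, hab, hxa.symm, hxb.symm, rfl⟩
    rcases (Ω.erase i₁).eq_empty_or_nonempty with he | hne2
    · rw [he] at hc0 ⊢
      rw [card_empty] at hc0
      have := card_le_card (subset_union_left (s₁ := tset (a, b, x)) (s₂ := US S ∅))
      omega
    · have h3 := h (Ω.erase i₁) (hsub.trans hRJ) hne2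
      by_cases hlt : (Ω.erase i₁).card + 2 < (US S (Ω.erase i₁)).card
      · have := card_le_card (subset_union_right (s₁ := tset (a, b, x))
          (s₂ := US S (Ω.erase i₁)))
        omega
      · have heq : (US S (Ω.erase i₁)).card = (Ω.erase i₁).card + 2 := by omega
        by_contra hcon
        have hss : (US S (Ω.erase i₁)) ⊆ tset (a, b, x) ∪ US S (Ω.erase i₁) := subset_union_right
        have heq2 := eq_of_subset_of_card_le hss (by omega)
        have hin : tset (a, b, x) ⊆ US S (Ω.erase i₁) := by
          intro v hv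
          rw [heq2]
          exact mem_union_left _ hv
        exact hx (Ω.erase i₁) hsub hne2 heq (hin (by simp [mem_tset])) (hin (by simp [mem_tset]))
          (hin (by simp [mem_tset]))
  · have e1 : US (Function.update S i₁ (a, b, x)) Ω = US S Ω := by
      unfold US
      apply biUnion_congr rfl
      intro i hi'
      have : i ≠ i₁ := fun e => hi (e ▸ hi')
      rw [Function.update_of_ne this]
    rw [e1]
    exact h Ω (hΩ.trans (erase_subset _ _)) hne'

end Pool.Agent.H42.GR
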