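import Pool.Agent.H42.GR.Hen

/-!
MP_aa6dd4_lc, Q1 in codimension two: points on the projective line over a field with at least
as many elements as there are points, such that the vectors of the triples are independent.
-/

set_option autoImplicit false

namespace Pool.Agent.H42.GR

open Finset

variable {V I F : Type*} [DecidableEq V] [DecidableEq I] [Field F]

set_option linter.unusedSectionVars false

/-- pairwise independent vectors on `A` -/
def Gen (A : Finset V) (w : V → F × F) : Prop := ∀ a ∈ A, ∀ b ∈ A, a ≠ b → br (w a) (w b) ≠ 0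

/-- the vectors of the triples of `J` are independent on `A` -/
def Ind (S : I → V × V × V) (J : Finset I) (A : Finset V) (w : V → F × F) : Prop :=
  ∀ μ : I → F, (∀ v ∈ A, ∑ i ∈ J, μ i * vec (S i) w v = 0) → ∀ i ∈ J, μ i = 0

theorem Gen.ne_zero {A : Finset V} {w : V → F × F} (h : Gen A w) (hA : 2 ≤ A.card) {a : V}
    (ha : a ∈ A) : w a ≠ 0 := by
  intro h0
  obtain ⟨b, hb, hne⟩ := exists_mem_ne (s := A) (by omega) a
  apply h a ha b hb hne.symm
  rw [h0, br_zero_left]

theorem Gen.insert {A : Finset V} {j : V} {w : V → F × F} (h : Gen (A.erase j) w) {p : F × F}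
    (hp : ∀ a ∈ A.erase j, br p (w a) ≠ 0) : Gen A (Function.update w j p) := by
  intro a ha b hb hab
  by_cases e1 : a = j
  · subst e1
    rw [Function.update_self, Function.update_of_ne hab.symm]
    exact hp b (mem_erase.2 ⟨hab.symm, hb⟩)
  · rw [Function.update_of_ne e1]
    by_cases e2 : b = j
    · subst e2
      rw [Function.update_self, br_swap]
      exact neg_ne_zero.2 (hp a (mem_erase.2 ⟨hab, ha⟩))
    · rw [Function.update_of_ne e2]
      exact h a (mem_erase.2 ⟨e1, ha⟩) b (mem_erase.2 ⟨e2, hb⟩) hab

/-- the combination of the vectors of `(j, a, b)` and `(j, x, y)` without the point `j`,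
as a function of the vector `p` of `j` -/
def EE (w : V → F × F) (a b x y : V) (p : F × F) (v : V) : F :=
  br (w x) (w y) * ((if v = a then br (w b) p else 0) + (if v = b then br p (w a) else 0)) -
  br (w a) (w b) * ((if v = x then br (w y) p else 0) + (if v = y then br p (w x) else 0))

theorem EE_lin (w : V → F × F) (a b x y : V) (s t : F) (p p' : F × F) (v : V) :
    EE w a b x y (s • p + t • p') v = s * EE w a b x y p v + t * EE w a b x y p' v := by
  unfold EE
  rw [br_lin, br_lin, br_lin', br_lin']
  split_ifs <;> ring

theorem EE_at (w : V → F × F) (a b x y : V) (v : V) :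
    EE w a b x y (w x) v = br (w x) (w y) * vec (a, b, x) w v := by
  unfold EE vec
  simp only
  rw [br_self]
  rw [br_swap (w y) (w x)]
  split_ifs <;> ring

/-- `p` is bad if the combination lies in the span of the other vectors -/
def Bad (S : I → V × V × V) (R : Finset I) (A : Finset V) (w : V → F × F) (a b x y : V)
    (p : F × F) : Prop :=
  ∃ ν : I → F, ∀ v ∈ A, EE w a b x y p v = ∑ i ∈ R, ν i * vec (S i) w v

theorem Bad.lin {S : I → V × V × V} {R : Finset I} {A : Finset V} {w : V → F × F} {a b x y : V}
    {p p' : F × F} (h : Bad S R A w a b x y p) (h' : Bad S R A w a b x y p') (s t : F) :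
    Bad S R A w a b x y (s • p + t • p') := by
  obtain ⟨ν, hν⟩ := h
  obtain ⟨ν', hν'⟩ := h'
  refine ⟨fun i => s * ν i + t * ν' i, fun v hv => ?_⟩
  rw [EE_lin, hν v hv, hν' v hv, mul_sum, mul_sum, ← sum_add_distrib]
  apply sum_congr rfl
  intro i _
  ring

theorem vec_first_ne {w : V → F × F} {j a b : V} (hja : j ≠ a) (hjb : j ≠ b) :
    vec (j, a, b) w j = br (w a) (w b) := by
  simp [vec, hja, hjb]

theorem vec_rest {w : V → F × F} {j a b : V} (hja : j ≠ a) (hjb : j ≠ b) {p : F × F} {v : V}
    (hv : v ≠ j) : vec (j, a, b) (Function.update w j p) v =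
      (if v = a then br (w b) p else 0) + (if v = b then br p (w a) else 0) := by
  unfold vec
  simp only
  rw [if_neg hv, Function.update_self, Function.update_of_ne hja.symm,
    Function.update_of_ne hjb.symm]
  ring

theorem vec_neg (j c d : V) (w : V → F × F) (v : V) :
    vec (j, c, d) w v = - vec (j, d, c) w v := by
  unfold vec
  simp only
  rw [br_swap (w c) (w d), br_swap (w d) (w j), br_swap (w j) (w c)]
  split_ifs <;> ring

theorem main [Fintype F] [DecidableEq F] : ∀ (m : ℕ) (J : Finset I) (A : Finset V)
    (S : I → V × V × V), J.card = m → J.card + 2 = A.card → (∀ i ∈ J, tset (S i) ⊆ A) → HC S J →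
    A.card ≤ Fintype.card F → ∃ w : V → F × F, Gen A w ∧ Ind S J A w := by
  intro m
  induction m with
  | zero =>
    intro J A S hJ hJA hSA hS hq
    rw [card_eq_zero] at hJ
    subst hJ
    rw [card_empty] at hJA
    obtain ⟨x, y, hxy, rfl⟩ := card_eq_two.1 hJA.symm
    refine ⟨fun v => if v = x then (1, 0) else (0, 1), ?_, ?_⟩
    · intro a ha b hb hab
      rw [mem_insert, mem_singleton] at ha hb
      rcases ha with rfl | rfl <;> rcases hb with rfl | rfl
      · exact absurd rfl hab
      · simp [br, hab.symm]
      · simp [br, hab]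
      · exact absurd rfl hab
    · intro μ _ i hi
      simp at hi
  | succ m ih =>
    intro J A S hJ hJA hSA hS hq
    have hne : J.Nonempty := card_pos.1 (by omega)
    obtain ⟨j, hjA, hd1, hd2⟩ := exists_low hS hSA hJA hne
    have hA' : (A.erase j).card + 1 = A.card := card_erase_add_one hjA
    by_cases hd : (J.filter fun i => j ∈ tset (S i)).card = 1
    · -- a point of degree one
      obtain ⟨i, hi⟩ := card_eq_one.1 hd
      have hiJ : i ∈ J ∧ j ∈ tset (S i) := by
        have : i ∈ J.filter fun i => j ∈ tset (S i) := by rw [hi]; simp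
        exact mem_filter.1 this
      have hot : ∀ i' ∈ J.erase i, j ∉ tset (S i') := by
        intro i' hi' hj
        have : i' ∈ J.filter fun i => j ∈ tset (S i) := mem_filter.2 ⟨mem_of_mem_erase hi', hj⟩
        rw [hi, mem_singleton] at this
        exact (ne_of_mem_erase hi') this
      have hJ' : (J.erase i).card + 1 = J.card := card_erase_add_one hiJ.1
      obtain ⟨w₀, hG, hI⟩ := ih (J.erase i) (A.erase j) S (by omega) (by omega)
        (fun i' hi' v hv => mem_erase.2 ⟨fun e => hot i' hi' (e ▸ hv),
          hSA i' (mem_of_mem_erase hi') hv⟩) (hS.mono (erase_subset _ _)) (by omega)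
      obtain ⟨p, hp⟩ := exists_dir ((A.erase j).image w₀) (by
        intro b hb
        obtain ⟨a, ha, rfl⟩ := mem_image.1 hb
        exact hG.ne_zero (by omega) ha) (by
        have := card_image_le (s := A.erase j) (f := w₀)
        omega)
      have hp' : ∀ a ∈ A.erase j, br p (w₀ a) ≠ 0 := fun a ha => hp _ (mem_image_of_mem _ ha)
      have hG' := hG.insert hp'
      refine ⟨Function.update w₀ j p, hG', ?_⟩
      obtain ⟨a, b, hab1, hab2⟩ := rotate (F := F) hiJ.2
      have h3 := hS.three hiJ.1
      rw [hab1] at h3
      obtain ⟨d1, d2, d3⟩ := distinct_of_card h3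
      have haA : a ∈ A := hSA i hiJ.1 (by rw [hab1]; simp [mem_tset])
      have hbA : b ∈ A := hSA i hiJ.1 (by rw [hab1]; simp [mem_tset])
      intro μ hμ
      have hμi : μ i = 0 := by
        have h1 := hμ j hjA
        rw [← add_sum_erase _ _ hiJ.1, sum_eq_zero (fun i' hi' => by
          rw [vec_not_mem _ (hot i' hi'), mul_zero]), add_zero, hab2, vec_first_ne d1 d2] at h1
        exact (mul_eq_zero.1 h1).resolve_right (hG' a haA b hbA d3)
      have hrest := hI μ (by
        intro v hv
        have h1 := hμ v (mem_of_mem_erase hv)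
        rw [← add_sum_erase _ _ hiJ.1, hμi, zero_mul, zero_add] at h1
        rw [← h1]
        apply sum_congr rfl
        intro i' hi'
        congr 1
        apply vec_congr
        intro u hu
        have : u ≠ j := fun e => hot i' hi' (e ▸ hu)
        rw [Function.update_of_ne this])
      intro i' hi'
      by_cases e : i' = i
      · rw [e]; exact hμi
      · exact hrest i' (mem_erase.2 ⟨e, hi'⟩)
    · -- a point of degree two
      have hd' : (J.filter fun i => j ∈ tset (S i)).card = 2 := by omega
      obtain ⟨i₁, i₂, h12, hi⟩ := card_eq_two.1 hd'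
      have hi1 : i₁ ∈ J ∧ j ∈ tset (S i₁) := by
        have : i₁ ∈ J.filter fun i => j ∈ tset (S i) := by rw [hi]; simp
        exact mem_filter.1 this
      have hi2 : i₂ ∈ J ∧ j ∈ tset (S i₂) := by
        have : i₂ ∈ J.filter fun i => j ∈ tset (S i) := by rw [hi]; simp
        exact mem_filter.1 this
      have hot : ∀ i' ∈ (J.erase i₂).erase i₁, j ∉ tset (S i') := by
        intro i' hi' hj
        have h1 : i' ∈ J.filter fun i => j ∈ tset (S i) :=
          mem_filter.2 ⟨mem_of_mem_erase (mem_of_mem_erase hi'), hj⟩
        rw [hi, mem_insert, mem_singleton] at h1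
        rcases h1 with h1 | h1
        · exact (ne_of_mem_erase hi') h1
        · exact (ne_of_mem_erase (mem_of_mem_erase hi')) h1
      obtain ⟨a, b, hab1, hab2⟩ := rotate (F := F) hi1.2
      obtain ⟨c, d, hcd1, hcd2⟩ := rotate (F := F) hi2.2
      have h3 := hS.three hi1.1
      rw [hab1] at h3
      obtain ⟨dja, djb, dab⟩ := distinct_of_card h3
      have h3' := hS.three hi2.1
      rw [hcd1] at h3'
      obtain ⟨djc, djd, dcd⟩ := distinct_of_card h3'
      have haA : a ∈ A.erase j := mem_erase.2 ⟨dja.symm, hSA i₁ hi1.1 (by rw [hab1]; simp [mem_tset])⟩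
      have hbA : b ∈ A.erase j := mem_erase.2 ⟨djb.symm, hSA i₁ hi1.1 (by rw [hab1]; simp [mem_tset])⟩
      have hcA : c ∈ A.erase j := mem_erase.2 ⟨djc.symm, hSA i₂ hi2.1 (by rw [hcd1]; simp [mem_tset])⟩
      have hdA : d ∈ A.erase j := mem_erase.2 ⟨djd.symm, hSA i₂ hi2.1 (by rw [hcd1]; simp [mem_tset])⟩
      obtain ⟨x, hx, hHC⟩ := replace hS hi1.1 hi2.1 h12 hab1 hcd1
      -- the other point `y` and the sign
      obtain ⟨y, ε, hε, hy1, hy2, hxA, hyA, dxy, djx, djy⟩ : ∃ (y : V) (ε : F), ε ≠ 0 ∧
          (∀ (w : V → F × F) (v : V), vec (S i₂) w v = ε * vec (j, x, y) w v) ∧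
          tset (S i₂) = tset (j, x, y) ∧ x ∈ A.erase j ∧ y ∈ A.erase j ∧ x ≠ y ∧ j ≠ x ∧
          j ≠ y := by
        rcases hx with rfl | rfl
        · exact ⟨d, 1, one_ne_zero, fun w v => by rw [hcd2, one_mul], hcd1, hcA, hdA, dcd, djc,
            djd⟩
        · refine ⟨c, -1, neg_ne_zero.2 one_ne_zero, fun w v => ?_, ?_, hdA, hcA, dcd.symm, djd,
            djc⟩
          · rw [hcd2, vec_neg j c x w]; ring
          · rw [hcd1]; ext v; simp only [mem_tset]; tauto
      have hJ' : (J.erase i₂).card + 1 = J.card := card_erase_add_one hi2.1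
      have hi1' : i₁ ∈ J.erase i₂ := mem_erase.2 ⟨h12, hi1.1⟩
      obtain ⟨w₀, hG, hI⟩ := ih (J.erase i₂) (A.erase j) (Function.update S i₁ (a, b, x))
        (by omega) (by omega) (by
          intro i' hi' v hv
          by_cases e : i' = i₁
          · subst e
            rw [Function.update_self, mem_tset] at hv
            rcases hv with hv | hv | hv <;> simp only at hv <;> rw [hv]
            · exact haA
            · exact hbA
            · exact hxA
          · rw [Function.update_of_ne e] at hv
            have h1 := hot i' (mem_erase.2 ⟨e, hi'⟩)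
            exact mem_erase.2 ⟨fun e' => h1 (e' ▸ hv), hSA i' (mem_of_mem_erase hi') hv⟩)
        hHC (by omega)
      have hsum : ∀ (μ : I → F) (c : F) (v : V),
          ∑ i ∈ J.erase i₂, (Function.update μ i₁ c) i *
            vec ((Function.update S i₁ (a, b, x)) i) w₀ v =
          c * vec (a, b, x) w₀ v + ∑ i ∈ (J.erase i₂).erase i₁, μ i * vec (S i) w₀ v := by
        intro μ c v
        rw [← add_sum_erase _ _ hi1', Function.update_self, Function.update_self]
        congr 1
        apply sum_congr rfl
        intro i' hi'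
        rw [Function.update_of_ne (ne_of_mem_erase hi'), Function.update_of_ne (ne_of_mem_erase hi')]
      have hbr : br (w₀ x) (w₀ y) ≠ 0 := hG x hxA y hyA dxy
      have hbr' : br (w₀ a) (w₀ b) ≠ 0 := hG a haA b hbA dab
      have hnb : ¬ Bad S ((J.erase i₂).erase i₁) (A.erase j) w₀ a b x y (w₀ x) := by
        rintro ⟨ν, hν⟩
        have h1 := hI (Function.update (fun i => - ν i) i₁ (br (w₀ x) (w₀ y))) (by
          intro v hv
          rw [hsum, ← EE_at w₀ a b x y v, hν v hv, ← sum_add_distrib]
          apply sum_eq_zero
          intro i _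
          ring) i₁ hi1'
        rw [Function.update_self] at h1
        exact hbr h1
      -- choice of the direction
      obtain ⟨p, hp, hpb⟩ : ∃ p : F × F, (∀ a ∈ A.erase j, br p (w₀ a) ≠ 0) ∧
          ¬ Bad S ((J.erase i₂).erase i₁) (A.erase j) w₀ a b x y p := by
        by_cases hβ : ∃ β : F × F, β ≠ 0 ∧ Bad S ((J.erase i₂).erase i₁) (A.erase j) w₀ a b x y β
        · obtain ⟨β, hβ0, hβ⟩ := hβ
          obtain ⟨p, hp⟩ := exists_dir (insert β ((A.erase j).image w₀)) (by
            intro b hb
            rcases mem_insert.1 hb with rfl | hb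
            · exact hβ0
            · obtain ⟨a, ha, rfl⟩ := mem_image.1 hb
              exact hG.ne_zero (by omega) ha) (by
            have h1 := card_image_le (s := A.erase j) (f := w₀)
            have h2 := card_insert_le β ((A.erase j).image w₀)
            omega)
          refine ⟨p, fun a ha => hp _ (mem_insert_of_mem (mem_image_of_mem _ ha)), fun hb => ?_⟩
          obtain ⟨s, t, hst⟩ := span_two (hp β (mem_insert_self _ _)) (w₀ x)
          apply hnb
          rw [hst]
          exact hb.lin hβ s t
        · push Not at hβ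
          obtain ⟨p, hp⟩ := exists_dir ((A.erase j).image w₀) (by
            intro b hb
            obtain ⟨a, ha, rfl⟩ := mem_image.1 hb
            exact hG.ne_zero (by omega) ha) (by
            have := card_image_le (s := A.erase j) (f := w₀)
            omega)
          have hp' : ∀ a ∈ A.erase j, br p (w₀ a) ≠ 0 := fun a ha => hp _ (mem_image_of_mem _ ha)
          refine ⟨p, hp', hβ p ?_⟩
          rintro rfl
          exact hp' a haA (br_zero_left _)
      have hG' := hG.insert hp
      refine ⟨Function.update w₀ j p, hG', ?_⟩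
      intro μ hμ
      -- splitting of the sum
      have hsplit : ∀ v, ∑ i ∈ J, μ i * vec (S i) (Function.update w₀ j p) v =
          μ i₂ * (ε * vec (j, x, y) (Function.update w₀ j p) v) +
          (μ i₁ * vec (j, a, b) (Function.update w₀ j p) v +
            ∑ i ∈ (J.erase i₂).erase i₁, μ i * vec (S i) w₀ v) := by
        intro v
        rw [← add_sum_erase _ _ hi2.1, ← add_sum_erase _ _ hi1', hy1, hab2]
        congr 2
        apply sum_congr rfl
        intro i' hi'
        congr 1
        apply vec_congr
        intro u hu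
        have : u ≠ j := fun e => hot i' hi' (e ▸ hu)
        rw [Function.update_of_ne this]
      have hatj : μ i₂ * ε * br (w₀ x) (w₀ y) + μ i₁ * br (w₀ a) (w₀ b) = 0 := by
        have h1 := hμ j hjA
        rw [hsplit, sum_eq_zero (fun i' hi' => by
          rw [vec_not_mem _ (hot i' hi'), mul_zero]), vec_first_ne djx djy, vec_first_ne dja djb,
          Function.update_of_ne djx.symm, Function.update_of_ne djy.symm,
          Function.update_of_ne dja.symm, Function.update_of_ne djb.symm] at h1
        linear_combination h1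
      set lam := μ i₁ / br (w₀ x) (w₀ y) with hlam
      have e1 : μ i₁ = lam * br (w₀ x) (w₀ y) := by rw [hlam]; field_simp
      have e2 : μ i₂ * ε = - lam * br (w₀ a) (w₀ b) := by
        have : (μ i₂ * ε + lam * br (w₀ a) (w₀ b)) * br (w₀ x) (w₀ y) = 0 := by
          rw [e1] at hatj
          linear_combination hatj
        have h2 := (mul_eq_zero.1 this).resolve_right hbr
        linear_combination h2
      have hrel : ∀ v ∈ A.erase j, lam * EE w₀ a b x y p v +
          ∑ i ∈ (J.erase i₂).erase i₁, μ i * vec (S i) w₀ v = 0 := by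
        intro v hv
        have h1 := hμ v (mem_of_mem_erase hv)
        have hvj := ne_of_mem_erase hv
        rw [hsplit, vec_rest djx djy hvj, vec_rest dja djb hvj, e1] at h1
        unfold EE
        linear_combination h1 - ((if v = x then br (w₀ y) p else 0) +
          (if v = y then br p (w₀ x) else 0)) * e2
      have hlam0 : lam = 0 := by
        by_contra hl
        apply hpb
        refine ⟨fun i => - μ i / lam, fun v hv => ?_⟩
        have h1 := hrel v hv
        have h2 : ∑ i ∈ (J.erase i₂).erase i₁, - μ i / lam * vec (S i) w₀ v =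
            - (1 / lam) * ∑ i ∈ (J.erase i₂).erase i₁, μ i * vec (S i) w₀ v := by
          rw [mul_sum]
          apply sum_congr rfl
          intro i _
          ring
        rw [h2, eq_neg_of_add_eq_zero_right h1]
        field_simp
      have hm1 : μ i₁ = 0 := by rw [e1, hlam0, zero_mul]
      have hm2 : μ i₂ = 0 := by
        rw [hlam0, neg_zero, zero_mul] at e2
        exact (mul_eq_zero.1 e2).resolve_right hε
      have hrest := hI (Function.update μ i₁ 0) (by
        intro v hv
        rw [hsum, zero_mul, zero_add]
        have h1 := hrel v hv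
        rwa [hlam0, zero_mul, zero_add] at h1)
      intro i' hi'
      by_cases g1 : i' = i₁
      · rw [g1]; exact hm1
      by_cases g2 : i' = i₂
      · rw [g2]; exact hm2
      have h4 := hrest i' (mem_erase.2 ⟨g2, hi'⟩)
      rwa [Function.update_of_ne g1] at h4

end Pool.Agent.H42.GR
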