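import Pool.Agent.H42.GR.Gen

/-!
MP_aa6dd4_lc, Q1: inversion, and the determinant with one point at infinity.
-/

set_option autoImplicit false

namespace Pool.Agent.H42.GR

open Finset Polynomial

theorem eq_zero_of_eval_off {K : Type*} [Field K] [Infinite K] {p : K[X]} (β : K)
    (h : ∀ t, t ≠ β → p.eval t = 0) : p = 0 := by
  apply eq_zero_of_infinite_isRoot
  refine Set.Infinite.mono ?_ (Set.finite_singleton β).infinite_compl
  intro t ht
  exact h t ht

theorem gg_eval {K : Type*} [CommRing K] {m : ℕ} (x : Fin m → K) (W : Finset (Fin m)) (t : K) :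
    (gg x W).eval t = ∏ z ∈ W, (t - x z) := by
  unfold gg
  rw [eval_prod]
  simp

/-- from one point at zero to one point at infinity -/
theorem inv_zero {K : Type*} [Field K] [Infinite K] {m k : ℕ} {W : Fin k → Finset (Fin m)}
    {τ : Fin k → ℕ} (hW : ∀ i, (W i).card + τ i + 1 = k) {x : Fin m → K} (hx : ∀ z, x z ≠ 0)
    (h : ∀ μ : Fin k → K, ∑ i, C (μ i) * (X ^ τ i * gg x (W i)) = 0 → μ = 0)
    (μ : Fin k → K) (hμ : ∑ i, C (μ i) * gg (fun z => (x z)⁻¹) (W i) = 0) : μ = 0 := by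
  have h1 := h (fun i => μ i * ∏ z ∈ W i, (-(x z)⁻¹)) (by
    apply eq_zero_of_eval_off 0
    intro t ht
    have h2 := congrArg (eval t⁻¹) hμ
    rw [eval_finsetSum, eval_zero] at h2
    have h3 : t ^ (k - 1) * ∑ i, (C (μ i) * gg (fun z => (x z)⁻¹) (W i)).eval t⁻¹ = 0 := by
      rw [h2, mul_zero]
    rw [mul_sum] at h3
    rw [eval_finsetSum, ← h3]
    apply sum_congr rfl
    intro i _
    simp only [eval_mul, eval_C, eval_pow, eval_X, gg_eval]
    have h4 : k - 1 = τ i + (W i).card := by have := hW i; omega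
    rw [h4, pow_add]
    have h5 : t ^ (W i).card * ∏ z ∈ W i, (t⁻¹ - (x z)⁻¹) =
        (∏ z ∈ W i, (-(x z)⁻¹)) * ∏ z ∈ W i, (t - x z) := by
      rw [← prod_const, ← prod_mul_distrib, ← prod_mul_distrib]
      apply prod_congr rfl
      intro z _
      have := hx z
      field_simp
      ring
    calc μ i * (∏ z ∈ W i, (-(x z)⁻¹)) * (t ^ τ i * ∏ z ∈ W i, (t - x z))
        = μ i * t ^ τ i * ((∏ z ∈ W i, (-(x z)⁻¹)) * ∏ z ∈ W i, (t - x z)) := by ring
      _ = μ i * t ^ τ i * (t ^ (W i).card * ∏ z ∈ W i, (t⁻¹ - (x z)⁻¹)) := by rw [h5]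
      _ = t ^ τ i * t ^ (W i).card * (μ i * ∏ z ∈ W i, (t⁻¹ - (x z)⁻¹)) := by ring)
  funext i
  have h2 := congrFun h1 i
  simp only [Pi.zero_apply] at h2 ⊢
  refine (mul_eq_zero.1 h2).resolve_right (prod_ne_zero_iff.2 fun z _ => ?_)
  exact neg_ne_zero.2 (inv_ne_zero (hx z))

/-- from one point at infinity to finite points -/
theorem inv_inf {K : Type*} [Field K] [Infinite K] {m k : ℕ} {W : Fin k → Finset (Fin m)}
    {τ : Fin k → ℕ} (hW : ∀ i, (W i).card + τ i + 1 = k) {s : Fin m → K} {β : K}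
    (hs : ∀ z, s z ≠ β)
    (h : ∀ μ : Fin k → K, ∑ i, C (μ i) * gg s (W i) = 0 → μ = 0)
    (μ : Fin k → K)
    (hμ : ∑ i, C (μ i) * (X ^ τ i * gg (fun z => (s z - β)⁻¹) (W i)) = 0) : μ = 0 := by
  have hs' : ∀ z, s z - β ≠ 0 := fun z => sub_ne_zero.2 (hs z)
  have h1 := h (fun i => μ i * ∏ z ∈ W i, (-(s z - β)⁻¹)) (by
    apply eq_zero_of_eval_off β
    intro t ht
    have hr : t - β ≠ 0 := sub_ne_zero.2 ht
    have h2 := congrArg (eval (t - β)⁻¹) hμ
    rw [eval_finsetSum, eval_zero] at h2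
    have h3 : (t - β) ^ (k - 1) * ∑ i, (C (μ i) * (X ^ τ i *
        gg (fun z => (s z - β)⁻¹) (W i))).eval (t - β)⁻¹ = 0 := by
      rw [h2, mul_zero]
    rw [mul_sum] at h3
    rw [eval_finsetSum, ← h3]
    apply sum_congr rfl
    intro i _
    simp only [eval_mul, eval_C, eval_pow, eval_X, gg_eval]
    have h4 : k - 1 = τ i + (W i).card := by have := hW i; omega
    rw [h4, pow_add]
    have h5 : (t - β) ^ (W i).card * ∏ z ∈ W i, ((t - β)⁻¹ - (s z - β)⁻¹) =
        (∏ z ∈ W i, (-(s z - β)⁻¹)) * ∏ z ∈ W i, (t - s z) := by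
      rw [← prod_const, ← prod_mul_distrib, ← prod_mul_distrib]
      apply prod_congr rfl
      intro z _
      have := hs' z
      field_simp
      ring
    have h6 : (t - β) ^ τ i * (t - β)⁻¹ ^ τ i = 1 := by
      rw [← mul_pow, mul_inv_cancel₀ hr, one_pow]
    calc μ i * (∏ z ∈ W i, (-(s z - β)⁻¹)) * ∏ z ∈ W i, (t - s z)
        = μ i * ((∏ z ∈ W i, (-(s z - β)⁻¹)) * ∏ z ∈ W i, (t - s z)) := by ring
      _ = μ i * ((t - β) ^ (W i).card * ∏ z ∈ W i, ((t - β)⁻¹ - (s z - β)⁻¹)) := by rw [h5]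
      _ = ((t - β) ^ τ i * (t - β)⁻¹ ^ τ i) * (μ i * ((t - β) ^ (W i).card *
            ∏ z ∈ W i, ((t - β)⁻¹ - (s z - β)⁻¹))) := by rw [h6]; ring
      _ = (t - β) ^ τ i * (t - β) ^ (W i).card * (μ i * ((t - β)⁻¹ ^ τ i *
            ∏ z ∈ W i, ((t - β)⁻¹ - (s z - β)⁻¹))) := by ring)
  funext i
  have h2 := congrFun h1 i
  simp only [Pi.zero_apply] at h2 ⊢
  refine (mul_eq_zero.1 h2).resolve_right (prod_ne_zero_iff.2 fun z _ => ?_)
  exact neg_ne_zero.2 (inv_ne_zero (hs' z))

/-! ### degrees -/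

section deg
variable {F : Type*} [Field F] {m : ℕ}

/-- the coefficients of `p` have degree at most `c` in the variable `j` -/
def DB (j : Fin m) (c : ℕ) (p : (MvPolynomial (Fin m) F)[X]) : Prop :=
  ∀ l, (p.coeff l).degreeOf j ≤ c

theorem DB.mul {j : Fin m} {c c' : ℕ} {p p' : (MvPolynomial (Fin m) F)[X]} (h : DB j c p)
    (h' : DB j c' p') : DB j (c + c') (p * p') := by
  intro l
  rw [coeff_mul]
  refine le_trans (MvPolynomial.degreeOf_sum_le j _ _) (Finset.sup_le fun x _ => ?_)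
  exact le_trans (MvPolynomial.degreeOf_mul_le j _ _) (add_le_add (h x.1) (h' x.2))

theorem DB_lin (j z : Fin m) :
    DB (F := F) j (if j = z then 1 else 0) (X - C (MvPolynomial.X z)) := by
  intro l
  rw [coeff_sub, coeff_X, coeff_C]
  refine le_trans (MvPolynomial.degreeOf_sub_le j _ _) (max_le ?_ ?_)
  · split_ifs <;> simp [MvPolynomial.degreeOf_one, MvPolynomial.degreeOf_zero]
  · by_cases hl : l = 0
    · rw [if_pos hl, MvPolynomial.degreeOf_X]
    · rw [if_neg hl, MvPolynomial.degreeOf_zero]; exact Nat.zero_le _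

theorem DB_gg (j : Fin m) (W : Finset (Fin m)) :
    DB (F := F) j (if j ∈ W then 1 else 0) (gg (fun z => MvPolynomial.X z) W) := by
  classical
  induction W using Finset.induction_on with
  | empty =>
    intro l
    simp only [gg, prod_empty, coeff_one]
    split_ifs <;> simp [MvPolynomial.degreeOf_one, MvPolynomial.degreeOf_zero]
  | insert a W ha ih =>
    intro l
    have h1 : gg (fun z => (MvPolynomial.X z : MvPolynomial (Fin m) F)) (insert a W) =
        (X - C (MvPolynomial.X a)) * gg (fun z => MvPolynomial.X z) W := by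
      unfold gg
      rw [prod_insert ha]
    rw [h1]
    refine le_trans ((DB_lin j a).mul ih l) ?_
    by_cases e : j = a
    · subst e
      simp [ha]
    · simp [e]

/-- the determinant of the configuration with one point at infinity -/
noncomputable def PY (F : Type*) [Field F] {m k : ℕ} (W : Fin k → Finset (Fin m)) :
    MvPolynomial (Fin m) F :=
  (Matrix.of fun i l : Fin k => (gg (fun z => (MvPolynomial.X z : MvPolynomial (Fin m) F))
    (W i)).coeff l).det

theorem PY_degree {k : ℕ} (W : Fin k → Finset (Fin m)) (j : Fin m) :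
    (PY F W).degreeOf j ≤ (univ.filter fun i => j ∈ W i).card := by
  classical
  unfold PY
  rw [Matrix.det_apply']
  refine le_trans (MvPolynomial.degreeOf_sum_le j _ _) (Finset.sup_le fun σ _ => ?_)
  refine le_trans (MvPolynomial.degreeOf_mul_le j _ _) ?_
  have h1 : MvPolynomial.degreeOf j ((((Equiv.Perm.sign σ : ℤˣ) : ℤ) :
      MvPolynomial (Fin m) F)) = 0 := by
    rcases Int.units_eq_one_or (Equiv.Perm.sign σ) with h | h <;> rw [h]
    · simp [MvPolynomial.degreeOf_one]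
    · simp [MvPolynomial.degreeOf_one, MvPolynomial.degreeOf_neg]
  rw [h1, zero_add]
  refine le_trans (MvPolynomial.degreeOf_prod_le j _ _) ?_
  calc ∑ i, MvPolynomial.degreeOf j (Matrix.of (fun i l : Fin k => (gg (fun z =>
        (MvPolynomial.X z : MvPolynomial (Fin m) F)) (W i)).coeff l) (σ i) i)
      ≤ ∑ i, (if j ∈ W (σ i) then 1 else 0) := sum_le_sum fun i _ => DB_gg j (W (σ i)) i
    _ = ∑ i, (if j ∈ W i then 1 else 0) :=
        Equiv.sum_comp σ (fun i => if j ∈ W i then 1 else 0)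
    _ = (univ.filter fun i => j ∈ W i).card := by rw [card_filter]

theorem PY_map {K : Type*} [Field K] {k : ℕ} (W : Fin k → Finset (Fin m))
    (φ : MvPolynomial (Fin m) F →+* K) :
    φ (PY F W) = (Matrix.of fun i l : Fin k => (gg (fun z => φ (MvPolynomial.X z))
      (W i)).coeff l).det := by
  unfold PY
  rw [RingHom.map_det]
  congr 1
  ext i l
  simp only [Matrix.of_apply, RingHom.mapMatrix_apply, Matrix.map_apply]
  rw [← coeff_map, gg_map]

theorem PY_ne_zero {k : ℕ} {W : Fin k → Finset (Fin m)} {τ : Fin k → ℕ}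
    (hW : ∀ i, (W i).card + τ i + 1 = k) (hG : Pool.Agent.H95.Good k univ W τ) :
    PY F W ≠ 0 := by
  intro h0
  obtain ⟨x, hx, hind⟩ := generic_zero (K := AlgebraicClosure F) hW hG
  have h1 := inv_zero hW hx hind
  have hdeg : ∀ i, (gg (fun z => (x z)⁻¹) (W i)).degree < (k : ℕ) := fun i =>
    gg_degree_lt _ (by have := hW i; omega)
  have h2 := (det_ne_iff hdeg).2 h1
  have h3 := PY_map W (MvPolynomial.aeval (R := F) (fun z => (x z)⁻¹) :
    MvPolynomial (Fin m) F →ₐ[F] AlgebraicClosure F).toRingHom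
  rw [h0, map_zero] at h3
  apply h2
  rw [h3]
  simp

end deg

end Pool.Agent.H42.GR
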