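import Pool.Agent.H42.GR.Cod

/-!
MP_aa6dd4_lc, Q1: the reduced local condition for arbitrary families.
-/

set_option autoImplicit false

namespace Pool.Agent.H42.GR

open Finset Polynomial

variable {F : Type*} [Field F] {m k : ℕ}

theorem row_card {Z Z' : Fin k → Finset (Fin (m + 1))} (hZZ : ∀ i, Z i ⊆ Z' i)
    (hc : ∀ i, (Z' i).card + 1 = k) (i : Fin k) :
    (WW Z i).card + (Z' i \ Z i).card + tt Z i + 1 = k := by
  have h1 := WW_card Z i
  have h2 := card_sdiff_add_card_eq_card (hZZ i)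
  have h3 := hc i
  omega

/-- the determinant vanishes when two points that meet all the sets coincide -/
theorem sb_PB (hk : 1 ≤ k) {Z Z' : Fin k → Finset (Fin (m + 1))} (hZZ : ∀ i, Z i ⊆ Z' i)
    (hc : ∀ i, (Z' i).card + 1 = k) {a b : Fin m} (h : ∀ i, a ∈ WW Z i ∨ b ∈ WW Z i) :
    sb F (Fin.castAdd (BB m k) a) (Fin.castAdd (BB m k) b) (PB F Z Z') = 0 := by
  have h1 := PB_map (F := F) Z Z'
    (sb F (Fin.castAdd (BB m k) a) (Fin.castAdd (BB m k) b)).toRingHom
  change (sb F (Fin.castAdd (BB m k) a) (Fin.castAdd (BB m k) b)).toRingHom (PB F Z Z') = 0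
  rw [h1]
  set φ := (sb F (Fin.castAdd (BB m k) a) (Fin.castAdd (BB m k) b)).toRingHom with hφ
  set x : Fin m → MvPolynomial (Fin (m + BB m k)) F := fun z =>
    φ (MvPolynomial.X (Fin.castAdd (BB m k) z)) with hx
  have hxab : x a = x b := by
    show sb F (Fin.castAdd (BB m k) a) (Fin.castAdd (BB m k) b) (MvPolynomial.X _) =
      sb F (Fin.castAdd (BB m k) a) (Fin.castAdd (BB m k) b) (MvPolynomial.X _)
    rw [sb_X, sb_X]
    simp
  rw [← Matrix.exists_mulVec_eq_zero_iff]
  refine ⟨fun l => x a ^ (l : ℕ), ?_, ?_⟩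
  · intro h0
    have := congrFun h0 ⟨0, hk⟩
    simp at this
  · funext i
    have hroot : (rowp x (WW Z i) (Z' i \ Z i) (fun z => φ (MvPolynomial.X (fr i z true)))
        (fun z => φ (MvPolynomial.X (fr i z false)))).eval (x a) = 0 := by
      rcases h i with hi | hi
      · exact rowp_eval x _ _ _ hi
      · rw [hxab]; exact rowp_eval x _ _ _ hi
    have hnd : (rowp x (WW Z i) (Z' i \ Z i) (fun z => φ (MvPolynomial.X (fr i z true)))
        (fun z => φ (MvPolynomial.X (fr i z false)))).natDegree < k := by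
      have h2 := rowp_natDegree x (WW Z i) (Z' i \ Z i)
        (fun z => φ (MvPolynomial.X (fr i z true))) (fun z => φ (MvPolynomial.X (fr i z false)))
      have h3 := row_card hZZ hc i
      omega
    rw [Polynomial.eval_eq_sum_range' (n := k) hnd] at hroot
    simp only [Matrix.mulVec, dotProduct, Matrix.of_apply, Pi.zero_apply]
    rw [← hroot]
    exact Fin.sum_univ_eq_sum_range (fun l => (rowp x (WW Z i) (Z' i \ Z i)
      (fun z => φ (MvPolynomial.X (fr i z true)))
      (fun z => φ (MvPolynomial.X (fr i z false)))).coeff l * x a ^ l) k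

theorem Nb_le (W : Fin k → Finset (Fin m)) (j : Fin m) :
    (Nb W j).card ≤ ((TT W).filter fun x => j = x.1 ∨ j = x.2).card := by
  classical
  let f : Fin m → Fin m × Fin m := fun b => if j < b then (j, b) else (b, j)
  have hf : ∀ b ∈ Nb W j, f b ∈ (TT W).filter fun x => j = x.1 ∨ j = x.2 := by
    intro b hb
    obtain ⟨-, hb1, hb2⟩ := mem_filter.1 hb
    rw [mem_filter]
    by_cases h2 : j < b
    · simp only [f, if_pos h2]
      exact ⟨mem_filter.2 ⟨mem_univ _, h2, hb2⟩, Or.inl trivial⟩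
    · simp only [f, if_neg h2]
      refine ⟨mem_filter.2 ⟨mem_univ _, lt_of_le_of_ne (not_lt.1 h2) hb1, fun i => ?_⟩,
        Or.inr trivial⟩
      exact (hb2 i).symm
  have hinj : Set.InjOn f (Nb W j) := by
    intro b hb b' hb' h2
    have hb1 := (mem_filter.1 (mem_coe.1 hb)).2.1
    have hb1' := (mem_filter.1 (mem_coe.1 hb')).2.1
    simp only [f] at h2
    split_ifs at h2 <;> rw [Prod.mk.injEq] at h2
    · exact h2.2
    · exact absurd h2.2 hb1
    · exact absurd h2.1 hb1
    · exact h2.1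
  exact card_le_card_of_injOn f hf hinj

/-- the quotient has small degrees -/
theorem quotB (hk : 1 ≤ k) {Z Z' : Fin k → Finset (Fin (m + 1))} (hZZ : ∀ i, Z i ⊆ Z' i)
    (hc : ∀ i, (Z' i).card + 1 = k) (hP : PB F Z Z' ≠ 0) :
    ∃ P₀ : MvPolynomial (Fin (m + BB m k)) F, P₀ ≠ 0 ∧
      (∀ s : Fin (m + BB m k) → F, (Function.Injective fun z : Fin m => s (Fin.castAdd _ z)) →
        MvPolynomial.eval s P₀ ≠ 0 → MvPolynomial.eval s (PB F Z Z') ≠ 0) ∧
      (∀ j : Fin m, P₀.degreeOf (Fin.castAdd _ j) + (Nb (WW Z) j).card ≤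
        (PB F Z Z').degreeOf (Fin.castAdd _ j)) ∧
      ∀ b, P₀.degreeOf (Fin.natAdd m b) ≤ (PB F Z Z').degreeOf (Fin.natAdd m b) := by
  classical
  let e : Fin m × Fin m ↪ Fin (m + BB m k) × Fin (m + BB m k) :=
    ⟨fun x => (Fin.castAdd _ x.1, Fin.castAdd _ x.2), fun x y hxy => by
      simp only [Prod.mk.injEq, Fin.castAdd_inj] at hxy
      exact Prod.ext hxy.1 hxy.2⟩
  obtain ⟨P₀, h0⟩ := divide (F := F) (P := PB F Z Z') ((TT (WW Z)).map e)
    (by
      intro x hx
      obtain ⟨y, hy, rfl⟩ := mem_map.1 hx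
      exact (mem_filter.1 hy).2.1)
    (by
      intro x hx
      obtain ⟨y, hy, rfl⟩ := mem_map.1 hx
      exact sb_PB hk hZZ hc (mem_filter.1 hy).2.2)
  rw [prod_map] at h0
  have hP0 : P₀ ≠ 0 := by
    rintro rfl
    rw [zero_mul] at h0
    exact hP h0
  have hne : ∀ x ∈ TT (WW Z), (MvPolynomial.X (e x).1 - MvPolynomial.X (e x).2 :
      MvPolynomial (Fin (m + BB m k)) F) ≠ 0 := fun x hx =>
    X_sub_ne (fun h => (mem_filter.1 hx).2.1.ne (Fin.castAdd_inj.1 h))
  have hdeg : ∀ j', (PB F Z Z').degreeOf j' = P₀.degreeOf j' +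
      ∑ x ∈ TT (WW Z), (MvPolynomial.X (e x).1 - MvPolynomial.X (e x).2 :
        MvPolynomial (Fin (m + BB m k)) F).degreeOf j' := by
    intro j'
    conv_lhs => rw [h0]
    rw [MvPolynomial.degreeOf_mul_eq hP0 (prod_ne_zero_iff.2 hne),
      MvPolynomial.degreeOf_prod_eq _ _ hne]
  refine ⟨P₀, hP0, ?_, ?_, ?_⟩
  · intro s hs h1
    rw [h0, map_mul, map_prod]
    refine mul_ne_zero h1 (prod_ne_zero_iff.2 fun x hx => ?_)
    rw [map_sub, MvPolynomial.eval_X, MvPolynomial.eval_X, sub_ne_zero]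
    exact fun h2 => (mem_filter.1 hx).2.1.ne (hs h2)
  · intro j
    rw [hdeg]
    apply Nat.add_le_add_left
    refine (Nb_le _ j).trans ?_
    rw [card_eq_sum_ones, sum_filter]
    apply sum_le_sum
    intro x hx
    split_ifs with h4
    · refine degreeOf_diff (fun h => (mem_filter.1 hx).2.1.ne (Fin.castAdd_inj.1 h)) ?_
      rcases h4 with h4 | h4
      · left; rw [h4]; rfl
      · right; rw [h4]; rfl
    · exact Nat.zero_le _
  · intro b
    rw [hdeg]
    exact Nat.le_add_right _ _

theorem castAdd_ne_fr (j : Fin m) (i : Fin k) (z : Fin (m + 1)) (ε : Bool) :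
    Fin.castAdd (BB m k) j ≠ fr i z ε := by
  intro h
  have := congrArg Fin.val h
  simp only [fr, Fin.val_castAdd, Fin.val_natAdd] at this
  omega

/-- the degree of an entry in a point -/
theorem entry_le (Z Z' : Fin k → Finset (Fin (m + 1))) (j : Fin m) (i : Fin k) (l : ℕ) :
    MvPolynomial.degreeOf (Fin.castAdd (BB m k) j) ((rowp (fun z =>
      (MvPolynomial.X (Fin.castAdd (BB m k) z) : MvPolynomial (Fin (m + BB m k)) F)) (WW Z i)
      (Z' i \ Z i) (fun z => MvPolynomial.X (fr i z true))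
      (fun z => MvPolynomial.X (fr i z false))).coeff l) ≤ if j.castSucc ∈ Z i then 1 else 0 := by
  classical
  have h1 : DB (F := F) (Fin.castAdd (BB m k) j) (∑ z ∈ WW Z i,
      if Fin.castAdd (BB m k) j = Fin.castAdd (BB m k) z then 1 else 0)
      (gg (fun z => (MvPolynomial.X (Fin.castAdd (BB m k) z) :
        MvPolynomial (Fin (m + BB m k)) F)) (WW Z i)) :=
    DB_prod _ _ _ fun z _ => DB_lin _ _
  have h2 : DB (F := F) (Fin.castAdd (BB m k) j) (∑ z ∈ Z' i \ Z i,
      ((if Fin.castAdd (BB m k) j = fr i z true then 1 else 0) +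
        (if Fin.castAdd (BB m k) j = fr i z false then 1 else 0)))
      (∏ z ∈ Z' i \ Z i, (C (MvPolynomial.X (fr i z true) :
        MvPolynomial (Fin (m + BB m k)) F) * X + C (MvPolynomial.X (fr i z false)))) :=
    DB_prod _ _ _ fun z _ => DB_free _ _ _
  refine ((h1.mul h2) l).trans ?_
  have h4 : (∑ z ∈ WW Z i, if Fin.castAdd (BB m k) j = Fin.castAdd (BB m k) z then 1 else 0) =
      if j ∈ WW Z i then 1 else 0 := by
    have : ∀ z : Fin m, (Fin.castAdd (BB m k) j = Fin.castAdd (BB m k) z) ↔ j = z := by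
      intro z; exact Fin.castAdd_inj
    simp only [this]
    rw [sum_ite_eq]
  rw [h4]
  simp only [if_neg (castAdd_ne_fr _ _ _ _), add_zero, sum_const_zero]
  unfold WW
  simp

/-- the leading coefficient of a row -/
theorem rowp_top {R : Type*} [CommRing R] [Nontrivial R] {I : Type*} (x : Fin m → R)
    (W : Finset (Fin m)) (E : Finset I) (γ δ : I → R) :
    (rowp x W E γ δ).coeff (W.card + E.card) = ∏ z ∈ E, γ z := by
  unfold rowp
  have h2 : (∏ z ∈ E, (C (γ z) * X + C (δ z))).natDegree ≤ E.card := by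
    refine (natDegree_prod_le _ _).trans ?_
    refine (sum_le_sum fun z _ => natDegree_linear_le (a := γ z) (b := δ z)).trans ?_
    simp
  rw [coeff_mul_add_eq_of_natDegree_le (gg_natDegree x W).le h2]
  have h3 : (gg x W).coeff W.card = 1 := by
    rw [← gg_natDegree x W]
    exact (gg_monic x W).coeff_natDegree
  rw [h3, one_mul]
  have h4 := coeff_prod_of_natDegree_le E (fun z => C (γ z) * X + C (δ z)) 1
    (fun z _ => natDegree_linear_le)
  rw [mul_one] at h4
  rw [h4]
  apply prod_congr rfl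
  intro z _
  simp

/-- one degree less if a point meets all the sets together with the last point -/
theorem PB_degree' (hk : 1 ≤ k) {Z Z' : Fin k → Finset (Fin (m + 1))} (hZZ : ∀ i, Z i ⊆ Z' i)
    (hc : ∀ i, (Z' i).card + 1 = k) {j : Fin m} (h : ∀ i, j.castSucc ∈ Z i ∨ Fin.last m ∈ Z i)
    (hP : PB F Z Z' ≠ 0) : (PB F Z Z').degreeOf (Fin.castAdd (BB m k) j) + 1 ≤
      (univ.filter fun i => j.castSucc ∈ Z i).card := by
  classical
  obtain ⟨l, rfl⟩ := Nat.exists_eq_add_of_le' hk
  have hcard := row_card hZZ hc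
  have hzero : ∀ i, Fin.last m ∈ Z i → (rowp (fun z =>
      (MvPolynomial.X (Fin.castAdd (BB m (l + 1)) z) :
        MvPolynomial (Fin (m + BB m (l + 1))) F)) (WW Z i)
      (Z' i \ Z i) (fun z => MvPolynomial.X (fr i z true))
      (fun z => MvPolynomial.X (fr i z false))).coeff l = 0 := by
    intro i hi
    apply Polynomial.coeff_eq_zero_of_natDegree_lt
    refine lt_of_le_of_lt (rowp_natDegree _ _ _ _ _) ?_
    have h1 := hcard i
    unfold tt at h1
    rw [if_pos hi] at h1
    omega
  have hpos : 1 ≤ (univ.filter fun i => j.castSucc ∈ Z i).card := by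
    by_contra hcon
    apply hP
    unfold PB
    apply Matrix.det_eq_zero_of_column_eq_zero (Fin.last l)
    intro i
    rw [Matrix.of_apply]
    have hj : j.castSucc ∉ Z i := by
      intro hj
      apply hcon
      exact card_pos.2 ⟨i, mem_filter.2 ⟨mem_univ _, hj⟩⟩
    exact hzero i ((h i).resolve_left hj)
  suffices (PB F Z Z').degreeOf (Fin.castAdd (BB m (l + 1)) j) ≤
    (univ.filter fun i => j.castSucc ∈ Z i).card - 1 by omega
  unfold PB
  rw [Matrix.det_apply']
  refine le_trans (MvPolynomial.degreeOf_sum_le _ _ _) (Finset.sup_le fun σ _ => ?_)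
  refine le_trans (MvPolynomial.degreeOf_mul_le _ _ _) ?_
  have h1 : MvPolynomial.degreeOf (Fin.castAdd (BB m (l + 1)) j)
      ((((Equiv.Perm.sign σ : ℤˣ) : ℤ) : MvPolynomial (Fin (m + BB m (l + 1))) F)) = 0 := by
    rcases Int.units_eq_one_or (Equiv.Perm.sign σ) with h | h <;> rw [h]
    · simp [MvPolynomial.degreeOf_one]
    · simp [MvPolynomial.degreeOf_one, MvPolynomial.degreeOf_neg]
  rw [h1, zero_add]
  by_cases hz : Fin.last m ∈ Z (σ (Fin.last l))
  · rw [prod_eq_zero (mem_univ (Fin.last l)) (by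
      rw [Matrix.of_apply]
      exact hzero _ hz), MvPolynomial.degreeOf_zero]
    exact Nat.zero_le _
  · have hj : j.castSucc ∈ Z (σ (Fin.last l)) := (h (σ (Fin.last l))).resolve_right hz
    refine le_trans (MvPolynomial.degreeOf_prod_le _ _ _) ?_
    rw [← add_sum_erase _ _ (mem_univ (Fin.last l))]
    have h2 : MvPolynomial.degreeOf (Fin.castAdd (BB m (l + 1)) j)
        (Matrix.of (fun i l' : Fin (l + 1) => (rowp (fun z =>
        (MvPolynomial.X (Fin.castAdd (BB m (l + 1)) z) :
          MvPolynomial (Fin (m + BB m (l + 1))) F)) (WW Z i)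
        (Z' i \ Z i) (fun z => MvPolynomial.X (fr i z true))
        (fun z => MvPolynomial.X (fr i z false))).coeff l') (σ (Fin.last l)) (Fin.last l)) = 0 := by
      rw [Matrix.of_apply]
      have h3 := hcard (σ (Fin.last l))
      unfold tt at h3
      rw [if_neg hz] at h3
      have h4 : ((Fin.last l : Fin (l + 1)) : ℕ) = (WW Z (σ (Fin.last l))).card +
          (Z' (σ (Fin.last l)) \ Z (σ (Fin.last l))).card := by
        rw [Fin.val_last]
        omega
      rw [h4, rowp_top]
      apply Nat.eq_zero_of_le_zero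
      refine (MvPolynomial.degreeOf_prod_le _ _ _).trans ?_
      apply le_of_eq
      apply sum_eq_zero
      intro z _
      rw [MvPolynomial.degreeOf_X, if_neg (castAdd_ne_fr _ _ _ _)]
    rw [h2, zero_add]
    refine (sum_le_sum fun i _ => entry_le Z Z' j (σ i) i).trans ?_
    have h6 : ∑ i, (if j.castSucc ∈ Z (σ i) then 1 else 0) =
        (univ.filter fun i => j.castSucc ∈ Z i).card := by
      rw [Equiv.sum_comp σ (fun i => if j.castSucc ∈ Z i then 1 else 0), card_filter]
    rw [← add_sum_erase _ _ (mem_univ (Fin.last l)), if_pos hj] at h6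
    omega

/-- one point at infinity, the reduced degrees -/
theorem indep_zeros' [Fintype F] (hk : 1 ≤ k) {Z Z' : Fin k → Finset (Fin (m + 1))}
    (hZZ : ∀ i, Z i ⊆ Z' i) (hc : ∀ i, (Z' i).card + 1 = k) (hZ : Pool.Agent.H95.Cond k Z')
    (hm : m + 1 ≤ Fintype.card F)
    (hd : ∀ j : Fin m, red Z j.castSucc + (m - 1 - j) < Fintype.card F) :
    ∃ α : Fin (m + 1) → F, Function.Injective α ∧ ∃ f : Fin k → F[X],
      (∀ i, (f i).degree < (k : ℕ)) ∧ (∀ i, ∀ j ∈ Z i, (f i).eval (α j) = 0) ∧
      LinearIndependent F f := by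
  classical
  have hW : ∀ i, (WW Z' i).card + tt Z' i + 1 = k := fun i => by rw [WW_card]; exact hc i
  have hP : PY F (WW Z') ≠ 0 := PY_ne_zero hW (good_of_cond hc hZ)
  have hPB : PB F Z Z' ≠ 0 := PB_ne_zero Z Z' hZZ hP
  obtain ⟨P₀, hP0, hev, hq1, hq2⟩ := quotB hk hZZ hc hPB
  have hred : ∀ j : Fin m, P₀.degreeOf (Fin.castAdd (BB m k) j) ≤ red Z j.castSucc := by
    intro j
    have h1 := PB_degree_pt (F := F) Z Z' j
    have h2 := hq1 j
    have h3 : ((cov Z j.castSucc).erase (Fin.last m)).card ≤ (Nb (WW Z) j).card := by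
      have h4 : (cov Z j.castSucc).erase (Fin.last m) ⊆ (Nb (WW Z) j).map Fin.castSuccEmb := by
        intro b hb
        rw [mem_erase] at hb
        obtain ⟨hbl, hb⟩ := hb
        obtain ⟨-, hb1, hb2⟩ := mem_filter.1 hb
        obtain ⟨b', rfl⟩ := Fin.exists_castSucc_eq.2 hbl
        rw [mem_map]
        refine ⟨b', ?_, rfl⟩
        unfold Nb
        rw [mem_filter]
        refine ⟨mem_univ _, fun e => hb1 (by rw [e]), fun i => ?_⟩
        simpa [WW] using hb2 i
      have h5 := card_le_card h4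
      rwa [card_map] at h5
    unfold red
    by_cases hl : Fin.last m ∈ cov Z j.castSucc
    · have h4 := card_erase_add_one hl
      have h5 := PB_degree' (F := F) hk hZZ hc (j := j) (fun i => (mem_filter.1 hl).2.2 i) hPB
      omega
    · rw [erase_eq_of_notMem hl] at h3
      omega
  obtain ⟨s, hs, hPs0⟩ := selb _ (fl₀ m (BB m k)) P₀ hP0 (by
    intro j
    refine Fin.addCases (fun j => ?_) (fun b => ?_) j
    · rw [later_fl₀]
      have h1 := hred j
      have h2 := hd j
      split_ifs <;> omega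
    · have h1 := (hq2 b).trans (PB_degree_fr (F := F) Z Z' b)
      have h2 : ¬ (fl₀ m (BB m k) (Fin.natAdd m b) = true) := by
        unfold fl₀
        simp
      rw [if_neg h2]
      have h3 := Fintype.one_lt_card (α := F)
      omega)
  set y : Fin m → F := fun z => s (Fin.castAdd (BB m k) z) with hy
  have hyi : Function.Injective y := by
    intro a b hab
    have h1 := hs (Fin.castAdd (BB m k) a) (Fin.castAdd (BB m k) b) (by simp [fl₀])
      (by simp [fl₀]) hab
    exact Fin.castAdd_inj.1 h1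
  have hPs := hev s hyi hPs0
  obtain ⟨β, hβ⟩ : ∃ β : F, ∀ z, y z ≠ β := by
    have h1 : (image y univ).card < (univ : Finset F).card := by
      have := card_image_le (s := (univ : Finset (Fin m))) (f := y)
      rw [card_univ, Fintype.card_fin] at this
      rw [card_univ]
      omega
    obtain ⟨β, _, hβ⟩ := exists_mem_notMem_of_card_lt_card h1
    exact ⟨β, fun z e => hβ (mem_image.2 ⟨z, mem_univ _, e⟩)⟩
  have hcard := row_card hZZ hc
  have hnd : ∀ i, (rowp y (WW Z i) (Z' i \ Z i) (fun z => s (fr i z true))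
      (fun z => s (fr i z false))).natDegree + tt Z i + 1 ≤ k := by
    intro i
    have h1 := rowp_natDegree y (WW Z i) (Z' i \ Z i) (fun z => s (fr i z true))
      (fun z => s (fr i z false))
    have h2 := hcard i
    omega
  have hdet := PB_map (F := F) Z Z' (MvPolynomial.eval s)
  rw [hdet] at hPs
  simp only [MvPolynomial.eval_X] at hPs
  have hind := (det_ne_iff (f := fun i => rowp y (WW Z i) (Z' i \ Z i)
    (fun z => s (fr i z true)) (fun z => s (fr i z false))) (by
      intro i
      refine lt_of_le_of_lt degree_le_natDegree ?_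
      have := hnd i
      exact_mod_cast (by omega : (rowp y (WW Z i) (Z' i \ Z i) (fun z => s (fr i z true))
        (fun z => s (fr i z false))).natDegree < k))).1 hPs
  exact move hk hyi hβ hnd (fun i z hz => rowp_eval y _ _ _ hz) hind

/-- the points are ordered by `σ`; the reduced degree of the `t`-th point with respect to some
larger sets with the same condition is at most `q - n + t` -/
theorem concl_loc [Fintype F] {n : ℕ} (hk : 1 ≤ k) (hkn : k ≤ n)
    (hq : n ≤ Fintype.card F) {Z Y : Fin k → Finset (Fin n)} (hZY : ∀ i, Z i ⊆ Y i)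
    (hY : Pool.Agent.H95.Cond k Y) (σ : Equiv.Perm (Fin n))
    (h : ∀ t : Fin n, (t : ℕ) + 1 < n →
      red Y (σ t) ≤ Fintype.card F - n + ((t : ℕ) + 1)) : RSConcl F n k Z := by
  classical
  obtain ⟨Z', h1, h2, h3⟩ := Pool.Agent.H95.exists_extend (k := k)
    (by rw [Fintype.card_fin]; omega) _ Y hY rfl
  obtain ⟨m, rfl⟩ : ∃ m, n = m + 1 := ⟨n - 1, by omega⟩
  let Ys : Fin k → Finset (Fin (m + 1)) := fun i => (Y i).map σ.symm.toEmbedding
  let Zs : Fin k → Finset (Fin (m + 1)) := fun i => (Z' i).map σ.symm.toEmbedding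
  have hmem : ∀ i v, v ∈ Zs i ↔ σ v ∈ Z' i := by
    intro i v
    show v ∈ (Z' i).map σ.symm.toEmbedding ↔ _
    rw [mem_map_equiv]
    simp
  have hmemY : ∀ i v, v ∈ Ys i ↔ σ v ∈ Y i := by
    intro i v
    show v ∈ (Y i).map σ.symm.toEmbedding ↔ _
    rw [mem_map_equiv]
    simp
  have hcs : ∀ i, (Zs i).card + 1 = k := by
    intro i
    show ((Z' i).map σ.symm.toEmbedding).card + 1 = k
    rw [card_map]
    exact h2 i
  have hZs : Pool.Agent.H95.Cond k Zs := by
    intro Ω hne
    have h4 : Pool.Agent.H95.inter Zs Ω =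
        (Pool.Agent.H95.inter Z' Ω).map σ.symm.toEmbedding := by
      ext v
      rw [mem_map_equiv, Pool.Agent.H95.mem_inter_iff', Pool.Agent.H95.mem_inter_iff']
      simp only [hmem]
      simp
    rw [h4, card_map]
    exact h3 Ω hne
  have hredeq : ∀ v, red Ys v = red Y (σ v) := by
    intro v
    have e1 : (univ.filter fun i => v ∈ Ys i) = univ.filter fun i => σ v ∈ Y i := by
      ext i
      simp only [mem_filter, mem_univ, true_and]
      exact hmemY i v
    have e2 : (cov Ys v).card = (cov Y (σ v)).card := by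
      have e3 : cov Ys v = (cov Y (σ v)).map σ.symm.toEmbedding := by
        ext b
        rw [mem_map_equiv]
        unfold cov
        simp only [mem_filter, mem_univ, true_and, hmemY, Equiv.symm_symm]
        constructor
        · rintro ⟨g1, g2⟩
          exact ⟨fun e => g1 (σ.injective e), g2⟩
        · rintro ⟨g1, g2⟩
          exact ⟨fun e => g1 (by rw [e]), g2⟩
      rw [e3, card_map]
    unfold red
    rw [e1, e2]
  have hdeg : ∀ j : Fin m, red Ys j.castSucc + (m - 1 - j) < Fintype.card F := by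
    intro j
    rw [hredeq]
    have hj := j.2
    have e2 := h j.castSucc (by rw [Fin.val_castSucc]; omega)
    rw [Fin.val_castSucc] at e2
    omega
  have hYZ : ∀ i, Ys i ⊆ Zs i := by
    intro i v hv
    rw [hmem]
    exact h1 i ((hmemY i v).1 hv)
  obtain ⟨α, hα, f, hf1, hf2, hf3⟩ := indep_zeros' hk hYZ hcs hZs hq hdeg
  refine concl_of_polys hkn (α := α ∘ σ.symm) (hα.comp σ.symm.injective) hf1 ?_ hf3
  intro i j hj
  exact hf2 i (σ.symm j) ((hmemY i _).2 (by rw [Equiv.apply_symm_apply]; exact hZY i hj))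

theorem cov_castLE {n m k : ℕ} (hmk : m ≤ k) (Y : Fin k → Finset (Fin n)) (v : Fin n) :
    cov (fun i : Fin m => Y (Fin.castLE hmk i)) v =
      univ.filter fun w => w ≠ v ∧ ∀ i : Fin k, (i : ℕ) < m → v ∈ Y i ∨ w ∈ Y i := by
  ext w
  unfold cov
  simp only [mem_filter, mem_univ, true_and]
  constructor
  · rintro ⟨h1, h2⟩
    exact ⟨h1, fun i hi => h2 ⟨i, hi⟩⟩
  · rintro ⟨h1, h2⟩
    exact ⟨h1, fun i => h2 _ i.2⟩

end Pool.Agent.H42.GR
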