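import Pool.Agent.H42.GR.Big
import Pool.Agent.H42.GR.Best

/-!
MP_aa6dd4_lc, Q1: the bound with the number of prescribed zeros.
-/

set_option autoImplicit false

namespace Pool.Agent.H42.GR

open Finset Polynomial

variable {F : Type*} [Field F]

/-- Reed-Solomon codes from independent polynomials with the prescribed zeros -/
theorem concl_of_polys {n k : ℕ} (hkn : k ≤ n) {α : Fin n → F} (hα : Function.Injective α)
    {Z : Fin k → Finset (Fin n)} {f : Fin k → F[X]} (hdeg : ∀ i, (f i).degree < (k : ℕ))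
    (hz : ∀ i, ∀ j ∈ Z i, (f i).eval (α j) = 0) (hind : LinearIndependent F f) :
    RSConcl F n k Z := by
  have hsum : ∀ μ : Fin k → F, (∑ i, μ i • f i).degree < (k : ℕ) := by
    intro μ
    refine lt_of_le_of_lt (degree_sum_le _ _) ?_
    rw [Finset.sup_lt_iff (by exact WithBot.bot_lt_coe _)]
    intro i _
    exact lt_of_le_of_lt (degree_smul_le _ _) (hdeg i)
  refine ⟨α, hα, Matrix.of fun i j => (f i).eval (α j), ?_, ?_, ?_⟩
  · rw [Fintype.linearIndependent_iff]
    intro μ hμ
    rw [Fintype.linearIndependent_iff] at hind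
    apply hind
    have h1 : ∀ j, (∑ i, μ i • f i).eval (α j) = 0 := by
      intro j
      have := congrFun hμ j
      simp only [Finset.sum_apply, Pi.smul_apply, Matrix.row_apply, Matrix.of_apply,
        Pi.zero_apply] at this
      rw [eval_finsetSum]
      simp only [eval_smul]
      exact this
    by_contra hne
    have h2 := eq_zero_of_natDegree_lt_card_of_eval_eq_zero _ hα h1 (by
      rw [Fintype.card_fin, natDegree_lt_iff_degree_lt hne]
      exact lt_of_lt_of_le (hsum μ) (by exact_mod_cast hkn))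
    exact hne h2
  · intro c
    rw [Submodule.mem_span_range_iff_exists_fun]
    constructor
    · rintro ⟨μ, rfl⟩
      refine ⟨∑ i, μ i • f i, hsum μ, fun j => ?_⟩
      simp only [Finset.sum_apply, Pi.smul_apply, Matrix.row_apply, Matrix.of_apply,
        eval_finsetSum, eval_smul]
    · rintro ⟨p, hp, hc'⟩
      let g : Fin k → degreeLT F k := fun i => ⟨f i, mem_degreeLT.2 (hdeg i)⟩
      have hg : LinearIndependent F g := by
        apply LinearIndependent.of_comp (degreeLT F k).subtype
        exact hind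
      have hfr : Fintype.card (Fin k) = Module.finrank F (degreeLT F k) := by
        rw [(degreeLTEquiv F k).finrank_eq, Module.finrank_fin_fun, Fintype.card_fin]
      have : FiniteDimensional F (degreeLT F k) :=
        Module.Finite.equiv (degreeLTEquiv F k).symm
      have htop := hg.span_eq_top_of_card_eq_finrank' hfr
      have hmem : (⟨p, mem_degreeLT.2 hp⟩ : degreeLT F k) ∈ Submodule.span F (Set.range g) := by
        rw [htop]; trivial
      rw [Submodule.mem_span_range_iff_exists_fun] at hmem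
      obtain ⟨μ, hμ⟩ := hmem
      refine ⟨μ, ?_⟩
      have hμ' : ∑ i, μ i • f i = p := by
        have := congrArg Subtype.val hμ
        simpa [g] using this
      funext j
      simp only [Finset.sum_apply, Pi.smul_apply, Matrix.row_apply, Matrix.of_apply]
      rw [hc' j, ← hμ', eval_finsetSum]
      simp only [eval_smul]
  · intro i j hj
    exact hz i j hj

/-- from one point at infinity to finite points, for arbitrary rows -/
theorem move {m k : ℕ} (hk : 1 ≤ k) {Z : Fin k → Finset (Fin (m + 1))} {y : Fin m → F}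
    (hy : Function.Injective y) {β : F} (hβ : ∀ z, y z ≠ β) {h : Fin k → F[X]}
    (hdeg : ∀ i, (h i).natDegree + tt Z i + 1 ≤ k)
    (hz : ∀ i, ∀ z ∈ WW Z i, (h i).eval (y z) = 0)
    (hind : ∀ μ : Fin k → F, ∑ i, C (μ i) * h i = 0 → μ = 0) :
    ∃ α : Fin (m + 1) → F, Function.Injective α ∧ ∃ f : Fin k → F[X],
      (∀ i, (f i).degree < (k : ℕ)) ∧ (∀ i, ∀ j ∈ Z i, (f i).eval (α j) = 0) ∧
      LinearIndependent F f := by
  refine ⟨Fin.snoc (α := fun _ => F) (fun z => (y z - β)⁻¹) 0, ?_,
    fun i => reflect (k - 1) (taylor β (h i)), ?_, ?_, ?_⟩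
  · intro a b
    refine Fin.lastCases ?_ (fun a => ?_) a <;> refine Fin.lastCases ?_ (fun b => ?_) b
    · intro _; rfl
    · intro h
      rw [Fin.snoc_last, Fin.snoc_castSucc] at h
      exact absurd h.symm (inv_ne_zero (sub_ne_zero.2 (hβ b)))
    · intro h
      rw [Fin.snoc_last, Fin.snoc_castSucc] at h
      exact absurd h (inv_ne_zero (sub_ne_zero.2 (hβ a)))
    · intro h
      rw [Fin.snoc_castSucc, Fin.snoc_castSucc] at h
      have h1 := inv_injective h
      have h2 : y a = y b := by linear_combination h1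
      rw [hy h2]
  · intro i
    have h1 := natDegree_reflect_le (N := k - 1) (p := taylor β (h i))
    rw [natDegree_taylor] at h1
    have h2 := hdeg i
    refine lt_of_le_of_lt degree_le_natDegree ?_
    exact_mod_cast (by omega : (reflect (k - 1) (taylor β (h i))).natDegree < k)
  · intro i j
    refine Fin.lastCases ?_ (fun z => ?_) j
    · intro hj
      rw [Fin.snoc_last, ← coeff_zero_eq_eval_zero, coeff_reflect, revAt_le (Nat.zero_le _)]
      apply coeff_eq_zero_of_natDegree_lt
      rw [natDegree_taylor]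
      have h1 := hdeg i
      unfold tt at h1
      rw [if_pos hj] at h1
      omega
    · intro hj
      have hne : y z - β ≠ 0 := sub_ne_zero.2 (hβ z)
      rw [Fin.snoc_castSucc]
      let _ : Invertible (y z - β) := invertibleOfNonzero hne
      have h1 := eval₂_reflect_mul_pow (RingHom.id F) (y z - β) (k - 1) (taylor β (h i)) (by
        rw [natDegree_taylor]
        have := hdeg i
        omega)
      rw [invOf_eq_inv] at h1
      have h2 : eval₂ (RingHom.id F) (y z - β) (taylor β (h i)) = 0 := by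
        have h3 : (taylor β (h i)).eval (y z - β) = 0 := by
          rw [taylor_eval_sub]
          exact hz i z (by rw [WW, mem_filter]; exact ⟨mem_univ _, hj⟩)
        exact h3
      rw [h2] at h1
      exact (mul_eq_zero.1 h1).resolve_right (pow_ne_zero _ hne)
  · rw [Fintype.linearIndependent_iff]
    intro μ hμ
    have h1 : ∑ i, C (μ i) * h i = 0 := by
      apply taylor_injective β
      rw [map_zero, map_sum]
      ext l
      have h2 := congrArg (fun p => p.coeff (revAt (k - 1) l)) hμ
      simp only [finsetSum_coeff, coeff_smul, coeff_reflect, revAt_invol, coeff_zero,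
        smul_eq_mul] at h2
      rw [finsetSum_coeff, coeff_zero, ← h2]
      apply sum_congr rfl
      intro i _
      rw [taylor_mul, taylor_C, coeff_C_mul]
    exact fun i => congrFun (hind μ h1) i

theorem indep_zeros [Fintype F] {m k : ℕ} (hk : 1 ≤ k) {Z Z' : Fin k → Finset (Fin (m + 1))}
    (hZZ : ∀ i, Z i ⊆ Z' i) (hc : ∀ i, (Z' i).card + 1 = k) (hZ : Pool.Agent.H95.Cond k Z')
    (hm : m + 1 ≤ Fintype.card F)
    (hd : ∀ j : Fin m, (univ.filter fun i => j.castSucc ∈ Z i).card + (m - 1 - j) <
      Fintype.card F) :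
    ∃ α : Fin (m + 1) → F, Function.Injective α ∧ ∃ f : Fin k → F[X],
      (∀ i, (f i).degree < (k : ℕ)) ∧ (∀ i, ∀ j ∈ Z i, (f i).eval (α j) = 0) ∧
      LinearIndependent F f := by
  classical
  have hW : ∀ i, (WW Z' i).card + tt Z' i + 1 = k := fun i => by rw [WW_card]; exact hc i
  have hP : PY F (WW Z') ≠ 0 := PY_ne_zero hW (good_of_cond hc hZ)
  have hPB : PB F Z Z' ≠ 0 := PB_ne_zero Z Z' hZZ hP
  obtain ⟨s, hs, hPs⟩ := selb _ (fl₀ m (BB m k)) (PB F Z Z') hPB (by
    intro j
    refine Fin.addCases (fun j => ?_) (fun b => ?_) j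
    · rw [later_fl₀]
      have h1 := PB_degree_pt (F := F) Z Z' j
      have h2 := hd j
      split_ifs <;> omega
    · have h1 := PB_degree_fr (F := F) Z Z' b
      have h2 : ¬ (fl₀ m (BB m k) (Fin.natAdd m b) = true) := by
        unfold fl₀
        simp
      rw [if_neg h2]
      have h3 := Fintype.one_lt_card (α := F)
      omega)
  set y : Fin m → F := fun z => s (Fin.castAdd (BB m k) z) with hy
  have hyi : Function.Injective y := by
    intro a b hab
    have h1 := hs (Fin.castAdd (BB m k) a) (Fin.castAdd (BB m k) b) (by simp [fl₀])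
      (by simp [fl₀]) hab
    exact Fin.castAdd_inj.1 h1
  obtain ⟨β, hβ⟩ : ∃ β : F, ∀ z, y z ≠ β := by
    have h1 : (image y univ).card < (univ : Finset F).card := by
      have := card_image_le (s := (univ : Finset (Fin m))) (f := y)
      rw [card_univ, Fintype.card_fin] at this
      rw [card_univ]
      omega
    obtain ⟨β, _, hβ⟩ := exists_mem_notMem_of_card_lt_card h1
    exact ⟨β, fun z e => hβ (mem_image.2 ⟨z, mem_univ _, e⟩)⟩
  have hcard : ∀ i, (WW Z i).card + (Z' i \ Z i).card + tt Z i + 1 = k := by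
    intro i
    have h1 := WW_card Z i
    have h2 := card_sdiff_add_card_eq_card (hZZ i)
    have h3 := hc i
    omega
  have hnd : ∀ i, (rowp y (WW Z i) (Z' i \ Z i) (fun z => s (fr i z true))
      (fun z => s (fr i z false))).natDegree + tt Z i + 1 ≤ k := by
    intro i
    have h1 := rowp_natDegree y (WW Z i) (Z' i \ Z i) (fun z => s (fr i z true))
      (fun z => s (fr i z false))
    have h2 := hcard i
    omega
  have hdet := PB_map (F := F) Z Z' (MvPolynomial.eval s)
  rw [hdet] at hPs
  simp only [MvPolynomial.eval_X] at hPs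
  have hind := (det_ne_iff (f := fun i => rowp y (WW Z i) (Z' i \ Z i)
    (fun z => s (fr i z true)) (fun z => s (fr i z false))) (by
      intro i
      refine lt_of_le_of_lt degree_le_natDegree ?_
      have := hnd i
      exact_mod_cast (by omega : (rowp y (WW Z i) (Z' i \ Z i) (fun z => s (fr i z true))
        (fun z => s (fr i z false))).natDegree < k))).1 hPs
  exact move hk hyi hβ hnd (fun i z hz => rowp_eval y _ _ _ hz) hind

/-- the arithmetic of the bound -/
theorem numeric'' {n k q t d M : ℕ} (hk : 1 ≤ k) (hkn : k ≤ n) (hq : n ≤ q)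
    (h : n - 1 + M / n ≤ q) (hd : d ≤ k - 1) (ht : 1 ≤ t) (htn : t ≤ n) (htd : t * d ≤ M) :
    d + t ≤ q + 1 := by
  obtain ⟨r, rfl⟩ := Nat.exists_eq_add_of_le hkn
  obtain ⟨a, rfl⟩ := Nat.exists_eq_add_of_le hk
  have e0 : 1 + a - 1 = a := by omega
  rw [e0] at hd
  set D := M / (1 + a + r) with hD
  have h3 : M < (1 + a + r) * (D + 1) := by
    have := Nat.lt_mul_div_succ M (b := 1 + a + r) (by omega)
    rwa [← hD] at this
  have h4 : D * (1 + a + r) ≤ M := Nat.div_mul_le_self _ _
  by_contra hcon
  push Not at hcon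
  obtain ⟨c, hc⟩ := Nat.exists_eq_add_of_le htn
  have h6 : c + D + 1 ≤ d := by omega
  have h7 : t * (c + D + 1) ≤ t * d := Nat.mul_le_mul_left _ h6
  by_cases h5 : D + 1 ≤ t
  · obtain ⟨b, hb⟩ := Nat.exists_eq_add_of_le h5
    rw [hc] at h3
    rw [hb] at h3 h7 htd
    nlinarith
  · omega

theorem concl_zeros [Fintype F] {n k : ℕ} (hk : 1 ≤ k) (hkn : k ≤ n)
    (hq : n ≤ Fintype.card F) {Z : Fin k → Finset (Fin n)}
    (h : n - 1 + (∑ i, (Z i).card) / n ≤ Fintype.card F)
    (hZ : Pool.Agent.H95.Cond k Z) : RSConcl F n k Z := by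
  classical
  obtain ⟨Z', h1, h2, h3⟩ := Pool.Agent.H95.exists_extend (k := k)
    (by rw [Fintype.card_fin]; omega) _ Z hZ rfl
  obtain ⟨m, rfl⟩ : ∃ m, n = m + 1 := ⟨n - 1, by omega⟩
  set d : Fin (m + 1) → ℕ := fun v => (univ.filter fun i => v ∈ Z i).card with hd
  set σ := Tuple.sort d with hσ
  have hmono : Monotone (d ∘ σ) := Tuple.monotone_sort d
  let Zs : Fin k → Finset (Fin (m + 1)) := fun i => (Z i).map σ.symm.toEmbedding
  let Zs' : Fin k → Finset (Fin (m + 1)) := fun i => (Z' i).map σ.symm.toEmbedding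
  have hmem : ∀ i v, v ∈ Zs i ↔ σ v ∈ Z i := by
    intro i v
    show v ∈ (Z i).map σ.symm.toEmbedding ↔ _
    rw [mem_map_equiv]
    simp
  have hmem' : ∀ i v, v ∈ Zs' i ↔ σ v ∈ Z' i := by
    intro i v
    show v ∈ (Z' i).map σ.symm.toEmbedding ↔ _
    rw [mem_map_equiv]
    simp
  have hcs : ∀ i, (Zs' i).card + 1 = k := by
    intro i
    show ((Z' i).map σ.symm.toEmbedding).card + 1 = k
    rw [card_map]
    exact h2 i
  have hZs : Pool.Agent.H95.Cond k Zs' := by
    intro Ω hne
    have h4 : Pool.Agent.H95.inter Zs' Ω =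
        (Pool.Agent.H95.inter Z' Ω).map σ.symm.toEmbedding := by
      ext v
      rw [mem_map_equiv, Pool.Agent.H95.mem_inter_iff', Pool.Agent.H95.mem_inter_iff']
      simp only [hmem']
      simp
    rw [h4, card_map]
    exact h3 Ω hne
  have hsum : ∑ v, d v = ∑ i, (Z i).card := by
    have e1 : ∑ v ∈ (univ : Finset (Fin (m + 1))),
        ((univ : Finset (Fin k)).filter fun i => v ∈ Z i).card =
        ∑ i ∈ (univ : Finset (Fin k)), ((univ : Finset (Fin (m + 1))).filter
          fun v => v ∈ Z i).card :=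
      sum_card_bipartiteAbove_eq_sum_card_bipartiteBelow (fun v i => v ∈ Z i)
    rw [hd]
    simp only
    rw [e1]
    apply sum_congr rfl
    intro i _
    congr 1
    ext v; simp
  have hdeg : ∀ j : Fin m, (univ.filter fun i => j.castSucc ∈ Zs i).card + (m - 1 - j) <
      Fintype.card F := by
    intro j
    have e1 : (univ.filter fun i => j.castSucc ∈ Zs i).card = d (σ j.castSucc) := by
      rw [hd]
      congr 1
      ext i
      simp only [mem_filter, mem_univ, true_and]
      exact hmem i _
    rw [e1]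
    have e2 : d (σ j.castSucc) ≤ k - 1 := mult_le hk hZ _
    have e3 : (m + 1 - j) * d (σ j.castSucc) ≤ ∑ i, (Z i).card := by
      have e4 : ∑ v ∈ Ici j.castSucc, d (σ j.castSucc) ≤ ∑ v ∈ Ici j.castSucc, d (σ v) :=
        sum_le_sum fun v hv => hmono (mem_Ici.1 hv)
      rw [sum_const, smul_eq_mul, Fin.card_Ici, Fin.val_castSucc] at e4
      refine e4.trans ?_
      calc ∑ v ∈ Ici j.castSucc, d (σ v) ≤ ∑ v, d (σ v) :=
            sum_le_sum_of_subset (subset_univ _)
        _ = ∑ v, d v := Equiv.sum_comp σ d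
        _ = _ := hsum
    have hj := j.2
    have e5 := numeric'' (t := m + 1 - j) hk hkn hq h e2 (by omega) (by omega) e3
    omega
  have hZZ : ∀ i, Zs i ⊆ Zs' i := by
    intro i v hv
    rw [hmem'] 
    exact h1 i ((hmem i v).1 hv)
  obtain ⟨α, hα, f, hf1, hf2, hf3⟩ := indep_zeros hk hZZ hcs hZs hq hdeg
  refine concl_of_polys hkn (α := α ∘ σ.symm) (hα.comp σ.symm.injective) hf1 ?_ hf3
  intro i j hj
  exact hf2 i (σ.symm j) ((hmem i _).2 (by rw [Equiv.apply_symm_apply]; exact hj))

theorem sum_le {n k : ℕ} {Z : Fin k → Finset (Fin n)} (hZ : Pool.Agent.H95.Cond k Z) :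
    ∑ i, (Z i).card ≤ k * (k - 1) := by
  classical
  have h1 : ∀ i ∈ (univ : Finset (Fin k)), (Z i).card ≤ k - 1 := by
    intro i _
    have h2 := hZ {i} (singleton_nonempty i)
    have h3 : Pool.Agent.H95.inter Z {i} = Z i := by
      ext x; rw [Pool.Agent.H95.mem_inter_iff']; simp
    rw [h3, card_singleton] at h2
    omega
  refine (sum_le_sum h1).trans ?_
  rw [sum_const, card_univ, Fintype.card_fin, smul_eq_mul]

/-- the bound with the smaller of the two numbers -/
theorem concl_final [Fintype F] {n k : ℕ} (hk : 1 ≤ k) (hkn : k ≤ n)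
    (hq : n ≤ Fintype.card F) {Z : Fin k → Finset (Fin n)}
    (h : n - 1 + min (∑ i, (Z i).card) ((k - 1) * ((n - k) * (n - k - 1))) / n ≤
      Fintype.card F)
    (hZ : Pool.Agent.H95.Cond k Z) : RSConcl F n k Z := by
  classical
  have hsum : ∑ i, (Z i).card ≤ (k - 1) * k := by
    rw [mul_comm]
    exact sum_le hZ
  rcases le_total (∑ i, (Z i).card) ((k - 1) * ((n - k) * (n - k - 1))) with hle | hle
  · rw [min_eq_left hle] at h
    exact concl_zeros hk hkn hq h hZ
  · rw [min_eq_right hle] at h
    have h1 : min k ((n - k) * (n - k - 1)) = (n - k) * (n - k - 1) ∨ k = 1 := by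
      by_cases h2 : k = 1
      · exact Or.inr h2
      left
      apply min_eq_right
      have h3 : (k - 1) * ((n - k) * (n - k - 1)) ≤ (k - 1) * k := hle.trans hsum
      exact Nat.le_of_mul_le_mul_left h3 (by omega)
    rcases h1 with h1 | h1
    · apply concl_best hk hkn hq _ hZ
      rw [h1]
      exact h
    · apply concl_best hk hkn hq _ hZ
      subst h1
      simp
      omega

/-- the bound holds for every `q ≥ n` in the three cases -/
theorem bound_final {n k q s : ℕ} (hkn : k ≤ n) (hq : n ≤ q) (hs : s ≤ k * (k - 1))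
    (h : k ≤ 4 ∨ n ≤ k + 2 ∨ s < 2 * n ∨
      n - 1 + min s ((k - 1) * ((n - k) * (n - k - 1))) / n ≤ q) :
    n - 1 + min s ((k - 1) * ((n - k) * (n - k - 1))) / n ≤ q := by
  have key : min s ((k - 1) * ((n - k) * (n - k - 1))) < 2 * n →
      n - 1 + min s ((k - 1) * ((n - k) * (n - k - 1))) / n ≤ q := by
    intro h1
    have h2 : min s ((k - 1) * ((n - k) * (n - k - 1))) / n < 2 :=
      Nat.div_lt_of_lt_mul (by rwa [mul_comm n 2])
    omega
  have hB : n ≤ k + 2 → min s ((k - 1) * ((n - k) * (n - k - 1))) < 2 * n ∨ n = 0 := by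
    intro h1
    by_cases h0 : n = 0
    · exact Or.inr h0
    left
    have h2 : (n - k) * (n - k - 1) ≤ 2 := by
      have h3 : n - k ≤ 2 := by omega
      have h4 : n - k - 1 ≤ 1 := by omega
      calc (n - k) * (n - k - 1) ≤ 2 * 1 := Nat.mul_le_mul h3 h4
        _ = 2 := rfl
    have h3 : min s ((k - 1) * ((n - k) * (n - k - 1))) ≤ (k - 1) * 2 :=
      (min_le_right _ _).trans (Nat.mul_le_mul_left _ h2)
    omega
  have hC : s < 2 * n → min s ((k - 1) * ((n - k) * (n - k - 1))) < 2 * n := by
    intro h1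
    exact lt_of_le_of_lt (min_le_left _ _) h1
  have h0 : n = 0 → n - 1 + min s ((k - 1) * ((n - k) * (n - k - 1))) / n ≤ q := by
    intro e
    subst e
    simp
  rcases h with h | h | h | h
  · by_cases h1 : n ≤ k + 2
    · rcases hB h1 with h2 | h2
      · exact key h2
      · exact h0 h2
    · apply key
      apply hC
      refine lt_of_le_of_lt hs ?_
      have : k = 0 ∨ k = 1 ∨ k = 2 ∨ k = 3 ∨ k = 4 := by omega
      rcases this with rfl | rfl | rfl | rfl | rfl <;> omega
  · rcases hB h with h2 | h2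
    · exact key h2
    · exact h0 h2
  · exact key (hC h)
  · exact h

end Pool.Agent.H42.GR
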