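import Pool.Agent.H42.GR.Ind
import Pool.Agent.H95.Extend

/-!
MP_aa6dd4_lc, Q1: from independent products of linear factors to Reed-Solomon codes, and the
independence of the products in codimension two and in codimension at most one.
-/

set_option autoImplicit false

namespace Pool.Agent.H42.GR

open Finset Polynomial

variable {F : Type*} [Field F]

/-- the product of the linear factors of the points of `Z` -/
noncomputable def ff {n : ℕ} (α : Fin n → F) (Z : Finset (Fin n)) : F[X] :=
  ∏ z ∈ Z, (X - C (α z))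

theorem ff_degree {n : ℕ} (α : Fin n → F) (Z : Finset (Fin n)) :
    (ff α Z).degree = (Z.card : ℕ) := by
  unfold ff
  rw [degree_prod]
  simp

theorem ff_eval {n : ℕ} (α : Fin n → F) (Z : Finset (Fin n)) (v : Fin n) :
    (ff α Z).eval (α v) = ∏ z ∈ Z, (α v - α z) := by
  unfold ff
  rw [eval_prod]
  simp

theorem ff_eval_zero {n : ℕ} (α : Fin n → F) {Z : Finset (Fin n)} {v : Fin n} (h : v ∈ Z) :
    (ff α Z).eval (α v) = 0 := by
  rw [ff_eval]
  exact prod_eq_zero h (sub_self _)

theorem ff_eval_ne {n : ℕ} {α : Fin n → F} (hα : Function.Injective α) {Z : Finset (Fin n)}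
    {v : Fin n} (h : v ∉ Z) : (ff α Z).eval (α v) ≠ 0 := by
  rw [ff_eval]
  refine prod_ne_zero_iff.2 fun z hz => ?_
  rw [sub_ne_zero]
  intro e
  exact h (hα e ▸ hz)

/-- the conclusion of Q1 with all multipliers equal to one -/
def RSConcl (F : Type*) [Field F] (n k : ℕ) (Z : Fin k → Finset (Fin n)) : Prop :=
  ∃ α : Fin n → F, Function.Injective α ∧ ∃ G : Matrix (Fin k) (Fin n) F,
    LinearIndependent F G.row ∧
    (∀ c : Fin n → F, c ∈ Submodule.span F (Set.range G.row) ↔
      ∃ f : F[X], f.degree < (k : ℕ) ∧ ∀ j, c j = f.eval (α j)) ∧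
    ∀ i, ∀ j ∈ Z i, G i j = 0

theorem concl_of_indep {n k : ℕ} (hkn : k ≤ n) {α : Fin n → F} (hα : Function.Injective α)
    {Z Z' : Fin k → Finset (Fin n)} (hZZ : ∀ i, Z i ⊆ Z' i) (hc : ∀ i, (Z' i).card + 1 = k)
    (hind : LinearIndependent F fun i => ff α (Z' i)) : RSConcl F n k Z := by
  have hdeg : ∀ i, (ff α (Z' i)).degree < (k : ℕ) := by
    intro i
    rw [ff_degree]
    have := hc i
    exact_mod_cast (by omega : (Z' i).card < k)
  have hsum : ∀ μ : Fin k → F, (∑ i, μ i • ff α (Z' i)).degree < (k : ℕ) := by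
    intro μ
    refine lt_of_le_of_lt (degree_sum_le _ _) ?_
    rw [Finset.sup_lt_iff (by exact WithBot.bot_lt_coe _)]
    intro i _
    exact lt_of_le_of_lt (degree_smul_le _ _) (hdeg i)
  refine ⟨α, hα, Matrix.of fun i j => (ff α (Z' i)).eval (α j), ?_, ?_, ?_⟩
  · rw [Fintype.linearIndependent_iff]
    intro μ hμ
    rw [Fintype.linearIndependent_iff] at hind
    apply hind
    have h1 : ∀ j, (∑ i, μ i • ff α (Z' i)).eval (α j) = 0 := by
      intro j
      have := congrFun hμ j
      simp only [Finset.sum_apply, Pi.smul_apply, Matrix.row_apply, Matrix.of_apply,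
        Pi.zero_apply] at this
      rw [eval_finsetSum]
      simp only [eval_smul]
      exact this
    by_contra hne
    have h2 := eq_zero_of_natDegree_lt_card_of_eval_eq_zero _ hα h1 (by
      rw [Fintype.card_fin, natDegree_lt_iff_degree_lt hne]
      exact lt_of_lt_of_le (hsum μ) (by exact_mod_cast hkn))
    exact hne h2
  · intro c
    rw [Submodule.mem_span_range_iff_exists_fun]
    constructor
    · rintro ⟨μ, rfl⟩
      refine ⟨∑ i, μ i • ff α (Z' i), hsum μ, fun j => ?_⟩
      simp only [Finset.sum_apply, Pi.smul_apply, Matrix.row_apply, Matrix.of_apply,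
        eval_finsetSum, eval_smul]
    · rintro ⟨f, hf, hc'⟩
      let g : Fin k → degreeLT F k := fun i => ⟨ff α (Z' i), mem_degreeLT.2 (hdeg i)⟩
      have hg : LinearIndependent F g := by
        apply LinearIndependent.of_comp (degreeLT F k).subtype
        exact hind
      have hfr : Fintype.card (Fin k) = Module.finrank F (degreeLT F k) := by
        rw [(degreeLTEquiv F k).finrank_eq, Module.finrank_fin_fun, Fintype.card_fin]
      have : FiniteDimensional F (degreeLT F k) :=
        Module.Finite.equiv (degreeLTEquiv F k).symm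
      have htop := hg.span_eq_top_of_card_eq_finrank' hfr
      have hmem : (⟨f, mem_degreeLT.2 hf⟩ : degreeLT F k) ∈ Submodule.span F (Set.range g) := by
        rw [htop]; trivial
      rw [Submodule.mem_span_range_iff_exists_fun] at hmem
      obtain ⟨μ, hμ⟩ := hmem
      refine ⟨μ, ?_⟩
      have hμ' : ∑ i, μ i • ff α (Z' i) = f := by
        have := congrArg Subtype.val hμ
        simpa [g] using this
      funext j
      simp only [Finset.sum_apply, Pi.smul_apply, Matrix.row_apply, Matrix.of_apply]
      rw [hc' j, ← hμ', eval_finsetSum]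
      simp only [eval_smul]
  · intro i j hj
    exact ff_eval_zero α (hZZ i hj)

/-- codimension at most one: every choice of distinct points works -/
theorem indep_low {n k : ℕ} (hnk : n ≤ k + 1) (hkn : k ≤ n) {α : Fin n → F}
    (hα : Function.Injective α) {Z : Fin k → Finset (Fin n)} (hc : ∀ i, (Z i).card + 1 = k)
    (hZ : Pool.Agent.H95.Cond k Z) : LinearIndependent F fun i => ff α (Z i) := by
  classical
  rw [Fintype.linearIndependent_iff]
  intro μ hμ
  by_contra hne
  push Not at hne
  set Ω := univ.filter fun i => μ i ≠ 0 with hΩ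
  have hΩne : Ω.Nonempty := by
    obtain ⟨i, hi⟩ := hne
    exact ⟨i, by simpa [hΩ] using hi⟩
  set U := univ \ Pool.Agent.H95.inter Z Ω with hU
  have hUc : U.card + (Pool.Agent.H95.inter Z Ω).card = n := by
    rw [hU, card_univ_sdiff, Fintype.card_fin]
    have := card_le_univ (Pool.Agent.H95.inter Z Ω)
    rw [Fintype.card_fin] at this
    omega
  have hcond := hZ Ω hΩne
  have h2 : ∀ v ∈ U, 2 ≤ (Ω.filter fun i => v ∉ Z i).card := by
    intro v hv
    by_contra hlt
    have hex : ∃ i ∈ Ω, v ∉ Z i := by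
      rw [hU, mem_sdiff, Pool.Agent.H95.mem_inter_iff'] at hv
      have := hv.2
      push Not at this
      exact this
    obtain ⟨i, hi, hvi⟩ := hex
    have honly : ∀ i' ∈ Ω, i' ≠ i → v ∈ Z i' := by
      intro i' hi' hne
      by_contra hcon
      have : 1 < (Ω.filter fun i => v ∉ Z i).card :=
        one_lt_card.2 ⟨i', mem_filter.2 ⟨hi', hcon⟩, i, mem_filter.2 ⟨hi, hvi⟩, hne⟩
      omega
    have h3 := congrArg (eval (α v)) hμ
    rw [eval_finsetSum, eval_zero, sum_eq_single i] at h3
    · rw [eval_smul, smul_eq_mul] at h3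
      rcases mul_eq_zero.1 h3 with h4 | h4
      · rw [hΩ, mem_filter] at hi
        exact hi.2 h4
      · exact ff_eval_ne hα hvi h4
    · intro i' _ hne
      by_cases hi' : i' ∈ Ω
      · rw [eval_smul, ff_eval_zero α (honly i' hi' hne), smul_zero]
      · have : μ i' = 0 := by
          by_contra hcon
          exact hi' (by simpa [hΩ] using hcon)
        rw [this, zero_smul, eval_zero]
    · intro h; exact absurd (mem_univ _) h
  have h4 : ∑ v ∈ U, (Ω.filter fun i => v ∉ Z i).card = ∑ i ∈ Ω, (U.filter fun v => v ∉ Z i).card :=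
    sum_card_bipartiteAbove_eq_sum_card_bipartiteBelow (fun v i => v ∉ Z i)
  have h5 : ∑ i ∈ Ω, (U.filter fun v => v ∉ Z i).card ≤ ∑ i ∈ Ω, (n + 1 - k) := by
    apply sum_le_sum
    intro i _
    have : (U.filter fun v => v ∉ Z i) ⊆ univ \ Z i := by
      intro v hv
      exact mem_sdiff.2 ⟨mem_univ _, (mem_filter.1 hv).2⟩
    refine le_trans (card_le_card this) ?_
    rw [card_univ_sdiff, Fintype.card_fin]
    have := hc i
    omega
  have h6 : ∑ v ∈ U, 2 ≤ ∑ v ∈ U, (Ω.filter fun i => v ∉ Z i).card := sum_le_sum h2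
  rw [sum_const, smul_eq_mul] at h5 h6
  have hΩpos := card_pos.2 hΩne
  have : n + 1 - k = 1 ∨ n + 1 - k = 2 := by omega
  rcases this with e | e <;> rw [e] at h5 <;> omega

end Pool.Agent.H42.GR
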