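import Pool.Agent.H42.GR.Pip

/-!
MP_aa6dd4_lc, Q1: the condition on the degrees of the points, and additional rows with few
prescribed zeros.
-/

set_option autoImplicit false

namespace Pool.Agent.H42.GR

open Finset Polynomial

variable {F : Type*} [Field F]

/-- the points are ordered by `σ`; the `t`-th point lies in at most `q - n + t` of the sets -/
theorem concl_order [Fintype F] {n k : ℕ} (hk : 1 ≤ k) (hkn : k ≤ n)
    (hq : n ≤ Fintype.card F) {Z : Fin k → Finset (Fin n)} (σ : Equiv.Perm (Fin n))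
    (h : ∀ t : Fin n, (t : ℕ) + 1 < n →
      (univ.filter fun i => σ t ∈ Z i).card ≤ Fintype.card F - n + (t + 1))
    (hZ : Pool.Agent.H95.Cond k Z) : RSConcl F n k Z := by
  classical
  obtain ⟨Z', h1, h2, h3⟩ := Pool.Agent.H95.exists_extend (k := k)
    (by rw [Fintype.card_fin]; omega) _ Z hZ rfl
  obtain ⟨m, rfl⟩ : ∃ m, n = m + 1 := ⟨n - 1, by omega⟩
  let Zs : Fin k → Finset (Fin (m + 1)) := fun i => (Z i).map σ.symm.toEmbedding
  let Zs' : Fin k → Finset (Fin (m + 1)) := fun i => (Z' i).map σ.symm.toEmbedding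
  have hmem : ∀ i v, v ∈ Zs i ↔ σ v ∈ Z i := by
    intro i v
    show v ∈ (Z i).map σ.symm.toEmbedding ↔ _
    rw [mem_map_equiv]
    simp
  have hmem' : ∀ i v, v ∈ Zs' i ↔ σ v ∈ Z' i := by
    intro i v
    show v ∈ (Z' i).map σ.symm.toEmbedding ↔ _
    rw [mem_map_equiv]
    simp
  have hcs : ∀ i, (Zs' i).card + 1 = k := by
    intro i
    show ((Z' i).map σ.symm.toEmbedding).card + 1 = k
    rw [card_map]
    exact h2 i
  have hZs : Pool.Agent.H95.Cond k Zs' := by
    intro Ω hne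
    have h4 : Pool.Agent.H95.inter Zs' Ω =
        (Pool.Agent.H95.inter Z' Ω).map σ.symm.toEmbedding := by
      ext v
      rw [mem_map_equiv, Pool.Agent.H95.mem_inter_iff', Pool.Agent.H95.mem_inter_iff']
      simp only [hmem']
      simp
    rw [h4, card_map]
    exact h3 Ω hne
  have hdeg : ∀ j : Fin m, (univ.filter fun i => j.castSucc ∈ Zs i).card + (m - 1 - j) <
      Fintype.card F := by
    intro j
    have e1 : (univ.filter fun i => j.castSucc ∈ Zs i) =
        univ.filter fun i => σ j.castSucc ∈ Z i := by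
      ext i
      simp only [mem_filter, mem_univ, true_and]
      exact hmem i _
    rw [e1]
    have hj := j.2
    have e2 := h j.castSucc (by rw [Fin.val_castSucc]; omega)
    rw [Fin.val_castSucc] at e2
    omega
  have hZZ : ∀ i, Zs i ⊆ Zs' i := by
    intro i v hv
    rw [hmem']
    exact h1 i ((hmem i v).1 hv)
  obtain ⟨α, hα, f, hf1, hf2, hf3⟩ := indep_zeros hk hZZ hcs hZs hq hdeg
  refine concl_of_polys hkn (α := α ∘ σ.symm) (hα.comp σ.symm.injective) hf1 ?_ hf3
  intro i j hj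
  exact hf2 i (σ.symm j) ((hmem i _).2 (by rw [Equiv.apply_symm_apply]; exact hj))

/-- independent polynomials of degree less than `k` with the prescribed zeros -/
def PolyConcl (F : Type*) [Field F] (n k : ℕ) (Z : Fin k → Finset (Fin n)) : Prop :=
  ∃ α : Fin n → F, Function.Injective α ∧ ∃ f : Fin k → F[X],
    (∀ i, (f i).degree < (k : ℕ)) ∧ (∀ i, ∀ j ∈ Z i, (f i).eval (α j) = 0) ∧
    LinearIndependent F f

theorem poly_of_concl {n k : ℕ} {Z : Fin k → Finset (Fin n)} (h : RSConcl F n k Z) :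
    PolyConcl F n k Z := by
  obtain ⟨α, hα, G, hG, hrow, hz⟩ := h
  have h1 : ∀ i, ∃ f : F[X], f.degree < (k : ℕ) ∧ ∀ j, G i j = f.eval (α j) := by
    intro i
    exact (hrow (G.row i)).1 (Submodule.subset_span ⟨i, rfl⟩)
  choose f hf hfe using h1
  refine ⟨α, hα, f, hf, fun i j hj => by rw [← hfe, hz i j hj], ?_⟩
  rw [Fintype.linearIndependent_iff] at hG ⊢
  intro μ hμ
  apply hG μ
  funext j
  have h2 := congrArg (fun p => p.eval (α j)) hμ
  simp only [eval_finsetSum, eval_smul, eval_zero] at h2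
  simp only [Finset.sum_apply, Pi.smul_apply, Matrix.row_apply, Pi.zero_apply]
  simp only [hfe]
  exact h2

/-- one more row -/
theorem poly_step {n k : ℕ} {Z : Fin (k + 1) → Finset (Fin n)}
    (h : PolyConcl F n k fun i => Z i.castSucc) (hc : (Z (Fin.last k)).card ≤ k) :
    PolyConcl F n (k + 1) Z := by
  obtain ⟨α, hα, f, hf, hz, hind⟩ := h
  set g : F[X] := X ^ (k - (Z (Fin.last k)).card) * ∏ z ∈ Z (Fin.last k), (X - C (α z)) with hg
  have hgd : g.degree = (k : ℕ) := by
    rw [hg, degree_mul, degree_X_pow, degree_prod]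
    simp only [degree_X_sub_C, sum_const, nsmul_eq_mul, mul_one]
    have h1 : k - (Z (Fin.last k)).card + (Z (Fin.last k)).card = k := by omega
    exact_mod_cast congrArg (Nat.cast : ℕ → WithBot ℕ) h1
  refine ⟨α, hα, Fin.snoc (α := fun _ => F[X]) f g, ?_, ?_, ?_⟩
  · intro i
    refine Fin.lastCases ?_ (fun i => ?_) i
    · rw [Fin.snoc_last, hgd]
      exact_mod_cast Nat.lt_succ_self k
    · rw [Fin.snoc_castSucc]
      refine (hf i).trans ?_
      exact_mod_cast Nat.lt_succ_self k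
  · intro i
    refine Fin.lastCases ?_ (fun i => ?_) i
    · intro j hj
      rw [Fin.snoc_last, hg, eval_mul, eval_prod, prod_eq_zero hj, mul_zero]
      simp
    · intro j hj
      rw [Fin.snoc_castSucc]
      exact hz i j hj
  · rw [linearIndependent_finSnoc]
    refine ⟨hind, fun hmem => ?_⟩
    have h2 : Submodule.span F (Set.range f) ≤ degreeLT F k := by
      rw [Submodule.span_le]
      rintro _ ⟨i, rfl⟩
      exact mem_degreeLT.2 (hf i)
    have h3 := mem_degreeLT.1 (h2 hmem)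
    rw [hgd] at h3
    exact lt_irrefl _ h3

theorem poly_tri {n m : ℕ} : ∀ (d : ℕ) (Z : Fin (m + d) → Finset (Fin n)),
    PolyConcl F n m (fun i => Z (Fin.castAdd d i)) →
    (∀ i : Fin (m + d), m ≤ (i : ℕ) → (Z i).card ≤ i) → PolyConcl F n (m + d) Z := by
  intro d
  induction d with
  | zero => intro Z h _; exact h
  | succ d ih =>
    intro Z h hT
    refine poly_step (k := m + d) (ih (fun i => Z i.castSucc) h ?_) ?_
    · intro i hi
      exact hT i.castSucc hi
    · have := hT (Fin.last (m + d)) (by simp)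
      simpa using this

/-- the theorem for the first `m` rows gives the theorem for all rows -/
theorem concl_tri {n m k : ℕ} (hmk : m ≤ k) (hkn : k ≤ n) {Z : Fin k → Finset (Fin n)}
    (h : RSConcl F n m fun i => Z (Fin.castLE hmk i))
    (hT : ∀ i : Fin k, m ≤ (i : ℕ) → (Z i).card ≤ i) : RSConcl F n k Z := by
  obtain ⟨d, rfl⟩ := Nat.exists_eq_add_of_le hmk
  obtain ⟨α, hα, f, h1, h2, h3⟩ := poly_tri d Z (poly_of_concl h) hT
  exact concl_of_polys hkn hα h1 h2 h3

theorem univ_castLE {m k : ℕ} (hmk : m ≤ k) :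
    (univ.filter fun i : Fin k => (i : ℕ) < m) = univ.map (Fin.castLEEmb hmk) := by
  ext i
  simp only [mem_filter, mem_univ, true_and, mem_map]
  constructor
  · intro h
    exact ⟨⟨i, h⟩, rfl⟩
  · rintro ⟨a, rfl⟩
    exact a.2

theorem sum_castLE {n m k : ℕ} (hmk : m ≤ k) (Z : Fin k → Finset (Fin n)) :
    ∑ i : Fin m, (Z (Fin.castLE hmk i)).card =
      ∑ i ∈ univ.filter (fun i : Fin k => (i : ℕ) < m), (Z i).card := by
  rw [univ_castLE hmk, sum_map]
  rfl

theorem deg_castLE {n m k : ℕ} (hmk : m ≤ k) (Z : Fin k → Finset (Fin n)) (v : Fin n) :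
    (univ.filter fun i : Fin m => v ∈ Z (Fin.castLE hmk i)).card =
      (univ.filter fun i : Fin k => (i : ℕ) < m ∧ v ∈ Z i).card := by
  rw [← card_map (Fin.castLEEmb hmk)]
  congr 1
  ext i
  simp only [mem_map, mem_filter, mem_univ, true_and]
  constructor
  · rintro ⟨a, ha, rfl⟩
    exact ⟨a.2, ha⟩
  · rintro ⟨h1, h2⟩
    exact ⟨⟨i, h1⟩, h2, rfl⟩

theorem cond_castLE {n m k : ℕ} (hmk : m ≤ k) (Z : Fin k → Finset (Fin n))
    (hZ : ∀ Ω : Finset (Fin k), Ω.Nonempty → (∀ i ∈ Ω, (i : ℕ) < m) →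
      (univ.filter (fun j : Fin n => ∀ i ∈ Ω, j ∈ Z i)).card + Ω.card ≤ m) :
    Pool.Agent.H95.Cond m fun i : Fin m => Z (Fin.castLE hmk i) := by
  intro Ω hΩ
  have h1 := hZ (Ω.map (Fin.castLEEmb hmk)) (hΩ.map) (by
    intro i hi
    obtain ⟨a, _, rfl⟩ := mem_map.1 hi
    exact a.2)
  rw [card_map] at h1
  have h2 : Pool.Agent.H95.inter (fun i : Fin m => Z (Fin.castLE hmk i)) Ω =
      univ.filter (fun j : Fin n => ∀ i ∈ Ω.map (Fin.castLEEmb hmk), j ∈ Z i) := by
    ext j
    rw [Pool.Agent.H95.mem_inter_iff']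
    simp
  rw [h2]
  exact h1

end Pool.Agent.H42.GR
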